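import Pool.Agent.Helper392.H1.Defs

set_option autoImplicit false
set_option linter.unusedSimpArgs false
set_option linter.unusedSectionVars false

open MeasureTheory Filter Topology
open scoped ContDiff RealInnerProductSpace

namespace Pool.Agent.Helper392.H1

/-! ### generalities on L2 -/

section L2
variable {α : Type*} [MeasurableSpace α] {μ : Measure α}
  {E : Type*} [NormedAddCommGroup E] [InnerProductSpace ℝ E]

theorem inner_toLp {f g : α → E} (hf : MemLp f 2 μ) (hg : MemLp g 2 μ) :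
    ⟪hf.toLp f, hg.toLp g⟫ = ∫ x, ⟪f x, g x⟫ ∂μ := by
  rw [L2.inner_def]
  apply integral_congr_ae
  filter_upwards [hf.coeFn_toLp, hg.coeFn_toLp] with x h1 h2
  rw [h1, h2]

theorem norm_sq_toLp {f : α → E} (hf : MemLp f 2 μ) :
    ‖hf.toLp f‖ ^ 2 = ∫ x, ‖f x‖ ^ 2 ∂μ := by
  rw [← real_inner_self_eq_norm_sq, inner_toLp]
  simp only [real_inner_self_eq_norm_sq]

theorem integrable_inner' {f g : α → E} (hf : MemLp f 2 μ) (hg : MemLp g 2 μ) :
    Integrable (fun x => ⟪f x, g x⟫) μ := by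
  have h := L2.integrable_inner (𝕜 := ℝ) (hf.toLp f) (hg.toLp g)
  refine h.congr ?_
  filter_upwards [hf.coeFn_toLp, hg.coeFn_toLp] with x h1 h2
  rw [h1, h2]

theorem tendsto_toLp {f : ℕ → α → E} {g : α → E} (hf : ∀ n, MemLp (f n) 2 μ) (hg : MemLp g 2 μ)
    (hlim : Tendsto (fun n => eLpNorm (fun x => g x - f n x) 2 μ) atTop (𝓝 0)) :
    Tendsto (fun n => (hf n).toLp (f n)) atTop (𝓝 (hg.toLp g)) := by
  rw [Lp.tendsto_Lp_iff_tendsto_eLpNorm'']
  refine hlim.congr fun n => ?_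
  exact eLpNorm_sub_comm g (f n) 2 μ

theorem tendsto_inner_of {f : ℕ → α → E} {g h : α → E} (hf : ∀ n, MemLp (f n) 2 μ)
    (hg : MemLp g 2 μ) (hh : MemLp h 2 μ)
    (hlim : Tendsto (fun n => eLpNorm (fun x => g x - f n x) 2 μ) atTop (𝓝 0)) :
    Tendsto (fun n => ∫ x, ⟪h x, f n x⟫ ∂μ) atTop (𝓝 (∫ x, ⟪h x, g x⟫ ∂μ)) := by
  have h1 := tendsto_toLp hf hg hlim
  have h2 : Tendsto (fun n => ⟪hh.toLp h, (hf n).toLp (f n)⟫) atTop (𝓝 ⟪hh.toLp h, hg.toLp g⟫) :=
    Tendsto.inner tendsto_const_nhds h1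
  simp only [inner_toLp] at h2
  exact h2

/-- the integral of the square of the difference tends to zero -/
theorem tendsto_sq_of {f : ℕ → α → E} {g : α → E} (hf : ∀ n, MemLp (f n) 2 μ) (hg : MemLp g 2 μ)
    (hlim : Tendsto (fun n => eLpNorm (fun x => g x - f n x) 2 μ) atTop (𝓝 0)) :
    Tendsto (fun n => ∫ x, ‖g x - f n x‖ ^ 2 ∂μ) atTop (𝓝 0) := by
  have h1 := tendsto_toLp hf hg hlim
  have h2 : Tendsto (fun n => ‖hg.toLp g - (hf n).toLp (f n)‖ ^ 2) atTop
      (𝓝 (‖hg.toLp g - hg.toLp g‖ ^ 2)) := ((tendsto_const_nhds.sub h1).norm).pow 2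
  rw [sub_self, norm_zero, zero_pow two_ne_zero] at h2
  refine h2.congr fun n => ?_
  have h3 : hg.toLp g - (hf n).toLp (f n) = (hg.sub (hf n)).toLp (g - f n) :=
    (MemLp.toLp_sub hg (hf n)).symm
  rw [h3, norm_sq_toLp]
  rfl

end L2

variable {ι κ : Type} [Fintype ι] [Fintype κ]

/-- the properties of the left invariant fields that are used -/
structure Nice (G : Carnot ι κ) : Prop where
  sm : ∀ k, ContDiff ℝ ∞ (G.field (G.X k))
  ibp : ∀ (k : κ) (F : Sp ι → ℝ), ContDiff ℝ 1 F → HasCompactSupport F →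
    ∫ x, fderiv ℝ F x (G.field (G.X k) x) = 0

variable {G : Carnot ι κ} {Ω : Set (Sp ι)}

theorem grad_apply (ψ : Sp ι → ℝ) (x : Sp ι) (k : κ) :
    G.grad ψ x k = fderiv ℝ ψ x (G.field (G.X k) x) := rfl

theorem grad_add {ψ χ : Sp ι → ℝ} {x : Sp ι} (h1 : DifferentiableAt ℝ ψ x)
    (h2 : DifferentiableAt ℝ χ x) : G.grad (ψ + χ) x = G.grad ψ x + G.grad χ x := by
  ext k
  rw [PiLp.add_apply, grad_apply, grad_apply, grad_apply, fderiv_add h1 h2]
  rfl

theorem grad_sub {ψ χ : Sp ι → ℝ} {x : Sp ι} (h1 : DifferentiableAt ℝ ψ x)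
    (h2 : DifferentiableAt ℝ χ x) : G.grad (ψ - χ) x = G.grad ψ x - G.grad χ x := by
  ext k
  rw [PiLp.sub_apply, grad_apply, grad_apply, grad_apply, fderiv_sub h1 h2]
  rfl

theorem grad_smul {ψ : Sp ι → ℝ} {x : Sp ι} (c : ℝ) (h1 : DifferentiableAt ℝ ψ x) :
    G.grad (c • ψ) x = c • G.grad ψ x := by
  ext k
  rw [PiLp.smul_apply, grad_apply, grad_apply, fderiv_const_smul h1]
  rfl

theorem grad_mul {ψ χ : Sp ι → ℝ} {x : Sp ι} (h1 : DifferentiableAt ℝ ψ x)
    (h2 : DifferentiableAt ℝ χ x) (k : κ) :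
    G.grad (fun y => ψ y * χ y) x k = ψ x * G.grad χ x k + χ x * G.grad ψ x k := by
  rw [grad_apply, grad_apply, grad_apply, fderiv_fun_mul h1 h2]
  simp

theorem IsTest.diff {ψ : Sp ι → ℝ} (h : IsTest Ω ψ) : Differentiable ℝ ψ :=
  h.1.differentiable (by simp)

theorem IsTest.add {ψ χ : Sp ι → ℝ} (h1 : IsTest Ω ψ) (h2 : IsTest Ω χ) : IsTest Ω (ψ + χ) :=
  ⟨h1.1.add h2.1, h1.2.1.add h2.2.1, (tsupport_add ψ χ).trans (Set.union_subset h1.2.2 h2.2.2)⟩

theorem IsTest.smul {ψ : Sp ι → ℝ} (c : ℝ) (h1 : IsTest Ω ψ) : IsTest Ω (c • ψ) := by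
  refine ⟨contDiff_const.smul h1.1, h1.2.1.smul_left, ?_⟩
  exact (closure_mono (Function.support_const_smul_subset c ψ)).trans h1.2.2

theorem IsTest.zero : IsTest Ω (0 : Sp ι → ℝ) := by
  refine ⟨contDiff_const, HasCompactSupport.zero, ?_⟩
  simp [tsupport]

theorem IsTest.sub {ψ χ : Sp ι → ℝ} (h1 : IsTest Ω ψ) (h2 : IsTest Ω χ) : IsTest Ω (ψ - χ) := by
  have := h1.add (h2.smul (-1))
  rwa [show ψ + (-1 : ℝ) • χ = ψ - χ by ext; simp [sub_eq_add_neg]] at this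

theorem IsTest.eq_zero {ψ : Sp ι → ℝ} (h : IsTest Ω ψ) {x : Sp ι} (hx : x ∉ Ω) : ψ x = 0 :=
  image_eq_zero_of_notMem_tsupport fun hx' => hx (h.2.2 hx')

theorem IsTest.fderiv_eq_zero {ψ : Sp ι → ℝ} (h : IsTest Ω ψ) {x : Sp ι} (hx : x ∉ Ω) :
    fderiv ℝ ψ x = 0 := by
  apply image_eq_zero_of_notMem_tsupport
  exact fun hx' => hx (h.2.2 (tsupport_fderiv_subset ℝ hx'))

theorem IsTest.grad_eq_zero {ψ : Sp ι → ℝ} (h : IsTest Ω ψ) {x : Sp ι} (hx : x ∉ Ω) :
    G.grad ψ x = 0 := by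
  ext k
  rw [grad_apply, h.fderiv_eq_zero hx]
  rfl

theorem grad_continuous (hG : Nice G) {ψ : Sp ι → ℝ} (h : ContDiff ℝ ∞ ψ) :
    Continuous (G.grad ψ) := by
  rw [show G.grad ψ = fun x => WithLp.toLp 2 (fun i => fderiv ℝ ψ x (G.field (G.X i) x)) from rfl]
  have : Continuous (fun x => (fun i => fderiv ℝ ψ x (G.field (G.X i) x) : κ → ℝ)) := by
    apply continuous_pi
    intro k
    exact (h.continuous_fderiv (by simp)).clm_apply (hG.sm k).continuous
  exact (PiLp.continuous_toLp 2 (fun _ : κ => ℝ)).comp this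

theorem grad_comp_smooth (hG : Nice G) {ψ : Sp ι → ℝ} (h : ContDiff ℝ ∞ ψ) (k : κ) :
    ContDiff ℝ ∞ (fun x => G.grad ψ x k) := by
  simp only [grad_apply]
  exact (h.fderiv_right (m := ∞) (by simp)).clm_apply (hG.sm k)

theorem IsTest.grad_hasCompactSupport {ψ : Sp ι → ℝ} (h : IsTest Ω ψ) :
    HasCompactSupport (G.grad ψ) := by
  have h1 : HasCompactSupport (fderiv ℝ ψ) := h.2.1.fderiv ℝ
  refine h1.mono ?_
  intro x hx
  rw [Function.mem_support] at hx ⊢
  intro h0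
  apply hx
  ext k
  rw [grad_apply, h0]
  rfl

theorem IsTest.memLp {ψ : Sp ι → ℝ} (h : IsTest Ω ψ) (p : ENNReal) (μ : Measure (Sp ι))
    [IsFiniteMeasureOnCompacts μ] : MemLp ψ p μ :=
  h.1.continuous.memLp_of_hasCompactSupport h.2.1

theorem IsTest.memLp_grad (hG : Nice G) {ψ : Sp ι → ℝ} (h : IsTest Ω ψ) (p : ENNReal)
    (μ : Measure (Sp ι)) [IsFiniteMeasureOnCompacts μ] : MemLp (G.grad ψ) p μ :=
  (grad_continuous hG h.1).memLp_of_hasCompactSupport h.grad_hasCompactSupport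

theorem setIntegral_test {F : Sp ι → ℝ} (hF : ∀ x, x ∉ Ω → F x = 0) :
    ∫ x in Ω, F x = ∫ x, F x :=
  setIntegral_eq_integral_of_forall_compl_eq_zero hF

/-- integration by parts against a smooth function -/
theorem ibp_mul (hG : Nice G) {ψ χ : Sp ι → ℝ} (h : IsTest Ω ψ) (hχ : ContDiff ℝ ∞ χ) (k : κ) :
    ∫ x in Ω, ψ x * G.grad χ x k = - ∫ x in Ω, G.grad ψ x k * χ x := by
  have h0 := hG.ibp k (fun x => ψ x * χ x) ((h.1.mul hχ).of_le (by simp)) h.2.1.mul_right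
  have h1 : ∀ x, fderiv ℝ (fun x => ψ x * χ x) x (G.field (G.X k) x)
      = ψ x * G.grad χ x k + G.grad ψ x k * χ x := by
    intro x
    have := grad_mul (G := G) (h.diff x) ((hχ.differentiable (by simp)) x) k
    rw [grad_apply] at this
    rw [this]
    ring
  simp only [h1] at h0
  have i1 : Integrable (fun x => ψ x * G.grad χ x k) :=
    (h.1.continuous.mul (grad_comp_smooth hG hχ k).continuous).integrable_of_hasCompactSupport
      h.2.1.mul_right
  have i2 : Integrable (fun x => G.grad ψ x k * χ x) := by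
    refine ((grad_comp_smooth hG h.1 k).continuous.mul hχ.continuous).integrable_of_hasCompactSupport
      (HasCompactSupport.mul_right ?_)
    refine (h.grad_hasCompactSupport (G := G)).mono ?_
    intro x hx
    rw [Function.mem_support] at hx ⊢
    intro h0
    apply hx
    rw [h0]
    rfl
  rw [integral_add i1 i2] at h0
  rw [setIntegral_test (fun x hx => by rw [h.eq_zero hx, zero_mul]),
    setIntegral_test (fun x hx => by rw [h.grad_eq_zero hx]; simp)]
  linarith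

/-- Poincare inequality -/
theorem poincare (hG : Nice G) {ψ : Sp ι → ℝ} (h : IsTest Ω ψ) {τ : Sp ι → ℝ}
    (hτ : ContDiff ℝ ∞ τ) (k : κ) (hτ1 : ∀ x, G.grad τ x k = 1) {C : ℝ}
    (hC : ∀ x ∈ Ω, |τ x| ≤ C) :
    ∫ x in Ω, ψ x ^ 2 ≤ 4 * C ^ 2 * ∫ x in Ω, (G.grad ψ x k) ^ 2 := by
  have hψτ : ContDiff ℝ ∞ (fun x => ψ x * τ x) := h.1.mul hτ
  have h1 := ibp_mul hG h hψτ k
  have h2 : ∀ x, G.grad (fun x => ψ x * τ x) x k = ψ x + τ x * G.grad ψ x k := by
    intro x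
    rw [grad_mul (h.diff x) ((hτ.differentiable (by simp)) x), hτ1, mul_one]
  simp only [h2] at h1
  have cg : Continuous (fun x => G.grad ψ x k) := (grad_comp_smooth hG h.1 k).continuous
  have sg : HasCompactSupport (fun x => G.grad ψ x k) := by
    refine (h.grad_hasCompactSupport (G := G)).mono ?_
    intro x hx
    rw [Function.mem_support] at hx ⊢
    intro h0
    apply hx
    rw [h0]
    rfl
  have i1 : Integrable (fun x => ψ x ^ 2) (volume.restrict Ω) := by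
    simp only [sq]
    exact ((h.1.continuous.mul h.1.continuous).integrable_of_hasCompactSupport
      h.2.1.mul_right).integrableOn
  have i2 : Integrable (fun x => (G.grad ψ x k) ^ 2) (volume.restrict Ω) := by
    simp only [sq]
    exact ((cg.mul cg).integrable_of_hasCompactSupport sg.mul_right).integrableOn
  have i3 : Integrable (fun x => ψ x * (τ x * G.grad ψ x k)) (volume.restrict Ω) :=
    ((h.1.continuous.mul (hτ.continuous.mul cg)).integrable_of_hasCompactSupport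
      h.2.1.mul_right).integrableOn
  have i4 : Integrable (fun x => G.grad ψ x k * (ψ x * τ x)) (volume.restrict Ω) :=
    ((cg.mul (h.1.continuous.mul hτ.continuous)).integrable_of_hasCompactSupport
      sg.mul_right).integrableOn
  have h3 : ∫ x in Ω, ψ x ^ 2 = - ∫ x in Ω, 2 * (ψ x * (τ x * G.grad ψ x k)) := by
    have e1 : ∫ x in Ω, ψ x * (ψ x + τ x * G.grad ψ x k)
        = (∫ x in Ω, ψ x ^ 2) + ∫ x in Ω, ψ x * (τ x * G.grad ψ x k) := by
      rw [← integral_add i1 i3]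
      congr 1; ext x; ring
    have e2 : ∫ x in Ω, G.grad ψ x k * (ψ x * τ x) = ∫ x in Ω, ψ x * (τ x * G.grad ψ x k) := by
      congr 1; ext x; ring
    rw [e1, e2] at h1
    rw [integral_const_mul]
    linarith
  have h4 : ∫ x in Ω, ψ x ^ 2 ≤ ∫ x in Ω, (1 / 2 * ψ x ^ 2 + 2 * C ^ 2 * (G.grad ψ x k) ^ 2) := by
    rw [h3, ← integral_neg]
    apply integral_mono (i3.const_mul 2).neg ((i1.const_mul _).add (i2.const_mul _))
    intro x
    by_cases hx : x ∈ Ω
    · have hc := hC x hx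
      have hτ2 : (τ x) ^ 2 ≤ C ^ 2 := by
        rw [← sq_abs]; exact pow_le_pow_left₀ (abs_nonneg _) hc 2
      have : 0 ≤ (ψ x + 2 * (τ x * G.grad ψ x k)) ^ 2 := sq_nonneg _
      have h5 : (τ x) ^ 2 * (G.grad ψ x k) ^ 2 ≤ C ^ 2 * (G.grad ψ x k) ^ 2 :=
        mul_le_mul_of_nonneg_right hτ2 (sq_nonneg _)
      change -(2 * (ψ x * (τ x * G.grad ψ x k))) ≤
        1 / 2 * ψ x ^ 2 + 2 * C ^ 2 * (G.grad ψ x k) ^ 2
      nlinarith
    · have e1 : ψ x = 0 := h.eq_zero hx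
      have e2 : G.grad ψ x k = 0 := by rw [h.grad_eq_zero hx]; rfl
      simp [e1, e2]
  rw [integral_add (i1.const_mul _) (i2.const_mul _), integral_const_mul, integral_const_mul] at h4
  linarith

end Pool.Agent.Helper392.H1
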