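import Pool.Agent.Helper392.H1.IBP
import Pool.Agent.Helper392.H1.Sob

set_option autoImplicit false
set_option linter.unusedSimpArgs false
set_option linter.unusedSectionVars false

open MeasureTheory Filter Topology
open scoped ContDiff RealInnerProductSpace

namespace Pool.Agent.Helper392.H1

theorem G_nice : Nice G := by
  refine ⟨?_, ?_⟩
  · intro k
    change ContDiff ℝ ∞ (G0.field (ex k))
    rw [field_eq']
    exact fld_smooth _
  · intro k F hF hc
    change ∫ x, fderiv ℝ F x (G0.field (ex k) x) = 0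
    simp only [field_eq]
    exact int_X (ex k) F hF hc

/-! ### directional derivatives -/

def HD (a : Sp J) (F : Sp J → ℝ) (d : ℝ) (x : Sp J) : Prop :=
  ∃ L : Sp J →L[ℝ] ℝ, HasFDerivAt F L x ∧ L a = d

theorem HD.fderiv {a : Sp J} {F : Sp J → ℝ} {d : ℝ} {x : Sp J} (h : HD a F d x) :
    fderiv ℝ F x a = d := by
  obtain ⟨L, h1, h2⟩ := h
  rw [h1.fderiv, h2]

theorem HD.congr_val {a : Sp J} {F : Sp J → ℝ} {d d' : ℝ} {x : Sp J} (h : HD a F d x)
    (e : d = d') : HD a F d' x := e ▸ h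

theorem HD.congr_fun {a : Sp J} {F F' : Sp J → ℝ} {d : ℝ} {x : Sp J} (h : HD a F d x)
    (e : F' =ᶠ[𝓝 x] F) : HD a F' d x := by
  obtain ⟨L, h1, h2⟩ := h
  exact ⟨L, h1.congr_of_eventuallyEq e, h2⟩

theorem HD.coord (a x : Sp J) (j : J) : HD a (fun y => y j) (a j) x :=
  ⟨EuclideanSpace.proj j, (EuclideanSpace.proj j : Sp J →L[ℝ] ℝ).hasFDerivAt, rfl⟩

theorem HD.const (a x : Sp J) (c : ℝ) : HD a (fun _ => c) 0 x :=
  ⟨0, hasFDerivAt_const c x, rfl⟩

theorem HD.add {a x : Sp J} {F H : Sp J → ℝ} {d e : ℝ} (h1 : HD a F d x) (h2 : HD a H e x) :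
    HD a (fun y => F y + H y) (d + e) x := by
  obtain ⟨L, p1, p2⟩ := h1
  obtain ⟨M, q1, q2⟩ := h2
  exact ⟨L + M, p1.add q1, by rw [← p2, ← q2]; rfl⟩

theorem HD.sub {a x : Sp J} {F H : Sp J → ℝ} {d e : ℝ} (h1 : HD a F d x) (h2 : HD a H e x) :
    HD a (fun y => F y - H y) (d - e) x := by
  obtain ⟨L, p1, p2⟩ := h1
  obtain ⟨M, q1, q2⟩ := h2
  exact ⟨L - M, p1.sub q1, by rw [← p2, ← q2]; rfl⟩

theorem HD.mul {a x : Sp J} {F H : Sp J → ℝ} {d e : ℝ} (h1 : HD a F d x) (h2 : HD a H e x) :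
    HD a (fun y => F y * H y) (d * H x + F x * e) x := by
  obtain ⟨L, p1, p2⟩ := h1
  obtain ⟨M, q1, q2⟩ := h2
  refine ⟨F x • M + H x • L, p1.mul q1, ?_⟩
  rw [← p2, ← q2]
  change F x * M a + H x * L a = _
  ring

theorem HD.cmul {a x : Sp J} {F : Sp J → ℝ} {d : ℝ} (c : ℝ) (h1 : HD a F d x) :
    HD a (fun y => c * F y) (c * d) x := by
  have := (HD.const a x c).mul h1
  exact this.congr_val (by ring)

theorem HD.comp {a x : Sp J} {F : Sp J → ℝ} {d : ℝ} {h : ℝ → ℝ} {h' : ℝ} (h1 : HD a F d x)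
    (h2 : HasDerivAt h h' (F x)) : HD a (fun y => h (F y)) (h' * d) x := by
  obtain ⟨L, p1, p2⟩ := h1
  refine ⟨h' • L, h2.comp_hasFDerivAt x p1, ?_⟩
  rw [← p2]
  rfl

theorem HD.pow {a x : Sp J} {F : Sp J → ℝ} {d : ℝ} (h1 : HD a F d x) (n : ℕ) :
    HD a (fun y => F y ^ n) (n * F x ^ (n - 1) * d) x :=
  h1.comp (h := fun t => t ^ n) (hasDerivAt_pow n (F x))

theorem HD.sum {a x : Sp J} {σ : Type*} (s : Finset σ) {F : σ → Sp J → ℝ} {d : σ → ℝ}
    (h1 : ∀ i ∈ s, HD a (F i) (d i) x) : HD a (fun y => ∑ i ∈ s, F i y) (∑ i ∈ s, d i) x := by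
  classical
  induction s using Finset.induction_on with
  | empty => simpa using HD.const a x 0
  | insert i s his ih =>
    simp only [Finset.sum_insert his]
    exact (h1 i (Finset.mem_insert_self i s)).add
      (ih fun j hj => h1 j (Finset.mem_insert_of_mem hj))

/-! ### the coordinate functions -/

noncomputable def yy (i : Fin 6) (x : Sp J) : ℝ := x (iv i)
noncomputable def zz (x : Sp J) : ℝ := x iz - 36
noncomputable def ss (x : Sp J) : ℝ := ∑ i, yy i x ^ 2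
noncomputable def ff (i : Fin 6) (x : Sp J) : ℝ := x (iF i) - zz x * yy i x / 2 + 18 * yy i x
noncomputable def qq (x : Sp J) : ℝ := ∑ i, ff i x ^ 2
noncomputable def pp (x : Sp J) : ℝ := ∑ i, ff i x * yy i x
noncomputable def gg (x : Sp J) : ℝ := x ig + pp x / 2 - zz x * ss x / 12 - 3 * ss x
noncomputable def rr (x : Sp J) : ℝ := (√(√(ss x)))⁻¹

/-- field of the first kind at `x` -/
noncomputable def ax (i : Fin 6) (x : Sp J) : Sp J := fld (ex (Sum.inl i)) x
noncomputable def az (x : Sp J) : Sp J := fld (ex (Sum.inr ())) x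

theorem G_field_inl (i : Fin 6) (x : Sp J) : G.field (G.X (Sum.inl i)) x = ax i x :=
  field_eq _ _
theorem G_field_inr (x : Sp J) : G.field (G.X (Sum.inr ())) x = az x :=
  field_eq _ _

theorem ax_v (i j : Fin 6) (x : Sp J) : ax i x (iv j) = if j = i then 1 else 0 := by
  simp [ax, fld, ex_inl, Pi.single_apply]
theorem ax_z (i : Fin 6) (x : Sp J) : ax i x iz = 0 := by simp [ax, fld, ex_inl]
theorem ax_f (i j : Fin 6) (x : Sp J) : ax i x (iF j) = if j = i then - x iz / 2 else 0 := by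
  simp only [ax, fld, ex_inl, mk_f, mk_z, mk_v, Pi.single_apply]
  split_ifs <;> simp
theorem ax_g (i : Fin 6) (x : Sp J) : ax i x ig = - x (iF i) / 2 - x (iv i) * x iz / 12 := by
  simp only [ax, fld, ex_inl, mk_f, mk_z, mk_v, mk_g, Pi.single_apply]
  simp [Finset.sum_ite_eq']
  ring
theorem az_v (j : Fin 6) (x : Sp J) : az x (iv j) = 0 := by
  simp [az, fld, ex_inr]
theorem az_z (x : Sp J) : az x iz = 1 := by simp [az, fld, ex_inr]
theorem az_f (j : Fin 6) (x : Sp J) : az x (iF j) = x (iv j) / 2 := by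
  simp [az, fld, ex_inr]
theorem az_g (x : Sp J) : az x ig = ss x / 12 := by
  simp only [az, fld, ex_inr, mk_f, mk_z, mk_v, mk_g]
  simp [ss, yy, sq]

/-! derivatives along `ax i` -/

theorem hx_y (i j : Fin 6) (x : Sp J) : HD (ax i x) (yy j) (if j = i then 1 else 0) x :=
  (HD.coord (ax i x) x (iv j)).congr_val (ax_v i j x)

theorem hx_z (i : Fin 6) (x : Sp J) : HD (ax i x) zz 0 x :=
  ((HD.coord (ax i x) x iz).sub (HD.const _ x 36)).congr_val (by rw [ax_z, sub_zero])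

theorem hx_s (i : Fin 6) (x : Sp J) : HD (ax i x) ss (2 * yy i x) x := by
  have := HD.sum (a := ax i x) (x := x) Finset.univ (fun j _ => (hx_y i j x).pow 2)
  refine this.congr_val ?_
  simp

theorem hx_f (i j : Fin 6) (x : Sp J) : HD (ax i x) (ff j) (if j = i then - zz x else 0) x := by
  have h1 := (HD.coord (ax i x) x (iF j)).sub (((hx_z i x).mul (hx_y i j x)).cmul (1 / 2))
  have h2 := h1.add ((hx_y i j x).cmul 18)
  refine (h2.congr_val (d' := if j = i then - zz x else 0) ?_).congr_fun ?_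
  · rw [ax_f]
    split_ifs
    · unfold zz; ring
    · ring
  · refine Eventually.of_forall fun y => ?_
    simp only [ff]; ring

theorem hx_q (i : Fin 6) (x : Sp J) : HD (ax i x) qq (- 2 * zz x * ff i x) x := by
  have := HD.sum (a := ax i x) (x := x) Finset.univ (fun j _ => (hx_f i j x).pow 2)
  refine this.congr_val ?_
  simp
  ring

theorem hx_p (i : Fin 6) (x : Sp J) : HD (ax i x) pp (ff i x - zz x * yy i x) x := by
  have := HD.sum (a := ax i x) (x := x) Finset.univ (fun j _ => (hx_f i j x).mul (hx_y i j x))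
  refine this.congr_val ?_
  simp [Finset.sum_add_distrib]
  ring

theorem hx_g (i : Fin 6) (x : Sp J) : HD (ax i x) gg (- zz x * yy i x) x := by
  have h1 := (HD.coord (ax i x) x ig).add ((hx_p i x).cmul (1 / 2))
  have h2 := h1.sub (((hx_z i x).mul (hx_s i x)).cmul (1 / 12))
  have h3 := h2.sub ((hx_s i x).cmul 3)
  refine (h3.congr_val (d' := - zz x * yy i x) ?_).congr_fun ?_
  · rw [ax_g]
    have e1 : x iz = zz x + 36 := by unfold zz; ring
    have e2 : x (iF i) = ff i x + zz x * yy i x / 2 - 18 * yy i x := by unfold ff; ring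
    have e3 : x (iv i) = yy i x := rfl
    rw [e1, e2, e3]
    ring
  · refine Eventually.of_forall fun y => ?_
    simp only [gg]; ring

/-! derivatives along `az` -/

theorem hz_y (j : Fin 6) (x : Sp J) : HD (az x) (yy j) 0 x :=
  (HD.coord (az x) x (iv j)).congr_val (az_v j x)

theorem hz_z (x : Sp J) : HD (az x) zz 1 x :=
  ((HD.coord (az x) x iz).sub (HD.const _ x 36)).congr_val (by rw [az_z, sub_zero])

theorem hz_s (x : Sp J) : HD (az x) ss 0 x := by
  have := HD.sum (a := az x) (x := x) Finset.univ (fun j _ => (hz_y j x).pow 2)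
  refine this.congr_val ?_
  simp

theorem hz_f (j : Fin 6) (x : Sp J) : HD (az x) (ff j) 0 x := by
  have h1 := (HD.coord (az x) x (iF j)).sub (((hz_z x).mul (hz_y j x)).cmul (1 / 2))
  have h2 := h1.add ((hz_y j x).cmul 18)
  refine (h2.congr_val (d' := 0) ?_).congr_fun ?_
  · rw [az_f]
    change yy j x / 2 - 1 / 2 * (1 * yy j x + zz x * 0) + 18 * 0 = 0
    ring
  · refine Eventually.of_forall fun y => ?_
    simp only [ff]; ring

theorem hz_q (x : Sp J) : HD (az x) qq 0 x := by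
  have := HD.sum (a := az x) (x := x) Finset.univ (fun j _ => (hz_f j x).pow 2)
  refine this.congr_val ?_
  simp

theorem hz_p (x : Sp J) : HD (az x) pp 0 x := by
  have := HD.sum (a := az x) (x := x) Finset.univ (fun j _ => (hz_f j x).mul (hz_y j x))
  refine this.congr_val ?_
  simp

theorem hz_g (x : Sp J) : HD (az x) gg 0 x := by
  have h1 := (HD.coord (az x) x ig).add ((hz_p x).cmul (1 / 2))
  have h2 := h1.sub (((hz_z x).mul (hz_s x)).cmul (1 / 12))
  have h3 := h2.sub ((hz_s x).cmul 3)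
  refine (h3.congr_val (d' := 0) ?_).congr_fun ?_
  · rw [az_g]; ring
  · refine Eventually.of_forall fun y => ?_
    simp only [gg]; ring

/-! the function `r = s^{-1/4}` -/

theorem rr_pos {x : Sp J} (hx : 0 < ss x) : 0 < rr x := by
  unfold rr
  have := Real.sqrt_pos.mpr (Real.sqrt_pos.mpr hx)
  positivity

theorem ss_rr {x : Sp J} (hx : 0 < ss x) : ss x * rr x ^ 4 = 1 := by
  have h1 : 0 < √(ss x) := Real.sqrt_pos.mpr hx
  have h2 : √(√(ss x)) ^ 2 = √(ss x) := Real.sq_sqrt h1.le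
  have h3 : √(ss x) ^ 2 = ss x := Real.sq_sqrt hx.le
  have h4 : √(√(ss x)) ^ 4 = ss x := by
    calc √(√(ss x)) ^ 4 = (√(√(ss x)) ^ 2) ^ 2 := by ring
      _ = ss x := by rw [h2, h3]
  unfold rr
  rw [inv_pow, h4]
  exact mul_inv_cancel₀ hx.ne'

theorem h_r {a x : Sp J} {d : ℝ} (hx : 0 < ss x) (h : HD a ss d x) :
    HD a rr (- (d / 4) * rr x ^ 5) x := by
  have h1 : 0 < √(ss x) := Real.sqrt_pos.mpr hx
  have h2 : 0 < √(√(ss x)) := Real.sqrt_pos.mpr h1
  have d1 : HasDerivAt (fun t : ℝ => √t) (1 / (2 * √(ss x))) (ss x) := Real.hasDerivAt_sqrt hx.ne'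
  have d2 : HasDerivAt (fun t : ℝ => √t) (1 / (2 * √(√(ss x)))) (√(ss x)) :=
    Real.hasDerivAt_sqrt h1.ne'
  have d3 : HasDerivAt (fun t : ℝ => √(√t)) (1 / (2 * √(√(ss x))) * (1 / (2 * √(ss x)))) (ss x) :=
    d2.comp (ss x) d1
  have d4 := d3.inv h2.ne'
  have h3 := h.comp d4
  refine h3.congr_val ?_
  unfold rr
  have e : √(ss x) = √(√(ss x)) ^ 2 := (Real.sq_sqrt h1.le).symm
  set t := √(√(ss x)) with ht
  rw [e]
  field_simp
  ring

/-! ### the barrier -/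

/-- the barrier function -/
noncomputable def ww (η : ℝ) (x : Sp J) : ℝ :=
  (ss x - zz x ^ 2 - qq x) * rr x ^ 3 - gg x ^ 2 * rr x ^ 7 + 1000000 * ss x - η * rr x ^ 4

noncomputable def al (η : ℝ) (x : Sp J) : ℝ :=
  1 / 2 * rr x ^ 3 + 3 / 2 * ((zz x ^ 2 + qq x) * rr x ^ 7) + 2 * (gg x * (zz x * rr x ^ 7))
    + 7 / 2 * (gg x ^ 2 * rr x ^ 11) + 2000000 + 2 * η * rr x ^ 8

theorem hx_w (η : ℝ) (i : Fin 6) {x : Sp J} (hx : 0 < ss x) :
    HD (ax i x) (ww η) (yy i x * al η x + ff i x * (2 * (zz x * rr x ^ 3))) x := by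
  have hr := h_r hx (hx_s i x)
  have h1 := ((((hx_s i x).sub ((hx_z i x).pow 2)).sub (hx_q i x)).mul (hr.pow 3))
  have h2 := (((hx_g i x).pow 2).mul (hr.pow 7))
  have h3 := ((h1.sub h2).add ((hx_s i x).cmul 1000000)).sub ((hr.pow 4).cmul η)
  refine h3.congr_val ?_
  have e := ss_rr hx
  simp only [al]
  norm_num
  linear_combination (- 3 / 2 * yy i x * rr x ^ 3) * e

theorem hz_w (η : ℝ) {x : Sp J} (hx : 0 < ss x) :
    HD (az x) (ww η) (- 2 * (zz x * rr x ^ 3)) x := by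
  have hr := h_r hx (hz_s x)
  have h1 := ((((hz_s x).sub ((hz_z x).pow 2)).sub (hz_q x)).mul (hr.pow 3))
  have h2 := (((hz_g x).pow 2).mul (hr.pow 7))
  have h3 := ((h1.sub h2).add ((hz_s x).cmul 1000000)).sub ((hr.pow 4).cmul η)
  refine h3.congr_val ?_
  norm_num
  ring

theorem hx_al (η : ℝ) (i : Fin 6) {x : Sp J} (hx : 0 < ss x) :
    HD (ax i x) (al η) (- (yy i x * (3 / 4 * rr x ^ 7 + 21 / 4 * (zz x ^ 2 + qq x) * rr x ^ 11
      + 7 * gg x * zz x * rr x ^ 11 + 77 / 4 * gg x ^ 2 * rr x ^ 15 + 8 * η * rr x ^ 12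
      + 2 * zz x ^ 2 * rr x ^ 7 + 7 * gg x * zz x * rr x ^ 11))
      - 3 * zz x * ff i x * rr x ^ 7) x := by
  have hr := h_r hx (hx_s i x)
  have h1 := (hr.pow 3).cmul (1 / 2)
  have h2 := ((((hx_z i x).pow 2).add (hx_q i x)).mul (hr.pow 7)).cmul (3 / 2)
  have h3 := ((hx_g i x).mul ((hx_z i x).mul (hr.pow 7))).cmul 2
  have h4 := (((hx_g i x).pow 2).mul (hr.pow 11)).cmul (7 / 2)
  have h5 := ((((h1.add h2).add h3).add h4).add (HD.const _ x 2000000)).add
    ((hr.pow 8).cmul (2 * η))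
  refine h5.congr_val ?_
  norm_num
  ring

theorem grad_inl (F : Sp J → ℝ) (x : Sp J) (i : Fin 6) :
    G.grad F x (Sum.inl i) = fderiv ℝ F x (ax i x) := by
  rw [grad_apply, G_field_inl]

theorem grad_inr (F : Sp J → ℝ) (x : Sp J) :
    G.grad F x (Sum.inr ()) = fderiv ℝ F x (az x) := by
  rw [grad_apply, G_field_inr]

theorem ss_smooth : ContDiff ℝ ∞ ss := by
  unfold ss yy
  exact ContDiff.sum fun i _ => (coord_smooth _).pow 2

theorem zz_smooth : ContDiff ℝ ∞ zz := (coord_smooth _).sub contDiff_const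

theorem yy_smooth (i : Fin 6) : ContDiff ℝ ∞ (yy i) := coord_smooth _

theorem ff_smooth (i : Fin 6) : ContDiff ℝ ∞ (ff i) := by
  unfold ff
  exact ((coord_smooth _).sub ((zz_smooth.mul (yy_smooth i)).div_const _)).add
    (contDiff_const.mul (yy_smooth i))

theorem qq_smooth : ContDiff ℝ ∞ qq := ContDiff.sum fun i _ => (ff_smooth i).pow 2

theorem pp_smooth : ContDiff ℝ ∞ pp := ContDiff.sum fun i _ => (ff_smooth i).mul (yy_smooth i)

theorem gg_smooth : ContDiff ℝ ∞ gg := by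
  unfold gg
  exact (((coord_smooth _).add (pp_smooth.div_const _)).sub
    ((zz_smooth.mul ss_smooth).div_const _)).sub (contDiff_const.mul ss_smooth)

/-- the open set where the barrier is smooth -/
def OO : Set (Sp J) := {x | 0 < ss x}

theorem OO_open : IsOpen OO := isOpen_lt continuous_const ss_smooth.continuous

theorem rr_smooth : ContDiffOn ℝ ∞ rr OO := by
  unfold rr
  intro x hx
  have h1 : 0 < √(ss x) := Real.sqrt_pos.mpr hx
  have h2 : 0 < √(√(ss x)) := Real.sqrt_pos.mpr h1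
  apply ContDiffAt.contDiffWithinAt
  exact (((ss_smooth.contDiffAt).sqrt (ne_of_gt hx)).sqrt h1.ne').inv h2.ne'

theorem ww_smooth (η : ℝ) : ContDiffOn ℝ ∞ (ww η) OO := by
  unfold ww
  exact (((((ss_smooth.sub (zz_smooth.pow 2)).sub qq_smooth).contDiffOn.mul (rr_smooth.pow 3)).sub
    ((gg_smooth.pow 2).contDiffOn.mul (rr_smooth.pow 7))).add
    (contDiff_const.mul ss_smooth).contDiffOn).sub (contDiffOn_const.mul (rr_smooth.pow 4))

/-- the value of the sub-Laplacian of the barrier -/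
theorem lap_w (η : ℝ) {x : Sp J} (hx : 0 < ss x) :
    ∑ k, fderiv ℝ (fun y => G.grad (ww η) y k) x (G.field (G.X k) x) =
      1 / 4 * rr x ^ 3 + 15 / 4 * (zz x ^ 2 + qq x) * rr x ^ 7 + 7 / 4 * gg x ^ 2 * rr x ^ 11
      + 12000000 + 4 * η * rr x ^ 8 - 2 * gg x * zz x * rr x ^ 7 - 14 * zz x ^ 2 * rr x ^ 3
      - 6 * zz x * pp x * rr x ^ 7 := by
  have hnb : OO ∈ 𝓝 x := OO_open.mem_nhds hx
  have e1 : ∀ i : Fin 6, fderiv ℝ (fun y => G.grad (ww η) y (Sum.inl i)) x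
      (G.field (G.X (Sum.inl i)) x) =
      al η x + yy i x * (- (yy i x * (3 / 4 * rr x ^ 7 + 21 / 4 * (zz x ^ 2 + qq x) * rr x ^ 11
      + 7 * gg x * zz x * rr x ^ 11 + 77 / 4 * gg x ^ 2 * rr x ^ 15 + 8 * η * rr x ^ 12
      + 2 * zz x ^ 2 * rr x ^ 7 + 7 * gg x * zz x * rr x ^ 11))
      - 3 * zz x * ff i x * rr x ^ 7) - 2 * zz x ^ 2 * rr x ^ 3
      - 3 * ff i x * zz x * yy i x * rr x ^ 7 := by
    intro i
    rw [G_field_inl]
    have h0 : (fun y => G.grad (ww η) y (Sum.inl i)) =ᶠ[𝓝 x]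
        fun y => yy i y * al η y + ff i y * (2 * (zz y * rr y ^ 3)) := by
      filter_upwards [hnb] with y hy
      rw [grad_inl, (hx_w η i hy).fderiv]
    have h1 := ((hx_y i i x).mul (hx_al η i hx)).add
      ((hx_f i i x).mul (((hx_z i x).mul ((h_r hx (hx_s i x)).pow 3)).cmul 2))
    rw [(h1.congr_fun h0).fderiv]
    simp only [if_true]
    norm_num
    ring
  have e2 : fderiv ℝ (fun y => G.grad (ww η) y (Sum.inr ())) x
      (G.field (G.X (Sum.inr ())) x) = - 2 * rr x ^ 3 := by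
    rw [G_field_inr]
    have h0 : (fun y => G.grad (ww η) y (Sum.inr ())) =ᶠ[𝓝 x]
        fun y => - 2 * (zz y * rr y ^ 3) := by
      filter_upwards [hnb] with y hy
      rw [grad_inr, (hz_w η hy).fderiv]
    have h1 := (((hz_z x).mul ((h_r hx (hz_s x)).pow 3)).cmul (-2))
    rw [(h1.congr_fun h0).fderiv]
    norm_num
  rw [Fintype.sum_sum_type]
  simp only [e1, Finset.univ_unique, Finset.sum_singleton]
  rw [show (default : Unit) = () from rfl, e2]
  have hsum : ∑ i : Fin 6, (al η x + yy i x * (- (yy i x * (3 / 4 * rr x ^ 7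
      + 21 / 4 * (zz x ^ 2 + qq x) * rr x ^ 11
      + 7 * gg x * zz x * rr x ^ 11 + 77 / 4 * gg x ^ 2 * rr x ^ 15 + 8 * η * rr x ^ 12
      + 2 * zz x ^ 2 * rr x ^ 7 + 7 * gg x * zz x * rr x ^ 11))
      - 3 * zz x * ff i x * rr x ^ 7) - 2 * zz x ^ 2 * rr x ^ 3
      - 3 * ff i x * zz x * yy i x * rr x ^ 7) =
      6 * al η x - ss x * (3 / 4 * rr x ^ 7
      + 21 / 4 * (zz x ^ 2 + qq x) * rr x ^ 11
      + 7 * gg x * zz x * rr x ^ 11 + 77 / 4 * gg x ^ 2 * rr x ^ 15 + 8 * η * rr x ^ 12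
      + 2 * zz x ^ 2 * rr x ^ 7 + 7 * gg x * zz x * rr x ^ 11)
      - 12 * zz x ^ 2 * rr x ^ 3 - 6 * zz x * pp x * rr x ^ 7 := by
    have es : ss x = ∑ i, yy i x ^ 2 := rfl
    have ep : pp x = ∑ i, ff i x * yy i x := rfl
    rw [es, ep]
    simp only [Fin.sum_univ_succ, Fin.sum_univ_zero]
    ring
  rw [hsum]
  have e := ss_rr hx
  simp only [al]
  linear_combination (- (3 / 4 * rr x ^ 3 + 21 / 4 * (zz x ^ 2 + qq x) * rr x ^ 7
      + 14 * gg x * zz x * rr x ^ 7 + 77 / 4 * gg x ^ 2 * rr x ^ 11 + 8 * η * rr x ^ 8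
      + 2 * zz x ^ 2 * rr x ^ 3)) * e

theorem pp_sq_le (x : Sp J) : pp x ^ 2 ≤ qq x * ss x :=
  Finset.sum_mul_sq_le_sq_mul_sq _ _ _

theorem lap_nonneg {η : ℝ} (hη : 0 ≤ η) {x : Sp J} (hx : 0 < ss x) (hz : |zz x| ≤ 200) :
    0 ≤ ∑ k, fderiv ℝ (fun y => G.grad (ww η) y k) x (G.field (G.X k) x) := by
  rw [lap_w η hx]
  have hr := rr_pos hx
  have e := ss_rr hx
  set r := rr x
  set z := zz x
  set g := gg x
  set q := qq x
  set p := pp x
  set s := ss x
  have hp : p ^ 2 ≤ q * s := pp_sq_le x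
  have hq : 0 ≤ q := Finset.sum_nonneg fun i _ => sq_nonneg _
  have hz2 : z ^ 2 ≤ 40000 := by
    have := pow_le_pow_left₀ (abs_nonneg z) hz 2
    rw [sq_abs] at this
    linarith
  -- P = p r^2
  have hP : (p * r ^ 2) ^ 2 ≤ q := by
    have h1 : (p * r ^ 2) ^ 2 = p ^ 2 * r ^ 4 := by ring
    have h2 : p ^ 2 * r ^ 4 ≤ q * s * r ^ 4 := mul_le_mul_of_nonneg_right hp (by positivity)
    have h3 : q * s * r ^ 4 = q := by rw [mul_assoc, e, mul_one]
    linarith
  have a1 : 6 * z * p * r ^ 7 ≤ 15 / 8 * q * r ^ 7 + 24 / 5 * z ^ 2 * r ^ 3 := by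
    have h1 : 0 ≤ r ^ 3 * (15 / 8 * (p * r ^ 4 - 8 / 5 * z) ^ 2) := by positivity
    have h2 : 15 / 8 * (p * r ^ 2) ^ 2 * r ^ 7 ≤ 15 / 8 * q * r ^ 7 := by
      apply mul_le_mul_of_nonneg_right _ (by positivity)
      linarith
    nlinarith
  have a2 : 2 * g * z * r ^ 7 ≤ 7 / 4 * g ^ 2 * r ^ 11 + 4 / 7 * z ^ 2 * r ^ 3 := by
    have h1 : 0 ≤ r ^ 3 * (7 / 4 * (g * r ^ 4 - 4 / 7 * z) ^ 2) := by positivity
    nlinarith
  have a3 : 20 * z ^ 2 * r ^ 3 ≤ 15 / 4 * z ^ 2 * r ^ 7 + 12000000 := by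
    rcases le_or_gt r 2 with h | h
    · have h3 : r ^ 3 ≤ 8 := by
        have := pow_le_pow_left₀ hr.le h 3
        linarith
      have h4 : z ^ 2 * r ^ 3 ≤ 40000 * 8 :=
        mul_le_mul hz2 h3 (by positivity) (by norm_num)
      have h5 : 0 ≤ 15 / 4 * z ^ 2 * r ^ 7 := by positivity
      linarith
    · have h4 : 16 ≤ r ^ 4 := by
        have := pow_le_pow_left₀ (by norm_num) h.le 4
        linarith
      have h5 : z ^ 2 * r ^ 3 * 16 ≤ z ^ 2 * r ^ 3 * r ^ 4 :=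
        mul_le_mul_of_nonneg_left h4 (by positivity)
      have h6 : 0 ≤ z ^ 2 * r ^ 3 := by positivity
      nlinarith
  have a4 : 0 ≤ 1 / 4 * r ^ 3 := by positivity
  have a5 : 0 ≤ 4 * η * r ^ 8 := by positivity
  have a6 : 0 ≤ q * r ^ 7 := by positivity
  have a7 : 0 ≤ z ^ 2 * r ^ 3 := by positivity
  nlinarith

end Pool.Agent.Helper392.H1
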