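import Mathlib

set_option autoImplicit false

open MeasureTheory Filter Topology
open scoped ContDiff

namespace Pool.Agent.Helper392.H1S

/-- A Lie group structure on the Euclidean space `E` written in exponential coordinates: a smooth
group law with neutral element `0` for which every line `t ↦ t v` is a one parameter subgroup,
that is, the exponential map from the Lie algebra `E` to the group `E` is the identity. -/
structure ExpGroup (E : Type) [NormedAddCommGroup E] [InnerProductSpace ℝ E] where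
  mul : E → E → E
  smooth : ContDiff ℝ ∞ (fun p : E × E => mul p.1 p.2)
  assoc : ∀ x y z, mul (mul x y) z = mul x (mul y z)
  zero_mul : ∀ x, mul 0 x = x
  mul_zero : ∀ x, mul x 0 = x
  line : ∀ (v : E) (s t : ℝ), mul (s • v) (t • v) = (s + t) • v

variable {E : Type} [NormedAddCommGroup E] [InnerProductSpace ℝ E]

/-- The left invariant vector field with value `v` at the neutral element, evaluated at `x`. -/
noncomputable def ExpGroup.field (G : ExpGroup E) (v x : E) : E :=
  fderiv ℝ (fun y => G.mul x y) 0 v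

/-- The Lie bracket: the value at `0` of the commutator of the left invariant fields given by
`v` and `w`. -/
noncomputable def ExpGroup.br (G : ExpGroup E) (v w : E) : E :=
  fderiv ℝ (G.field w) 0 v - fderiv ℝ (G.field v) 0 w

/-- A Carnot group in exponential coordinates: the Lie algebra is the direct sum of the layers
`V 1, ..., V step`, `[V 1, V j] = V (j + 1)` for `1 ≤ j < step`, `[V 1, V step] = 0`, and
`X 0, ..., X (m - 1)` is a basis of `V 1`. -/
structure Carnot (E : Type) [NormedAddCommGroup E] [InnerProductSpace ℝ E] (m : ℕ)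
    extends ExpGroup E where
  step : ℕ
  V : ℕ → Submodule ℝ E
  decomp : ∀ x : E, ∃! y : Fin step → E,
    (∀ j : Fin step, y j ∈ V ((j : ℕ) + 1)) ∧ ∑ j, y j = x
  gen : ∀ j, 1 ≤ j → j < step →
    V (j + 1) = Submodule.span ℝ {c | ∃ a ∈ V 1, ∃ b ∈ V j, c = toExpGroup.br a b}
  top : ∀ a ∈ V 1, ∀ b ∈ V step, toExpGroup.br a b = 0
  X : Fin m → E
  X_indep : LinearIndependent ℝ X
  X_span : Submodule.span ℝ (Set.range X) = V 1

variable {m : ℕ}

/-- The derivative `X_i ψ` at `x` along the left invariant field `X_i`. -/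
noncomputable def Carnot.D (G : Carnot E m) (i : Fin m) (ψ : E → ℝ) (x : E) : ℝ :=
  fderiv ℝ ψ x (G.field (G.X i) x)

/-- `ψ ∈ C_c^∞(Ω)`. -/
def IsTest (Ω : Set E) (ψ : E → ℝ) : Prop :=
  ContDiff ℝ ∞ ψ ∧ HasCompactSupport ψ ∧ tsupport ψ ⊆ Ω

variable [FiniteDimensional ℝ E] [MeasurableSpace E] [BorelSpace E]

/-- `u ∈ HW^{1,2}(Ω)` with weak horizontal gradient `(X_i u)_i = (U i)_i`. -/
structure HW (G : Carnot E m) (Ω : Set E) (u : E → ℝ) (U : Fin m → E → ℝ) : Prop where
  mem : MemLp u 2 (volume.restrict Ω)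
  memD : ∀ i, MemLp (U i) 2 (volume.restrict Ω)
  weak : ∀ i ψ, IsTest Ω ψ → ∫ x in Ω, u x * G.D i ψ x = - ∫ x in Ω, U i x * ψ x

/-- `u ∈ HW^{1,2}_0(Ω)`, the closure of `C_c^∞(Ω)` in `HW^{1,2}(Ω)`, with weak horizontal
gradient `(U i)_i`. -/
structure HW0 (G : Carnot E m) (Ω : Set E) (u : E → ℝ) (U : Fin m → E → ℝ) : Prop
    extends HW G Ω u U where
  approx : ∃ ψ : ℕ → E → ℝ, (∀ k, IsTest Ω (ψ k)) ∧
    Tendsto (fun k => eLpNorm (fun x => u x - ψ k x) 2 (volume.restrict Ω)) atTop (𝓝 0) ∧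
    ∀ i, Tendsto (fun k => eLpNorm (fun x => U i x - G.D i (ψ k) x) 2 (volume.restrict Ω))
      atTop (𝓝 0)

/-- `u` (with weak horizontal gradient `(U i)_i`) is the weak solution in `HW^{1,2}(Ω)` of
`∑ X_i (X_i u) = 0`, whose difference with `φ` lies in `HW^{1,2}_0(Ω)`. -/
structure IsSol (G : Carnot E m) (Ω : Set E) (φ u : E → ℝ) (U : Fin m → E → ℝ) : Prop where
  hw : HW G Ω u U
  bdry : HW0 G Ω (fun x => u x - φ x) (fun i x => U i x - G.D i φ x)
  eqn : ∀ ψ, IsTest Ω ψ → ∫ x in Ω, ∑ i, U i x * G.D i ψ x = 0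

end Pool.Agent.Helper392.H1S
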