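import Pool.Agent.Helper392.H1.Main
import Pool.Agent.Helper392.H1.Stmt

set_option autoImplicit false
set_option linter.unusedSimpArgs false
set_option linter.unusedSectionVars false

open MeasureTheory Filter Topology
open scoped ContDiff RealInnerProductSpace

namespace Pool.Agent.Helper392.H1B

open Pool.Agent.Helper392

/-- the group law as in the statement -/
noncomputable def N0 : H1S.ExpGroup (H1.Sp H1.J) where
  mul := H1.mul
  smooth := H1.mul_smooth
  assoc := H1.mul_assoc'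
  zero_mul := H1.G0.zero_mul
  mul_zero := H1.G0.mul_zero
  line := H1.G0.line

theorem N0_br (v w : H1.Sp H1.J) : N0.br v w = H1.G0.br v w := rfl

/-- reindexing of the first layer -/
def e : Fin 7 ≃ H1.K :=
  ((Equiv.sumCongr (Equiv.refl (Fin 6)) (Equiv.ofUnique Unit (Fin 1))).trans
    (finSumFinEquiv (m := 6) (n := 1))).symm

noncomputable def N : H1S.Carnot (H1.Sp H1.J) 7 where
  toExpGroup := N0
  step := 3
  V := H1.lay
  decomp := H1.G.decomp
  gen := H1.G.gen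
  top := H1.G.top
  X := fun i => H1.ex (e i)
  X_indep := H1.G.X_indep.comp e e.injective
  X_span := by
    have h : Set.range (fun i => H1.ex (e i)) = Set.range H1.ex := by
      ext y
      constructor
      · rintro ⟨i, rfl⟩; exact ⟨_, rfl⟩
      · rintro ⟨k, rfl⟩; exact ⟨e.symm k, by simp⟩
    rw [h]
    exact H1.G.X_span

theorem D_eq (i : Fin 7) (ψ : H1.Sp H1.J → ℝ) (x : H1.Sp H1.J) :
    N.D i ψ x = H1.G.grad ψ x (e i) := rfl

variable {Ω : Set (H1.Sp H1.J)} {μ : Measure (H1.Sp H1.J)}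

theorem decomp_vec (F : H1.Sp H1.J → H1.Sp H1.K) :
    F = ∑ k : H1.K, fun x => F x k • (EuclideanSpace.single k (1 : ℝ) : H1.Sp H1.K) := by
  funext x
  ext j
  rw [Finset.sum_apply]
  simp only [WithLp.ofLp_sum, Finset.sum_apply, PiLp.smul_apply, smul_eq_mul]
  rw [Finset.sum_eq_single j]
  · simp
  · intro b _ hb
    simp [hb.symm]
  · simp

theorem memLp_vec {F : H1.Sp H1.J → H1.Sp H1.K} (h : ∀ k, MemLp (fun x => F x k) 2 μ) :
    MemLp F 2 μ := by
  rw [decomp_vec F]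
  apply memLp_finsetSum'
  intro k _
  refine MemLp.of_le (h k) ((h k).aestronglyMeasurable.smul_const _) ?_
  refine Eventually.of_forall fun x => ?_
  rw [norm_smul]
  simp

theorem memLp_comp {F : H1.Sp H1.J → H1.Sp H1.K} (h : MemLp F 2 μ) (k : H1.K) :
    MemLp (fun x => F x k) 2 μ := by
  refine MemLp.of_le h ?_ ?_
  · exact ((EuclideanSpace.proj k : H1.Sp H1.K →L[ℝ] ℝ).continuous).comp_aestronglyMeasurable
      h.aestronglyMeasurable
  · exact Eventually.of_forall fun x => PiLp.norm_apply_le _ _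

theorem tendsto_comp {F : ℕ → H1.Sp H1.J → H1.Sp H1.K}
    (h : Tendsto (fun n => eLpNorm (F n) 2 μ) atTop (𝓝 0)) (k : H1.K) :
    Tendsto (fun n => eLpNorm (fun x => F n x k) 2 μ) atTop (𝓝 0) := by
  apply tendsto_of_tendsto_of_tendsto_of_le_of_le tendsto_const_nhds h
  · intro n; exact bot_le
  · intro n
    apply eLpNorm_mono
    intro x
    exact PiLp.norm_apply_le _ _

theorem tendsto_vec {F : ℕ → H1.Sp H1.J → H1.Sp H1.K}
    (hm : ∀ n k, AEStronglyMeasurable (fun x => F n x k) μ)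
    (h : ∀ k, Tendsto (fun n => eLpNorm (fun x => F n x k) 2 μ) atTop (𝓝 0)) :
    Tendsto (fun n => eLpNorm (F n) 2 μ) atTop (𝓝 0) := by
  have h1 : Tendsto (fun n => ∑ k : H1.K, eLpNorm (fun x => F n x k) 2 μ) atTop (𝓝 0) := by
    have := tendsto_finsetSum (Finset.univ : Finset H1.K) (fun k _ => h k)
    simpa using this
  apply tendsto_of_tendsto_of_tendsto_of_le_of_le tendsto_const_nhds h1
  · intro n; exact bot_le
  · intro n
    simp only
    conv_lhs => rw [decomp_vec (F n)]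
    refine (eLpNorm_sum_le (fun k _ => ?_) (by norm_num)).trans ?_
    · exact (hm n k).smul_const _
    · apply Finset.sum_le_sum
      intro k _
      apply eLpNorm_mono
      intro x
      rw [norm_smul]
      simp

theorem isTest_iff (ψ : H1.Sp H1.J → ℝ) : H1S.IsTest Ω ψ ↔ H1.IsTest Ω ψ := Iff.rfl

theorem inner_sum (a b : H1.Sp H1.K) : ⟪a, b⟫ = ∑ i : Fin 7, a (e i) * b (e i) := by
  rw [PiLp.inner_apply]
  rw [← Equiv.sum_comp e]
  apply Finset.sum_congr rfl
  intro i _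
  simp [RCLike.inner_apply, mul_comm]

theorem toNew {φ u : H1.Sp H1.J → ℝ} {U : H1.Sp H1.J → H1.Sp H1.K}
    (h : H1.IsSol H1.G 2 (fun ξ => ‖ξ‖ ^ 2 / 2) Ω φ u U) :
    H1S.IsSol N Ω φ u (fun i x => U x (e i)) := by
  refine ⟨⟨h.hw.mem, fun i => memLp_comp h.hw.memD (e i), fun i ψ hψ => h.hw.weak (e i) ψ hψ⟩,
    ⟨⟨h.bdry.mem, fun i => memLp_comp h.bdry.memD (e i),
      fun i ψ hψ => h.bdry.weak (e i) ψ hψ⟩, ?_⟩, ?_⟩
  · obtain ⟨ψ, h1, h2, h3⟩ := h.bdry.approx
    exact ⟨ψ, h1, h2, fun i => tendsto_comp h3 (e i)⟩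
  · intro ψ hψ
    have := h.eqn ψ hψ
    simp only [H1.fderiv_half_sq, inner_sum] at this
    exact this

theorem toOld {φ u : H1.Sp H1.J → ℝ} {U : Fin 7 → H1.Sp H1.J → ℝ}
    (h : H1S.IsSol N Ω φ u U) :
    H1.IsSol H1.G 2 (fun ξ => ‖ξ‖ ^ 2 / 2) Ω φ u
      (fun x => WithLp.toLp 2 (fun k => U (e.symm k) x)) := by
  have c1 : ∀ k, (e (e.symm k)) = k := fun k => e.apply_symm_apply k
  have w1 : ∀ k ψ, H1.IsTest Ω ψ → ∫ x in Ω, u x * H1.G.grad ψ x k =
      - ∫ x in Ω, U (e.symm k) x * ψ x := by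
    intro k ψ hψ
    have := h.hw.weak (e.symm k) ψ hψ
    simp only [D_eq, c1] at this
    exact this
  have w2 : ∀ k ψ, H1.IsTest Ω ψ → ∫ x in Ω, (u x - φ x) * H1.G.grad ψ x k =
      - ∫ x in Ω, (U (e.symm k) x - H1.G.grad φ x k) * ψ x := by
    intro k ψ hψ
    have := h.bdry.weak (e.symm k) ψ hψ
    simp only [D_eq, c1] at this
    exact this
  have m2 : ∀ k, MemLp (fun x => U (e.symm k) x - H1.G.grad φ x k) 2 (volume.restrict Ω) := by
    intro k
    have := h.bdry.memD (e.symm k)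
    simp only [D_eq, c1] at this
    exact this
  refine ⟨⟨h.hw.mem, memLp_vec fun k => h.hw.memD (e.symm k), w1⟩,
    ⟨⟨h.bdry.mem, memLp_vec m2, w2⟩, ?_⟩, ?_⟩
  · obtain ⟨ψ, h1, h2, h3⟩ := h.bdry.approx
    refine ⟨ψ, h1, h2, ?_⟩
    apply tendsto_vec
    · intro n k
      exact (m2 k).aestronglyMeasurable.sub
        (H1.grad_comp_smooth H1.G_nice (h1 n).1 k).continuous.aestronglyMeasurable
    · intro k
      have := h3 (e.symm k)
      simp only [D_eq, c1] at this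
      exact this
  · intro ψ hψ
    have := h.eqn ψ hψ
    simp only [H1.fderiv_half_sq, inner_sum, Equiv.symm_apply_apply]
    exact this

theorem main :
    ∃ (G : H1S.Carnot (EuclideanSpace ℝ (Fin 14)) 7) (c : EuclideanSpace ℝ (Fin 14)) (r : ℝ)
      (φ : EuclideanSpace ℝ (Fin 14) →L[ℝ] ℝ), G.step = 3 ∧ 0 < r ∧
      (∃ u U, H1S.IsSol G (Metric.ball c r) φ u U) ∧
      ∀ u U, H1S.IsSol G (Metric.ball c r) φ u U →
        ∀ M : ℝ, ¬ ∀ᵐ x ∂(volume.restrict (Metric.ball c r)), ∀ i, |U i x| ≤ M := by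
  obtain ⟨u, U, h⟩ := H1.exists_sol H1.G_nice H1.Om_bdd H1.zz_smooth (Sum.inr ()) H1.grad_zz
    (C := 200) (by norm_num) (fun x hx => (H1.cl_bounds (subset_closure hx)).2.2.2) H1.phi_smooth
  refine ⟨N, H1.cc, 200, EuclideanSpace.proj H1.ig, rfl, by norm_num, ⟨u, _, toNew h⟩, ?_⟩
  intro u U h M hM
  apply H1.unbounded (toOld h)
  refine ⟨√(7 * M ^ 2), ?_⟩
  change ∀ᵐ x ∂(volume.restrict H1.Om), _ at hM
  filter_upwards [hM] with x hx
  apply Real.le_sqrt_of_sq_le
  rw [EuclideanSpace.norm_sq_eq, ← Equiv.sum_comp e]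
  simp only [Equiv.symm_apply_apply, Real.norm_eq_abs, sq_abs]
  calc ∑ i, U i x ^ 2 ≤ ∑ _i : Fin 7, M ^ 2 := by
        apply Finset.sum_le_sum
        intro i _
        rw [← sq_abs]
        exact pow_le_pow_left₀ (abs_nonneg _) (hx i) 2
    _ = 7 * M ^ 2 := by simp

end Pool.Agent.Helper392.H1B
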