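import Pool.Agent.Helper392.H1.Exist

set_option autoImplicit false
set_option linter.unusedSimpArgs false
set_option linter.unusedSectionVars false

open MeasureTheory Filter Topology
open scoped ContDiff RealInnerProductSpace

namespace Pool.Agent.Helper392.H1

/-! ### the cut-off function -/

noncomputable def th' (x : ℝ) : ℝ := (x⁻¹) ^ 2 * expNegInvGlue x

theorem hasDerivAt_eng (x : ℝ) : HasDerivAt expNegInvGlue (th' x) x := by
  have := expNegInvGlue.hasDerivAt_polynomial_eval_inv_mul (1 : Polynomial ℝ) x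
  simpa [th'] using this

theorem th'_nonneg (x : ℝ) : 0 ≤ th' x :=
  mul_nonneg (sq_nonneg _) (expNegInvGlue.nonneg x)

theorem th'_le (x : ℝ) : th' x ≤ 2 := by
  unfold th'
  rcases le_or_gt x 0 with h | h
  · rw [expNegInvGlue.zero_of_nonpos h]; norm_num
  · have h1 : expNegInvGlue x = Real.exp (-x⁻¹) := by simp [expNegInvGlue, h.not_ge]
    rw [h1, Real.exp_neg, ← div_eq_mul_inv, div_le_iff₀ (Real.exp_pos _)]
    have h2 := Real.quadratic_le_exp_of_nonneg (inv_pos.mpr h).le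
    have h3 := (inv_pos.mpr h)
    nlinarith

theorem eng_lip (a b : ℝ) : |expNegInvGlue a - expNegInvGlue b| ≤ 2 * |a - b| := by
  have := Convex.norm_image_sub_le_of_norm_hasDerivWithin_le (f := expNegInvGlue) (f' := th')
    (s := Set.univ) (C := 2) (x := b) (y := a)
    (fun x _ => (hasDerivAt_eng x).hasDerivWithinAt)
    (fun x _ => by rw [Real.norm_eq_abs, abs_of_nonneg (th'_nonneg x)]; exact th'_le x)
    convex_univ (Set.mem_univ _) (Set.mem_univ _)
  simpa [Real.norm_eq_abs] using this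

theorem eng_le_one (x : ℝ) : expNegInvGlue x ≤ 1 := by
  rcases le_or_gt x 0 with h | h
  · rw [expNegInvGlue.zero_of_nonpos h]; norm_num
  · have h1 : expNegInvGlue x = Real.exp (-x⁻¹) := by simp [expNegInvGlue, h.not_ge]
    rw [h1, Real.exp_le_one_iff]
    have := inv_pos.mpr h
    linarith

variable {ι κ : Type} [Fintype ι] [Fintype κ] {G : Carnot ι κ} {Ω O : Set (Sp ι)}

/-- a function that vanishes off a compact subset of an open set on which it is smooth -/
theorem contDiff_of_compact {S : Set (Sp ι)} (hO : IsOpen O) (hS : IsCompact S) (hSO : S ⊆ O)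
    {F : Sp ι → ℝ} (h1 : ContDiffOn ℝ ∞ F O) (h2 : ∀ x, x ∉ S → F x = 0) :
    ContDiff ℝ ∞ F ∧ HasCompactSupport F ∧ tsupport F ⊆ S := by
  have h3 : tsupport F ⊆ S := by
    apply closure_minimal _ hS.isClosed
    intro x hx
    by_contra hxS
    exact hx (h2 x hxS)
  refine ⟨?_, HasCompactSupport.of_support_subset_isCompact hS
    (subset_closure.trans h3), h3⟩
  rw [contDiff_iff_contDiffAt]
  intro x
  by_cases hx : x ∈ O
  · exact h1.contDiffAt (hO.mem_nhds hx)
  · have hx' : x ∉ S := fun h => hx (hSO h)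
    have : F =ᶠ[𝓝 x] fun _ => 0 := by
      filter_upwards [hS.isClosed.isOpen_compl.mem_nhds hx'] with y hy
      exact h2 y hy
    exact contDiffAt_const.congr_of_eventuallyEq this

/-- the basic energy estimate -/
theorem energy (hG : Nice G) (hΩ : IsOpen Ω) {φ u : Sp ι → ℝ} {U : Sp ι → Sp κ}
    (hφ : ContDiff ℝ ∞ φ) (hsol : IsSol G 2 (fun ξ => ‖ξ‖ ^ 2 / 2) Ω φ u U)
    (hO : IsOpen O) {w : Sp ι → ℝ} (hw : ContDiffOn ℝ ∞ w O)
    (hsub : ∀ x ∈ Ω ∩ O, 0 ≤ ∑ k, fderiv ℝ (fun y => G.grad w y k) x (G.field (G.X k) x))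
    {A δ : ℝ} {ψ : Sp ι → ℝ} (hψ : IsTest Ω ψ)
    {S : Set (Sp ι)} (hS : IsCompact S) (hSO : S ⊆ Ω ∩ O)
    (hlev : ∀ x ∈ Ω ∩ O, δ ≤ w x - A * (φ x + ψ x) → x ∈ S) :
    ∃ ζ : Sp ι → ℝ, IsTest Ω ζ ∧
      (∀ x ∈ Ω ∩ O, ζ x = expNegInvGlue (w x - A * (φ x + ψ x) - δ)) ∧
      1 / 4 * ∫ x in Ω, ‖G.grad ζ x‖ ^ 2 ≤
        A ^ 2 * ∫ x in Ω, ‖(U x - G.grad φ x) - G.grad ψ x‖ ^ 2 := by
  classical
  set Q : Set (Sp ι) := Ω ∩ O with hQ
  have hQo : IsOpen Q := hΩ.inter hO
  set g : Sp ι → ℝ := fun x => w x - A * (φ x + ψ x) with hg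
  have hwQ : ContDiffOn ℝ ∞ w Q := hw.mono Set.inter_subset_right
  have hgQ : ContDiffOn ℝ ∞ g Q :=
    hwQ.sub (contDiffOn_const.mul ((hφ.add hψ.1).contDiffOn))
  set ζ : Sp ι → ℝ := fun x => if x ∈ Q then expNegInvGlue (g x - δ) else 0 with hζ
  have hζQ : ∀ x ∈ Q, ζ x = expNegInvGlue (g x - δ) := fun x hx => by rw [hζ]; simp [hx]
  have hζS : ∀ x, x ∉ S → ζ x = 0 := by
    intro x hx
    by_cases hxQ : x ∈ Q
    · rw [hζQ x hxQ]
      apply expNegInvGlue.zero_of_nonpos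
      by_contra hcon
      exact hx (hlev x hxQ (by rw [hg] at hcon; simp only at hcon; linarith))
    · rw [hζ]; simp [hxQ]
  have hζsm : ContDiffOn ℝ ∞ ζ Q := by
    have h1 : ContDiffOn ℝ ∞ (fun x => expNegInvGlue (g x - δ)) Q :=
      (expNegInvGlue.contDiff (n := ⊤)).comp_contDiffOn (hgQ.sub contDiffOn_const)
    exact h1.congr hζQ
  obtain ⟨z1, z2, z3⟩ := contDiff_of_compact hQo hS hSO hζsm hζS
  have hζt : IsTest Ω ζ := ⟨z1, z2, z3.trans (hSO.trans Set.inter_subset_left)⟩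
  refine ⟨ζ, hζt, hζQ, ?_⟩
  -- gradients on Q
  have hdφ : Differentiable ℝ φ := hφ.differentiable (by simp)
  have hdw : ∀ x ∈ Q, DifferentiableAt ℝ w x := fun x hx =>
    (hwQ.contDiffAt (hQo.mem_nhds hx)).differentiableAt (by simp)
  have hgradζ : ∀ x ∈ Q, G.grad ζ x = th' (g x - δ) •
      (G.grad w x - A • (G.grad φ x + G.grad ψ x)) := by
    intro x hx
    have e1 : ζ =ᶠ[𝓝 x] fun y => expNegInvGlue (g y - δ) := by
      filter_upwards [hQo.mem_nhds hx] with y hy
      exact hζQ y hy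
    have h3 : HasFDerivAt g (fderiv ℝ w x - A • (fderiv ℝ φ x + fderiv ℝ ψ x)) x := by
      have a1 := (hdw x hx).hasFDerivAt
      have a2 := (((hdφ x).hasFDerivAt.add (hψ.diff x).hasFDerivAt).const_smul A)
      exact a1.sub a2
    have h4 : HasFDerivAt (fun y => g y - δ)
        (fderiv ℝ w x - A • (fderiv ℝ φ x + fderiv ℝ ψ x)) x := h3.sub_const δ
    have h5 := (hasDerivAt_eng (g x - δ)).comp_hasFDerivAt x h4
    have h6 : HasFDerivAt ζ (th' (g x - δ) •
      (fderiv ℝ w x - A • (fderiv ℝ φ x + fderiv ℝ ψ x))) x := h5.congr_of_eventuallyEq e1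
    ext k
    rw [grad_apply, h6.fderiv]
    simp only [PiLp.smul_apply, PiLp.sub_apply, PiLp.add_apply, grad_apply,
      FunLike.coe_smul, FunLike.coe_sub, FunLike.coe_add, Pi.smul_apply, Pi.sub_apply,
      Pi.add_apply, smul_eq_mul, ContinuousLinearMap.coe_smul, ContinuousLinearMap.coe_sub,
      ContinuousLinearMap.coe_add]
  have hgradζ0 : ∀ x, x ∉ S → G.grad ζ x = 0 := by
    intro x hx
    ext k
    rw [grad_apply]
    have : fderiv ℝ ζ x = 0 := by
      apply image_eq_zero_of_notMem_tsupport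
      exact fun hx' => hx (z3 (tsupport_fderiv_subset ℝ hx'))
    rw [this]; rfl
  -- the equation
  have heq := hsol.eqn ζ hζt
  simp only [fderiv_half_sq] at heq
  -- subsolution inequality
  have hwk : ∀ k, ContDiffOn ℝ ∞ (fun y => G.grad w y k) Q := by
    intro k
    simp only [grad_apply]
    exact (hwQ.fderiv_of_isOpen hQo (m := ∞) (by simp)).clm_apply (hG.sm k).contDiffOn
  have hFk : ∀ k, ContDiff ℝ ∞ (fun x => ζ x * G.grad w x k) ∧
      HasCompactSupport (fun x => ζ x * G.grad w x k) := by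
    intro k
    have := contDiff_of_compact hQo hS hSO (F := fun x => ζ x * G.grad w x k)
      (z1.contDiffOn.mul (hwk k)) (fun x hx => by rw [hζS x hx, zero_mul])
    exact ⟨this.1, this.2.1⟩
  have hder : ∀ k x, fderiv ℝ (fun x => ζ x * G.grad w x k) x (G.field (G.X k) x) =
      if x ∈ Q then G.grad w x k * G.grad ζ x k +
        ζ x * fderiv ℝ (fun y => G.grad w y k) x (G.field (G.X k) x) else 0 := by
    intro k x
    by_cases hx : x ∈ Q
    · rw [if_pos hx]
      have d1 : DifferentiableAt ℝ (fun y => G.grad w y k) x :=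
        ((hwk k).contDiffAt (hQo.mem_nhds hx)).differentiableAt (by simp)
      rw [fderiv_fun_mul (hζt.diff x) d1]
      simp [grad_apply]
      ring
    · rw [if_neg hx]
      have hxS : x ∉ S := fun h => hx (hSO h)
      have : (fun x => ζ x * G.grad w x k) =ᶠ[𝓝 x] fun _ => 0 := by
        filter_upwards [hS.isClosed.isOpen_compl.mem_nhds hxS] with y hy
        rw [hζS y hy, zero_mul]
      rw [this.fderiv_eq]
      simp
  have hint0 : ∀ k, ∫ x, (if x ∈ Q then G.grad w x k * G.grad ζ x k +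
        ζ x * fderiv ℝ (fun y => G.grad w y k) x (G.field (G.X k) x) else 0) = 0 := by
    intro k
    have := hG.ibp k _ ((hFk k).1.of_le (by simp)) (hFk k).2
    simp only [hder] at this
    exact this
  have hintk : ∀ k, Integrable (fun x => if x ∈ Q then G.grad w x k * G.grad ζ x k +
        ζ x * fderiv ℝ (fun y => G.grad w y k) x (G.field (G.X k) x) else 0) := by
    intro k
    have h1 : Integrable (fun x => fderiv ℝ (fun x => ζ x * G.grad w x k) x
        (G.field (G.X k) x)) := by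
      have c1 : Continuous (fun x => fderiv ℝ (fun x => ζ x * G.grad w x k) x
        (G.field (G.X k) x)) :=
        ((hFk k).1.continuous_fderiv (by simp)).clm_apply (hG.sm k).continuous
      refine c1.integrable_of_hasCompactSupport ?_
      refine ((hFk k).2.fderiv ℝ).mono ?_
      intro x hx
      rw [Function.mem_support] at hx ⊢
      intro h0
      apply hx
      rw [h0]
      rfl
    simp only [hder] at h1
    exact h1
  -- the function <grad w, grad ζ> extended by zero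
  have hcw : ContDiff ℝ ∞ (fun x => ∑ k, (if x ∈ Q then G.grad w x k else 0) * G.grad ζ x k) := by
    apply ContDiff.sum
    intro k _
    have := contDiff_of_compact hQo hS hSO
      (F := fun x => (if x ∈ Q then G.grad w x k else 0) * G.grad ζ x k)
      (((hwk k).congr (fun x hx => by simp [hx])).mul (grad_comp_smooth hG z1 k).contDiffOn)
      (fun x hx => by rw [hgradζ0 x hx]; simp)
    exact this.1
  have hcws : HasCompactSupport
      (fun x => ∑ k, (if x ∈ Q then G.grad w x k else 0) * G.grad ζ x k) := by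
    refine HasCompactSupport.of_support_subset_isCompact hS ?_
    intro x hx
    by_contra hxS
    apply hx
    simp [hgradζ0 x hxS]
  have hIw : Integrable (fun x => ∑ k, (if x ∈ Q then G.grad w x k else 0) * G.grad ζ x k) :=
    hcw.continuous.integrable_of_hasCompactSupport hcws
  have hsubint : ∫ x, ∑ k, (if x ∈ Q then G.grad w x k else 0) * G.grad ζ x k ≤ 0 := by
    have h1 : ∫ x, ∑ k, (if x ∈ Q then G.grad w x k * G.grad ζ x k +
        ζ x * fderiv ℝ (fun y => G.grad w y k) x (G.field (G.X k) x) else 0) = 0 := by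
      rw [integral_finsetSum _ (fun k _ => hintk k)]
      exact Finset.sum_eq_zero fun k _ => hint0 k
    rw [← h1]
    apply integral_mono hIw (integrable_finsetSum _ (fun k _ => hintk k))
    intro x
    simp only
    by_cases hx : x ∈ Q
    · simp only [if_pos hx]
      rw [Finset.sum_add_distrib, ← Finset.mul_sum]
      have a1 := hsub x hx
      have a2 : 0 ≤ ζ x := by rw [hζQ x hx]; exact expNegInvGlue.nonneg _
      have := mul_nonneg a2 a1
      linarith
    · simp only [if_neg hx]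
      simp
  have hsubint' : ∫ x in Ω, ∑ k, (if x ∈ Q then G.grad w x k else 0) * G.grad ζ x k ≤ 0 := by
    rw [setIntegral_test]
    · exact hsubint
    · intro x hx
      rw [hζt.grad_eq_zero hx]; simp
  -- pointwise inequality
  have hpt : ∀ x, 1 / 4 * ‖G.grad ζ x‖ ^ 2 ≤
      (∑ k, (if x ∈ Q then G.grad w x k else 0) * G.grad ζ x k) - A * ⟪U x, G.grad ζ x⟫ +
      A ^ 2 * ‖(U x - G.grad φ x) - G.grad ψ x‖ ^ 2 := by
    intro x
    by_cases hx : x ∈ Q
    · simp only [if_pos hx]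
      have e1 : ∑ k, G.grad w x k * G.grad ζ x k = ⟪G.grad w x, G.grad ζ x⟫ := by
        rw [PiLp.inner_apply]
        apply Finset.sum_congr rfl
        intro k _
        simp [RCLike.inner_apply, mul_comm]
      rw [e1]
      set θ := th' (g x - δ) with hθ
      set a : Sp κ := G.grad w x - A • (G.grad φ x + G.grad ψ x) with ha
      set E : Sp κ := (U x - G.grad φ x) - G.grad ψ x with hE
      have e2 : G.grad ζ x = θ • a := hgradζ x hx
      have e3 : G.grad w x - A • U x = a - A • E := by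
        rw [ha, hE]; module
      have e4 : ⟪G.grad w x, G.grad ζ x⟫ - A * ⟪U x, G.grad ζ x⟫ =
          θ * ‖a‖ ^ 2 - A * θ * ⟪E, a⟫ := by
        rw [← real_inner_smul_left (U x) (G.grad ζ x) A, ← inner_sub_left, e3, e2,
          inner_smul_right, inner_sub_left, real_inner_smul_left, real_inner_self_eq_norm_sq]
        ring
      rw [e4, e2, norm_smul, Real.norm_eq_abs, mul_pow, sq_abs]
      have b1 : 0 ≤ θ := th'_nonneg _
      have b2 : θ ≤ 2 := th'_le _
      have b3 := real_inner_le_norm E a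
      have b4 : -⟪E, a⟫ ≤ ‖E‖ * ‖a‖ := by
        have := real_inner_le_norm (-E) a
        rwa [inner_neg_left, norm_neg] at this
      have b5 : A * ⟪E, a⟫ ≤ |A| * (‖E‖ * ‖a‖) := by
        calc A * ⟪E, a⟫ ≤ |A * ⟪E, a⟫| := le_abs_self _
          _ = |A| * |⟪E, a⟫| := abs_mul _ _
          _ ≤ |A| * (‖E‖ * ‖a‖) := mul_le_mul_of_nonneg_left (abs_real_inner_le_norm E a)
            (abs_nonneg _)
      have b6 : |A| * (‖E‖ * ‖a‖) ≤ 1 / 2 * ‖a‖ ^ 2 + 1 / 2 * A ^ 2 * ‖E‖ ^ 2 := by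
        have := sq_nonneg (‖a‖ - |A| * ‖E‖)
        have h7 := sq_abs A
        nlinarith
      have b7 : θ * (A * ⟪E, a⟫) ≤ θ * (1 / 2 * ‖a‖ ^ 2 + 1 / 2 * A ^ 2 * ‖E‖ ^ 2) :=
        mul_le_mul_of_nonneg_left (b5.trans b6) b1
      have b8 : θ * (1 / 2 * A ^ 2 * ‖E‖ ^ 2) ≤ A ^ 2 * ‖E‖ ^ 2 := by
        have : 0 ≤ A ^ 2 * ‖E‖ ^ 2 := by positivity
        nlinarith
      have b9 : θ ^ 2 * ‖a‖ ^ 2 ≤ 2 * (θ * ‖a‖ ^ 2) := by
        have : 0 ≤ θ * ‖a‖ ^ 2 := by positivity
        nlinarith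
      nlinarith
    · have hxS : x ∉ S := fun h => hx (hSO h)
      rw [hgradζ0 x hxS]
      simp
      positivity
  have mE : MemLp (fun x => (U x - G.grad φ x) - G.grad ψ x) 2 (volume.restrict Ω) :=
    hsol.bdry.memD.sub (hψ.memLp_grad hG 2 _)
  have mζ := hζt.memLp_grad hG 2 (volume.restrict Ω)
  have I1 : Integrable (fun x => 1 / 4 * ‖G.grad ζ x‖ ^ 2) (volume.restrict Ω) :=
    (mζ.norm.integrable_sq).const_mul _
  have I2 : Integrable (fun x => A ^ 2 * ‖(U x - G.grad φ x) - G.grad ψ x‖ ^ 2)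
    (volume.restrict Ω) := (mE.norm.integrable_sq).const_mul _
  have I3 : Integrable (fun x => A * ⟪U x, G.grad ζ x⟫) (volume.restrict Ω) :=
    (integrable_inner' hsol.hw.memD mζ).const_mul _
  have I4 : Integrable (fun x => ∑ k, (if x ∈ Q then G.grad w x k else 0) * G.grad ζ x k)
    (volume.restrict Ω) := hIw.integrableOn
  have hfin := integral_mono I1 ((I4.sub I3).add I2) hpt
  rw [integral_const_mul] at hfin
  have hsplit : ∫ x in Ω, (((fun x => ∑ k, (if x ∈ Q then G.grad w x k else 0) * G.grad ζ x k) -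
      fun x => A * ⟪U x, G.grad ζ x⟫) + fun x => A ^ 2 * ‖(U x - G.grad φ x) - G.grad ψ x‖ ^ 2) x
      = (∫ x in Ω, ∑ k, (if x ∈ Q then G.grad w x k else 0) * G.grad ζ x k)
        - A * (∫ x in Ω, ⟪U x, G.grad ζ x⟫)
        + A ^ 2 * ∫ x in Ω, ‖(U x - G.grad φ x) - G.grad ψ x‖ ^ 2 := by
    rw [integral_add' (I4.sub I3) I2, integral_sub' I4 I3, integral_const_mul, integral_const_mul]
  rw [hsplit, heq] at hfin
  linarith

/-- Comparison with a smooth subsolution. -/
theorem comparison (hG : Nice G) (hΩ : IsOpen Ω)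
    {τ : Sp ι → ℝ} (hτ : ContDiff ℝ ∞ τ) (k : κ) (hτ1 : ∀ x, G.grad τ x k = 1) {C : ℝ}
    (hC : ∀ x ∈ Ω, |τ x| ≤ C) {φ u : Sp ι → ℝ} {U : Sp ι → Sp κ}
    (hφ : ContDiff ℝ ∞ φ) (hsol : IsSol G 2 (fun ξ => ‖ξ‖ ^ 2 / 2) Ω φ u U)
    (hO : IsOpen O) {w : Sp ι → ℝ} (hw : ContDiffOn ℝ ∞ w O)
    (hsub : ∀ x ∈ Ω ∩ O, 0 ≤ ∑ k, fderiv ℝ (fun y => G.grad w y k) x (G.field (G.X k) x))
    {A : ℝ} (hcomp : ∀ ψ : Sp ι → ℝ, IsTest Ω ψ → ∀ δ > 0, ∃ S, IsCompact S ∧ S ⊆ Ω ∩ O ∧
      ∀ x ∈ Ω ∩ O, δ ≤ w x - A * (φ x + ψ x) → x ∈ S) :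
    ∀ᵐ x ∂(volume.restrict Ω), x ∈ O → w x ≤ A * u x := by
  obtain ⟨ψ, hψ, lim1, lim2⟩ := hsol.bdry.approx
  set μ' : Measure (Sp ι) := volume.restrict (Ω ∩ O) with hμ'
  have hle : μ' ≤ volume.restrict Ω := Measure.restrict_mono Set.inter_subset_left le_rfl
  have hQm : MeasurableSet (Ω ∩ O) := (hΩ.inter hO).measurableSet
  have hum : AEStronglyMeasurable u (volume.restrict Ω) := hsol.hw.mem.aestronglyMeasurable
  have hum' : AEMeasurable u μ' := (hum.mono_measure hle).aemeasurable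
  have hwm : AEMeasurable w μ' :=
    (hw.continuousOn.mono Set.inter_subset_right).aemeasurable hQm
  have key : ∀ δ > 0, ∀ᵐ x ∂μ', w x - A * u x - δ ≤ 0 := by
    intro δ hδ
    have h1 : ∀ n, ∃ ζ : Sp ι → ℝ, IsTest Ω ζ ∧
      (∀ x ∈ Ω ∩ O, ζ x = expNegInvGlue (w x - A * (φ x + ψ n x) - δ)) ∧
      1 / 4 * ∫ x in Ω, ‖G.grad ζ x‖ ^ 2 ≤
        A ^ 2 * ∫ x in Ω, ‖(U x - G.grad φ x) - G.grad (ψ n) x‖ ^ 2 := by
      intro n
      obtain ⟨S, s1, s2, s3⟩ := hcomp (ψ n) (hψ n) δ hδ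
      exact energy hG hΩ hφ hsol hO hw hsub (hψ n) s1 s2 s3
    choose ζ z1 z2 z3 using h1
    have l2 : Tendsto (fun n => ∫ x in Ω, ‖(U x - G.grad φ x) - G.grad (ψ n) x‖ ^ 2) atTop
        (𝓝 0) := tendsto_sq_of (fun n => (hψ n).memLp_grad hG 2 _) hsol.bdry.memD lim2
    have l1 : Tendsto (fun n => ∫ x in Ω, ‖(u x - φ x) - ψ n x‖ ^ 2) atTop (𝓝 0) :=
      tendsto_sq_of (fun n => (hψ n).memLp 2 _) hsol.bdry.mem lim1
    have hz : ∀ n, ∫ x in Ω, ζ n x ^ 2 ≤
        16 * C ^ 2 * A ^ 2 * ∫ x in Ω, ‖(U x - G.grad φ x) - G.grad (ψ n) x‖ ^ 2 := by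
      intro n
      have p1 := poincare hG (z1 n) hτ k hτ1 hC
      have p2 : ∫ x in Ω, (G.grad (ζ n) x k) ^ 2 ≤ ∫ x in Ω, ‖G.grad (ζ n) x‖ ^ 2 := by
        apply integral_mono_of_nonneg
        · exact Eventually.of_forall fun x => sq_nonneg _
        · exact ((z1 n).memLp_grad hG 2 (volume.restrict Ω)).norm.integrable_sq
        · exact Eventually.of_forall fun x => grad_sq_le (ζ n) x k
      have p3 := z3 n
      have p4 : 0 ≤ 4 * C ^ 2 := by positivity
      nlinarith [mul_le_mul_of_nonneg_left p2 p4, mul_le_mul_of_nonneg_left p3 p4]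
    have l3 : Tendsto (fun n => 2 * (16 * C ^ 2 * A ^ 2 *
        ∫ x in Ω, ‖(U x - G.grad φ x) - G.grad (ψ n) x‖ ^ 2) +
        8 * A ^ 2 * ∫ x in Ω, ‖(u x - φ x) - ψ n x‖ ^ 2) atTop (𝓝 0) := by
      have := ((l2.const_mul (16 * C ^ 2 * A ^ 2)).const_mul 2).add (l1.const_mul (8 * A ^ 2))
      simpa using this
    set F : Sp ι → ℝ := fun x => expNegInvGlue (w x - A * u x - δ) with hF
    have hFm : AEMeasurable F μ' := by
      have c : Continuous expNegInvGlue := (expNegInvGlue.contDiff (n := 0)).continuous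
      exact c.measurable.comp_aemeasurable ((hwm.sub (hum'.const_mul A)).sub_const δ)
    have hpt : ∀ n, ∀ x ∈ Ω ∩ O, F x ^ 2 ≤ 2 * ζ n x ^ 2 +
        8 * A ^ 2 * ‖(u x - φ x) - ψ n x‖ ^ 2 := by
      intro n x hx
      have e1 := eng_lip (w x - A * u x - δ) (w x - A * (φ x + ψ n x) - δ)
      rw [← z2 n x hx] at e1
      have e2 : w x - A * u x - δ - (w x - A * (φ x + ψ n x) - δ) =
        -(A * ((u x - φ x) - ψ n x)) := by ring
      rw [e2, abs_neg, abs_mul] at e1
      rw [Real.norm_eq_abs]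
      have e3 : |F x - ζ n x| ^ 2 ≤ (2 * (|A| * |u x - φ x - ψ n x|)) ^ 2 :=
        pow_le_pow_left₀ (abs_nonneg _) e1 2
      rw [sq_abs, mul_pow, mul_pow, sq_abs A] at e3
      nlinarith [sq_nonneg (F x - 2 * ζ n x)]
    have hlint : ∫⁻ x, ENNReal.ofReal (F x ^ 2) ∂μ' = 0 := by
      have hb : ∀ n, ∫⁻ x, ENNReal.ofReal (F x ^ 2) ∂μ' ≤
          ENNReal.ofReal (2 * (16 * C ^ 2 * A ^ 2 *
          ∫ x in Ω, ‖(U x - G.grad φ x) - G.grad (ψ n) x‖ ^ 2) +
          8 * A ^ 2 * ∫ x in Ω, ‖(u x - φ x) - ψ n x‖ ^ 2) := by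
        intro n
        have i1 : Integrable (fun x => ζ n x ^ 2) (volume.restrict Ω) :=
          ((z1 n).memLp 2 _).integrable_sq
        have i2 : Integrable (fun x => ‖(u x - φ x) - ψ n x‖ ^ 2) (volume.restrict Ω) :=
          (hsol.bdry.mem.sub ((hψ n).memLp 2 _)).norm.integrable_sq
        calc ∫⁻ x, ENNReal.ofReal (F x ^ 2) ∂μ'
            ≤ ∫⁻ x, ENNReal.ofReal (2 * ζ n x ^ 2 + 8 * A ^ 2 * ‖(u x - φ x) - ψ n x‖ ^ 2) ∂μ' := by
              apply lintegral_mono_ae
              rw [hμ', ae_restrict_iff' hQm]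
              exact Eventually.of_forall fun x hx => ENNReal.ofReal_le_ofReal (hpt n x hx)
          _ ≤ ∫⁻ x in Ω, ENNReal.ofReal (2 * ζ n x ^ 2 +
              8 * A ^ 2 * ‖(u x - φ x) - ψ n x‖ ^ 2) := lintegral_mono' hle le_rfl
          _ = ENNReal.ofReal (∫ x in Ω, (2 * ζ n x ^ 2 +
              8 * A ^ 2 * ‖(u x - φ x) - ψ n x‖ ^ 2)) := by
              rw [ofReal_integral_eq_lintegral_ofReal]
              · exact (i1.const_mul 2).add (i2.const_mul _)
              · exact Eventually.of_forall fun x => by positivity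
          _ ≤ _ := by
              apply ENNReal.ofReal_le_ofReal
              rw [integral_add (i1.const_mul 2) (i2.const_mul _), integral_const_mul,
                integral_const_mul]
              have := hz n
              linarith
      have l4 := (ENNReal.continuous_ofReal.tendsto 0).comp l3
      rw [ENNReal.ofReal_zero] at l4
      exact le_antisymm (ge_of_tendsto' l4 hb) bot_le
    rw [lintegral_eq_zero_iff' (hFm.pow_const 2).ennreal_ofReal] at hlint
    filter_upwards [hlint] with x hx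
    have h5 : F x ^ 2 ≤ 0 := by simpa using hx
    have h6 : F x = 0 := by nlinarith [sq_nonneg (F x)]
    exact expNegInvGlue.zero_iff_nonpos.mp h6
  have key2 : ∀ᵐ x ∂μ', ∀ n : ℕ, w x - A * u x - 1 / ((n : ℝ) + 1) ≤ 0 := by
    rw [ae_all_iff]
    intro n
    exact key _ (by positivity)
  rw [hμ', ae_restrict_iff' hQm] at key2
  rw [ae_restrict_iff' hΩ.measurableSet]
  filter_upwards [key2] with x hx h1 h2
  have h3 := hx ⟨h1, h2⟩
  have h4 : Tendsto (fun n : ℕ => 1 / ((n : ℝ) + 1)) atTop (𝓝 0) :=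
    tendsto_one_div_add_atTop_nhds_zero_nat
  have h5 : w x - A * u x ≤ 0 := by
    apply ge_of_tendsto' h4
    intro n
    have := h3 n
    linarith
  linarith

end Pool.Agent.Helper392.H1
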