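import Mathlib

set_option autoImplicit false

open MeasureTheory Filter Topology
open scoped ContDiff

namespace Pool.Agent.Helper392.H1

/-- `R^ι` with its Euclidean structure and Lebesgue measure. -/
abbrev Sp (ι : Type) [Fintype ι] := EuclideanSpace ℝ ι

/-- A connected simply connected nilpotent Lie group identified with `R^ι` through exponential
coordinates: a smooth group law on `R^ι` with neutral element `0` for which every line
`t ↦ t v` is a one parameter subgroup (so that the exponential map is the identity). -/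
structure ExpGroup (ι : Type) [Fintype ι] where
  mul : Sp ι → Sp ι → Sp ι
  smooth : ContDiff ℝ ∞ (fun p : Sp ι × Sp ι => mul p.1 p.2)
  assoc : ∀ x y z, mul (mul x y) z = mul x (mul y z)
  zero_mul : ∀ x, mul 0 x = x
  mul_zero : ∀ x, mul x 0 = x
  line : ∀ (v : Sp ι) (s t : ℝ), mul (s • v) (t • v) = (s + t) • v

/-- The left invariant vector field with value `v` at the neutral element, evaluated at `x`. -/
noncomputable def ExpGroup.field {ι : Type} [Fintype ι] (G : ExpGroup ι) (v x : Sp ι) : Sp ι :=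
  fderiv ℝ (fun y => G.mul x y) 0 v

/-- The Lie bracket of the Lie algebra: the value at `0` of the commutator of the left invariant
fields given by `v` and `w`. -/
noncomputable def ExpGroup.br {ι : Type} [Fintype ι] (G : ExpGroup ι) (v w : Sp ι) : Sp ι :=
  fderiv ℝ (G.field w) 0 v - fderiv ℝ (G.field v) 0 w

/-- A Carnot group in exponential coordinates: the Lie algebra is the direct sum of
`V 1, ..., V step`, `[V 1, V j] = V (j + 1)` for `1 ≤ j < step`, `[V 1, V step] = 0`, and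
`X` is a basis of `V 1`. -/
structure Carnot (ι κ : Type) [Fintype ι] [Fintype κ] extends ExpGroup ι where
  step : ℕ
  V : ℕ → Submodule ℝ (Sp ι)
  decomp : ∀ x : Sp ι, ∃! y : Fin step → Sp ι, 
    (∀ j : Fin step, y j ∈ V ((j : ℕ) + 1)) ∧ ∑ j, y j = x
  gen : ∀ j, 1 ≤ j → j < step →
    V (j + 1) = Submodule.span ℝ {c | ∃ a ∈ V 1, ∃ b ∈ V j, c = toExpGroup.br a b}
  top : ∀ a ∈ V 1, ∀ b ∈ V step, toExpGroup.br a b = 0
  X : κ → Sp ι
  X_indep : LinearIndependent ℝ X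
  X_span : Submodule.span ℝ (Set.range X) = V 1

variable {ι κ : Type} [Fintype ι] [Fintype κ]

/-- The horizontal gradient `(X_i ψ)_i` of a function at `x`. -/
noncomputable def Carnot.grad (G : Carnot ι κ) (ψ : Sp ι → ℝ) (x : Sp ι) : Sp κ :=
  WithLp.toLp 2 (fun i => fderiv ℝ ψ x (G.field (G.X i) x))

/-- `ψ ∈ C_c^∞(Ω)`. -/
def IsTest (Ω : Set (Sp ι)) (ψ : Sp ι → ℝ) : Prop :=
  ContDiff ℝ ∞ ψ ∧ HasCompactSupport ψ ∧ tsupport ψ ⊆ Ω

/-- `u ∈ HW^{1,p}(Ω)` with weak horizontal gradient `U`. -/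
structure HW (G : Carnot ι κ) (p : ENNReal) (Ω : Set (Sp ι)) (u : Sp ι → ℝ) (U : Sp ι → Sp κ) :
    Prop where
  mem : MemLp u p (volume.restrict Ω)
  memD : MemLp U p (volume.restrict Ω)
  weak : ∀ i ψ, IsTest Ω ψ → ∫ x in Ω, u x * G.grad ψ x i = - ∫ x in Ω, U x i * ψ x

/-- `u ∈ HW^{1,p}_0(Ω)`, the closure of `C_c^∞(Ω)` in `HW^{1,p}(Ω)`, with weak horizontal
gradient `U`. -/
structure HW0 (G : Carnot ι κ) (p : ENNReal) (Ω : Set (Sp ι)) (u : Sp ι → ℝ) (U : Sp ι → Sp κ) :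
    Prop extends HW G p Ω u U where
  approx : ∃ ψ : ℕ → Sp ι → ℝ, (∀ k, IsTest Ω (ψ k)) ∧
    Tendsto (fun k => eLpNorm (fun x => u x - ψ k x) p (volume.restrict Ω)) atTop (𝓝 0) ∧
    Tendsto (fun k => eLpNorm (fun x => U x - G.grad (ψ k) x) p (volume.restrict Ω)) atTop (𝓝 0)

/-- The structure conditions on `f`, with `A = ∇ f`, for the exponent `p`. -/
structure Ell (p δ lam Lam : ℝ) (f : Sp κ → ℝ) : Prop where
  hδ : 0 ≤ δ
  hlam : 0 < lam
  hLam : lam ≤ Lam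
  smooth : ContDiff ℝ 2 f
  lower : ∀ ξ η, lam * (δ + ‖ξ‖ ^ 2) ^ ((p - 2) / 2) * ‖η‖ ^ 2 ≤ fderiv ℝ (fderiv ℝ f) ξ η η
  upper : ∀ ξ η, fderiv ℝ (fderiv ℝ f) ξ η η ≤ Lam * (δ + ‖ξ‖ ^ 2) ^ ((p - 2) / 2) * ‖η‖ ^ 2
  growth : ∀ ξ, ‖fderiv ℝ f ξ‖ ≤ Lam * (δ + ‖ξ‖ ^ 2) ^ ((p - 1) / 2)

/-- `u` (with weak horizontal gradient `U`) is the weak solution in `HW^{1,p}(Ω)` of
`∑ X_i (A_i (∇₀ u)) = 0`, `A = ∇ f`, whose difference with `φ` lies in `HW^{1,p}_0(Ω)`. -/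
structure IsSol (G : Carnot ι κ) (p : ENNReal) (f : Sp κ → ℝ) (Ω : Set (Sp ι)) (φ u : Sp ι → ℝ)
    (U : Sp ι → Sp κ) : Prop where
  hw : HW G p Ω u U
  bdry : HW0 G p Ω (fun x => u x - φ x) (fun x => U x - G.grad φ x)
  eqn : ∀ ψ, IsTest Ω ψ → ∫ x in Ω, fderiv ℝ f (U x) (G.grad ψ x) = 0

end Pool.Agent.Helper392.H1
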