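import Pool.Agent.Helper392.H1.Sob

set_option autoImplicit false
set_option linter.unusedSimpArgs false
set_option linter.unusedSectionVars false

open MeasureTheory Filter Topology
open scoped ContDiff RealInnerProductSpace

namespace Pool.Agent.Helper392.H1

variable {ι κ : Type} [Fintype ι] [Fintype κ] {G : Carnot ι κ} {Ω : Set (Sp ι)}

theorem grad_sq_le (ψ : Sp ι → ℝ) (x : Sp ι) (k : κ) : (G.grad ψ x k) ^ 2 ≤ ‖G.grad ψ x‖ ^ 2 := by
  rw [EuclideanSpace.norm_sq_eq]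
  have : (G.grad ψ x k) ^ 2 = ‖G.grad ψ x k‖ ^ 2 := by rw [Real.norm_eq_abs, sq_abs]
  rw [this]
  exact Finset.single_le_sum (f := fun i => ‖G.grad ψ x i‖ ^ 2) (fun i _ => sq_nonneg _)
    (Finset.mem_univ k)

/-- Poincare inequality for norms in L2 -/
theorem poincare_norm (hG : Nice G) {ψ : Sp ι → ℝ} (h : IsTest Ω ψ) {τ : Sp ι → ℝ}
    (hτ : ContDiff ℝ ∞ τ) (k : κ) (hτ1 : ∀ x, G.grad τ x k = 1) {C : ℝ} (hC0 : 0 ≤ C)
    (hC : ∀ x ∈ Ω, |τ x| ≤ C) :
    ‖(h.memLp 2 (volume.restrict Ω)).toLp ψ‖ ≤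
      2 * C * ‖(h.memLp_grad hG 2 (volume.restrict Ω)).toLp (G.grad ψ)‖ := by
  have h1 := poincare hG h hτ k hτ1 hC
  have h2 : ∫ x in Ω, (G.grad ψ x k) ^ 2 ≤ ∫ x in Ω, ‖G.grad ψ x‖ ^ 2 := by
    apply integral_mono_of_nonneg
    · exact Eventually.of_forall fun x => sq_nonneg _
    · exact (h.memLp_grad hG 2 (volume.restrict Ω)).norm.integrable_sq
    · exact Eventually.of_forall fun x => grad_sq_le ψ x k
  have h3 : ‖(h.memLp 2 (volume.restrict Ω)).toLp ψ‖ ^ 2 ≤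
      (2 * C * ‖(h.memLp_grad hG 2 (volume.restrict Ω)).toLp (G.grad ψ)‖) ^ 2 := by
    rw [mul_pow, norm_sq_toLp, norm_sq_toLp]
    simp only [Real.norm_eq_abs, sq_abs]
    calc ∫ x in Ω, ψ x ^ 2 ≤ 4 * C ^ 2 * ∫ x in Ω, (G.grad ψ x k) ^ 2 := h1
      _ ≤ 4 * C ^ 2 * ∫ x in Ω, ‖G.grad ψ x‖ ^ 2 := by
        apply mul_le_mul_of_nonneg_left h2 (by positivity)
      _ = _ := by ring
  exact le_of_sq_le_sq h3 (by positivity)

/-- gradients of test functions, as a subspace of L2 -/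
noncomputable def gradSub (G : Carnot ι κ) (Ω : Set (Sp ι)) :
    Submodule ℝ (Lp (Sp κ) 2 (volume.restrict Ω)) where
  carrier := {w | ∃ ψ, IsTest Ω ψ ∧ w =ᵐ[volume.restrict Ω] G.grad ψ}
  add_mem' := by
    rintro a b ⟨ψ, h1, h2⟩ ⟨χ, h3, h4⟩
    refine ⟨ψ + χ, h1.add h3, ?_⟩
    filter_upwards [h2, h4, Lp.coeFn_add a b] with x e1 e2 e3
    rw [e3, grad_add (h1.diff x) (h3.diff x), Pi.add_apply, e1, e2]
  zero_mem' := by
    refine ⟨0, IsTest.zero, ?_⟩
    filter_upwards [Lp.coeFn_zero (E := Sp κ) (p := 2) (μ := volume.restrict Ω)] with x e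
    rw [e]
    ext k
    rw [grad_apply]
    simp
  smul_mem' := by
    rintro c a ⟨ψ, h1, h2⟩
    refine ⟨c • ψ, h1.smul c, ?_⟩
    filter_upwards [h2, Lp.coeFn_smul c a] with x e1 e2
    rw [e2, grad_smul c (h1.diff x), Pi.smul_apply, e1]

theorem fderiv_half_sq (a b : Sp κ) : fderiv ℝ (fun ξ : Sp κ => ‖ξ‖ ^ 2 / 2) a b = ⟪a, b⟫ := by
  have h := ((hasStrictFDerivAt_norm_sq a).hasFDerivAt).const_smul (2 : ℝ)⁻¹
  have h2 : (fun ξ : Sp κ => ‖ξ‖ ^ 2 / 2) = ((2 : ℝ)⁻¹ • fun ξ : Sp κ => ‖ξ‖ ^ 2) := by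
    ext ξ
    simp only [Pi.smul_apply, smul_eq_mul]
    ring
  rw [h2, h.fderiv]
  simp

theorem tendsto_mul_of {μ : Measure (Sp ι)} {f : ℕ → Sp ι → ℝ} {g h : Sp ι → ℝ}
    (hf : ∀ n, MemLp (f n) 2 μ) (hg : MemLp g 2 μ) (hh : MemLp h 2 μ)
    (hlim : Tendsto (fun n => eLpNorm (fun x => g x - f n x) 2 μ) atTop (𝓝 0)) :
    Tendsto (fun n => ∫ x, f n x * h x ∂μ) atTop (𝓝 (∫ x, g x * h x ∂μ)) := by
  have := tendsto_inner_of hf hg hh hlim
  simpa [RCLike.inner_apply] using this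

theorem tendsto_comp_of {μ : Measure (Sp ι)} {f : ℕ → Sp ι → Sp κ} {g : Sp ι → Sp κ}
    {h : Sp ι → ℝ} (i : κ) (hf : ∀ n, MemLp (f n) 2 μ) (hg : MemLp g 2 μ) (hh : MemLp h 2 μ)
    (hlim : Tendsto (fun n => eLpNorm (fun x => g x - f n x) 2 μ) atTop (𝓝 0)) :
    Tendsto (fun n => ∫ x, f n x i * h x ∂μ) atTop (𝓝 (∫ x, g x i * h x ∂μ)) := by
  classical
  have mh : MemLp (fun x => h x • (EuclideanSpace.single i (1 : ℝ) : Sp κ)) 2 μ := by
    have := hh.norm
    refine MemLp.of_le (g := h) hh (hh.aestronglyMeasurable.smul_const _) ?_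
    refine Eventually.of_forall fun x => ?_
    rw [norm_smul]
    simp
  have l2 := tendsto_inner_of hf hg mh hlim
  have inn : ∀ (x : Sp ι) (y : Sp κ),
      ⟪h x • (EuclideanSpace.single i (1 : ℝ) : Sp κ), y⟫ = y i * h x := by
    intro x y
    rw [inner_smul_left, EuclideanSpace.inner_single_left]
    simp [mul_comm]
  simp only [inn] at l2
  exact l2

theorem exists_sol (hG : Nice G) (hb : Bornology.IsBounded Ω)
    {τ : Sp ι → ℝ} (hτ : ContDiff ℝ ∞ τ) (k : κ) (hτ1 : ∀ x, G.grad τ x k = 1) {C : ℝ}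
    (hC0 : 0 ≤ C) (hC : ∀ x ∈ Ω, |τ x| ≤ C) {φ : Sp ι → ℝ} (hφ : ContDiff ℝ ∞ φ) :
    ∃ u U, IsSol G 2 (fun ξ => ‖ξ‖ ^ 2 / 2) Ω φ u U := by
  set μ : Measure (Sp ι) := volume.restrict Ω with hμ
  have hfin : volume Ω < ⊤ := hb.measure_lt_top
  have : IsFiniteMeasure μ := ⟨by rw [hμ, Measure.restrict_apply_univ]; exact hfin⟩
  have hcpt : IsCompact (closure Ω) := hb.isCompact_closure
  have bdd : ∀ {E : Type} [NormedAddCommGroup E] (f : Sp ι → E), Continuous f →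
      MemLp f 2 μ := by
    intro E _ f hf
    obtain ⟨M, hM⟩ := hcpt.exists_bound_of_continuousOn hf.continuousOn
    have hae : ∀ᵐ x ∂μ, x ∈ closure Ω := by
      rw [hμ]
      have : ∀ᵐ x ∂(volume.restrict (closure Ω) : Measure (Sp ι)), x ∈ closure Ω :=
        ae_restrict_mem isClosed_closure.measurableSet
      exact ae_mono (Measure.restrict_mono subset_closure le_rfl) this
    have hsm : AEStronglyMeasurable f μ := hf.aestronglyMeasurable
    exact MemLp.of_bound hsm M (hae.mono fun x hx => hM x hx)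
  have mφ : MemLp φ 2 μ := bdd φ hφ.continuous
  have mgφ : MemLp (G.grad φ) 2 μ := bdd _ (grad_continuous hG hφ)
  set K := (gradSub G Ω).topologicalClosure with hK
  have : CompleteSpace K := (Submodule.isClosed_topologicalClosure _).completeSpace_coe
  set b : Lp (Sp κ) 2 μ := mgφ.toLp (G.grad φ) with hbdef
  set kk : Lp (Sp κ) 2 μ := - K.starProjection b with hkk
  have hkmem : kk ∈ K := K.neg_mem (Submodule.starProjection_apply_mem K b)
  have horth : ∀ w ∈ K, ⟪b + kk, w⟫ = 0 := by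
    intro w hw
    have := Submodule.starProjection_inner_eq_zero (K := K) b w hw
    rwa [hkk, ← sub_eq_add_neg]
  -- approximating sequence
  have hkcl : kk ∈ closure (gradSub G Ω : Set (Lp (Sp κ) 2 μ)) := hkmem
  obtain ⟨w, hw1, hw2⟩ := mem_closure_iff_seq_limit.mp hkcl
  choose ψ hψ1 hψ2 using hw1
  have hwψ : ∀ n, (hψ1 n |>.memLp_grad hG 2 μ).toLp (G.grad (ψ n)) = w n := by
    intro n
    apply Lp.ext
    exact ((hψ1 n).memLp_grad hG 2 μ).coeFn_toLp.trans (hψ2 n).symm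
  set vv : ℕ → Lp ℝ 2 μ := fun n => ((hψ1 n).memLp 2 μ).toLp (ψ n) with hvv
  have hcau : CauchySeq vv := by
    have hwc : CauchySeq w := hw2.cauchySeq
    rw [Metric.cauchySeq_iff'] at hwc ⊢
    intro ε hε
    obtain ⟨N, hN⟩ := hwc (ε / (2 * C + 1)) (by positivity)
    refine ⟨N, fun n hn => ?_⟩
    have h1 := hN n hn
    rw [dist_eq_norm] at h1 ⊢
    have e1 : vv n - vv N = (((hψ1 n).sub (hψ1 N)).memLp 2 μ).toLp (ψ n - ψ N) :=
      (MemLp.toLp_sub ((hψ1 n).memLp 2 μ) ((hψ1 N).memLp 2 μ)).symm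
    have e2 : w n - w N = (((hψ1 n).sub (hψ1 N)).memLp_grad hG 2 μ).toLp
        (G.grad (ψ n - ψ N)) := by
      rw [← hwψ n, ← hwψ N, ← MemLp.toLp_sub]
      apply MemLp.toLp_congr
      refine Eventually.of_forall fun x => ?_
      rw [grad_sub ((hψ1 n).diff x) ((hψ1 N).diff x)]
      rfl
    have h2 := poincare_norm hG ((hψ1 n).sub (hψ1 N)) hτ k hτ1 hC0 hC
    rw [e1]
    rw [e2] at h1
    calc _ ≤ _ := h2
      _ ≤ 2 * C * (ε / (2 * C + 1)) := mul_le_mul_of_nonneg_left h1.le (by positivity)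
      _ < (2 * C + 1) * (ε / (2 * C + 1)) := by
        apply mul_lt_mul_of_pos_right (by linarith) (by positivity)
      _ = ε := by field_simp
  obtain ⟨v, hv⟩ := cauchySeq_tendsto_of_complete hcau
  -- convergence of the functions
  have lim1 : Tendsto (fun n => eLpNorm (fun x => v x - ψ n x) 2 μ) atTop (𝓝 0) := by
    have h1 : vv = fun n => ((hψ1 n).memLp 2 μ).toLp (ψ n) := rfl
    have h2 : Tendsto (fun n => ((hψ1 n).memLp 2 μ).toLp (ψ n)) atTop
        (𝓝 ((Lp.memLp v).toLp v)) := by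
      rw [Lp.toLp_coeFn]; exact hv
    rw [Lp.tendsto_Lp_iff_tendsto_eLpNorm''] at h2
    refine h2.congr fun n => ?_
    exact eLpNorm_sub_comm _ _ 2 μ
  have lim2 : Tendsto (fun n => eLpNorm (fun x => kk x - G.grad (ψ n) x) 2 μ) atTop (𝓝 0) := by
    have h2 : Tendsto (fun n => ((hψ1 n).memLp_grad hG 2 μ).toLp (G.grad (ψ n))) atTop
        (𝓝 ((Lp.memLp kk).toLp kk)) := by
      rw [Lp.toLp_coeFn]
      simp only [hwψ]
      exact hw2
    rw [Lp.tendsto_Lp_iff_tendsto_eLpNorm''] at h2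
    refine h2.congr fun n => ?_
    exact eLpNorm_sub_comm _ _ 2 μ
  -- weak derivative of v
  have weakv : ∀ i χ, IsTest Ω χ →
      ∫ x in Ω, v x * G.grad χ x i = - ∫ x in Ω, kk x i * χ x := by
    intro i χ hχ
    have mχi : MemLp (fun x => G.grad χ x i) 2 μ := by
      refine (grad_comp_smooth hG hχ.1 i).continuous.memLp_of_hasCompactSupport ?_
      refine (hχ.grad_hasCompactSupport (G := G)).mono ?_
      intro x hx
      rw [Function.mem_support] at hx ⊢
      intro h0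
      apply hx
      rw [h0]
      rfl
    have l2 := tendsto_comp_of i (fun n => (hψ1 n).memLp_grad hG 2 μ) (Lp.memLp kk)
      (hχ.memLp 2 μ) lim2
    have l1' := tendsto_mul_of (fun n => (hψ1 n).memLp 2 μ) (Lp.memLp v) mχi lim1
    have e : ∀ n, ∫ x, ψ n x * G.grad χ x i ∂μ = - ∫ x, G.grad (ψ n) x i * χ x ∂μ := fun n =>
      ibp_mul hG (hψ1 n) hχ.1 i
    simp only [e] at l1'
    exact tendsto_nhds_unique l1' l2.neg
  have hwv : HW G 2 Ω v kk := ⟨Lp.memLp v, Lp.memLp kk, weakv⟩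
  have hwφ : HW G 2 Ω φ (G.grad φ) := by
    refine ⟨mφ, mgφ, ?_⟩
    intro i χ hχ
    have := ibp_mul hG hχ hφ i
    have e1 : ∫ x in Ω, χ x * G.grad φ x i = ∫ x in Ω, G.grad φ x i * χ x := by
      congr 1; ext x; ring
    have e2 : ∫ x in Ω, G.grad χ x i * φ x = ∫ x in Ω, φ x * G.grad χ x i := by
      congr 1; ext x; ring
    rw [e1, e2] at this
    linarith
  refine ⟨fun x => φ x + v x, fun x => G.grad φ x + kk x, ?_, ?_, ?_⟩
  · refine ⟨mφ.add (Lp.memLp v), mgφ.add (Lp.memLp kk), ?_⟩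
    intro i χ hχ
    have mχi : MemLp (fun x => G.grad χ x i) 2 μ := by
      refine (grad_comp_smooth hG hχ.1 i).continuous.memLp_of_hasCompactSupport ?_
      refine (hχ.grad_hasCompactSupport (G := G)).mono ?_
      intro x hx
      rw [Function.mem_support] at hx ⊢
      intro h0
      apply hx
      rw [h0]
      rfl
    have mχ : MemLp χ 2 μ := hχ.memLp 2 μ
    have i1 : Integrable (fun x => φ x * G.grad χ x i) μ := mφ.integrable_mul mχi
    have i2 : Integrable (fun x => v x * G.grad χ x i) μ := (Lp.memLp v).integrable_mul mχi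
    have m3 : MemLp (fun x => G.grad φ x i) 2 μ := bdd _ (grad_comp_smooth hG hφ i).continuous
    have m4 : MemLp (fun x => kk x i) 2 μ := by
      refine MemLp.of_le (Lp.memLp kk) ?_ ?_
      · exact ((EuclideanSpace.proj i : Sp κ →L[ℝ] ℝ).continuous).comp_aestronglyMeasurable
          (Lp.aestronglyMeasurable kk)
      · exact Eventually.of_forall fun x => PiLp.norm_apply_le _ i
    have i3 : Integrable (fun x => G.grad φ x i * χ x) μ := m3.integrable_mul mχ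
    have i4 : Integrable (fun x => kk x i * χ x) μ := m4.integrable_mul mχ
    simp only [add_mul, PiLp.add_apply]
    rw [integral_add i1 i2, integral_add i3 i4]
    have a1 := hwφ.weak i χ hχ
    have a2 := hwv.weak i χ hχ
    rw [a1, a2]
    ring
  · have e1 : (fun x => φ x + v x - φ x) = (v : Sp ι → ℝ) := by ext x; ring
    have e2 : (fun x => G.grad φ x + kk x - G.grad φ x) = (kk : Sp ι → Sp κ) := by
      funext x; abel
    rw [e1, e2]
    exact ⟨hwv, ψ, hψ1, lim1, lim2⟩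
  · intro χ hχ
    simp only [fderiv_half_sq]
    set q : Lp (Sp κ) 2 μ := (hχ.memLp_grad hG 2 μ).toLp (G.grad χ) with hq
    have hqK : q ∈ K := by
      apply Submodule.le_topologicalClosure
      exact ⟨χ, hχ, (hχ.memLp_grad hG 2 μ).coeFn_toLp⟩
    have h1 := horth q hqK
    rw [L2.inner_def] at h1
    rw [← h1]
    apply integral_congr_ae
    filter_upwards [Lp.coeFn_add b kk, mgφ.coeFn_toLp, (hχ.memLp_grad hG 2 μ).coeFn_toLp]
      with x e1 e2 e3
    rw [e1, Pi.add_apply, e2, e3]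

end Pool.Agent.Helper392.H1
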