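import Pool.Agent.Helper392.H1.Barrier

set_option autoImplicit false
set_option linter.unusedSimpArgs false
set_option linter.unusedSectionVars false

open MeasureTheory Filter Topology
open scoped ContDiff RealInnerProductSpace

namespace Pool.Agent.Helper392.H1

/-- centre of the ball -/
noncomputable def cc : Sp J := mk 0 36 0 200
/-- the ball -/
noncomputable def Om : Set (Sp J) := Metric.ball cc 200
noncomputable def ee (x : Sp J) : ℝ := ∑ i, x (iF i) ^ 2

theorem norm_sub_cc (x : Sp J) :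
    ‖x - cc‖ ^ 2 = ss x + zz x ^ 2 + ee x + (x ig - 200) ^ 2 := by
  rw [EuclideanSpace.norm_sq_eq]
  simp only [Real.norm_eq_abs, sq_abs]
  rw [sum_J]
  simp only [PiLp.sub_apply, cc, mk_v, mk_z, mk_f, mk_g, Pi.zero_apply, sub_zero]
  rfl

theorem mem_Om {x : Sp J} : x ∈ Om ↔ ss x + zz x ^ 2 + ee x + x ig ^ 2 < 400 * x ig := by
  unfold Om
  rw [Metric.mem_ball, dist_eq_norm]
  have h := norm_sub_cc x
  constructor
  · intro h1
    have h2 := pow_lt_pow_left₀ h1 (norm_nonneg _) (two_ne_zero)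
    nlinarith
  · intro h1
    apply lt_of_pow_lt_pow_left₀ 2 (by norm_num)
    nlinarith

theorem mem_cl {x : Sp J} : x ∈ closure Om ↔ ss x + zz x ^ 2 + ee x + x ig ^ 2 ≤ 400 * x ig := by
  unfold Om
  rw [closure_ball _ (by norm_num), Metric.mem_closedBall, dist_eq_norm]
  have h := norm_sub_cc x
  constructor
  · intro h1
    have h2 := pow_le_pow_left₀ (norm_nonneg _) h1 2
    nlinarith
  · intro h1
    apply le_of_sq_le_sq _ (by norm_num)
    nlinarith

theorem Om_open : IsOpen Om := Metric.isOpen_ball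
theorem Om_bdd : Bornology.IsBounded Om := Metric.isBounded_ball

theorem ss_nonneg (x : Sp J) : 0 ≤ ss x := Finset.sum_nonneg fun i _ => sq_nonneg _
theorem qq_nonneg (x : Sp J) : 0 ≤ qq x := Finset.sum_nonneg fun i _ => sq_nonneg _
theorem ee_nonneg (x : Sp J) : 0 ≤ ee x := Finset.sum_nonneg fun i _ => sq_nonneg _

theorem cl_bounds {x : Sp J} (hx : x ∈ closure Om) :
    0 ≤ x ig ∧ x ig ≤ 400 ∧ ss x ≤ 400 * x ig ∧ |zz x| ≤ 200 := by
  rw [mem_cl] at hx
  have h1 := ss_nonneg x
  have h2 := ee_nonneg x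
  have h3 := sq_nonneg (zz x)
  have h4 := sq_nonneg (x ig)
  have h5 : 0 ≤ x ig := by linarith
  have h6 : x ig ≤ 400 := by nlinarith
  refine ⟨h5, h6, by linarith, ?_⟩
  apply abs_le_of_sq_le_sq _ (by norm_num)
  nlinarith [sq_nonneg (x ig - 200)]

theorem ee_eq (x : Sp J) : ee x = qq x + 2 * (zz x / 2 - 18) * pp x + (zz x / 2 - 18) ^ 2 * ss x := by
  have : ∀ i, x (iF i) = ff i x + (zz x / 2 - 18) * yy i x := by
    intro i; unfold ff; ring
  simp only [ee, qq, pp, ss, this, Fin.sum_univ_succ, Fin.sum_univ_zero]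
  ring

theorem ig_eq (x : Sp J) : x ig = gg x - pp x / 2 + zz x * ss x / 12 + 3 * ss x := by
  unfold gg; ring

/-- the core of the barrier is at most `s^{1/4}` -/
theorem core_le {x : Sp J} (hx : 0 < ss x) (hs : ss x ≤ 160000) :
    (ss x - zz x ^ 2 - qq x) * rr x ^ 3 - gg x ^ 2 * rr x ^ 7 ≤ 20 := by
  have hr := rr_pos hx
  have e := ss_rr hx
  have h1 : ss x * rr x ^ 3 ≤ 20 := by
    apply le_of_pow_le_pow_left₀ (n := 4) (by norm_num) (by norm_num)
    have : (ss x * rr x ^ 3) ^ 4 = ss x * (ss x * rr x ^ 4) ^ 3 := by ring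
    rw [this, e]
    norm_num
    linarith
  have h2 : 0 ≤ (zz x ^ 2 + qq x) * rr x ^ 3 := by
    have := qq_nonneg x
    positivity
  have h3 : 0 ≤ gg x ^ 2 * rr x ^ 7 := by positivity
  nlinarith

/-- on the sphere near the tangency point the core is nonpositive -/
theorem core_nonpos {x : Sp J} (hx : 0 < ss x)
    (hb : ss x + zz x ^ 2 + ee x + x ig ^ 2 = 400 * x ig) (hY : x ig < 1 / 400) :
    (ss x - zz x ^ 2 - qq x) * rr x ^ 3 - gg x ^ 2 * rr x ^ 7 ≤ 0 := by
  have hr := rr_pos hx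
  have e := ss_rr hx
  have hq := qq_nonneg x
  rcases le_or_gt (ss x) (zz x ^ 2 + qq x) with h | h
  · have h1 : (ss x - zz x ^ 2 - qq x) * rr x ^ 3 ≤ 0 :=
      mul_nonpos_of_nonpos_of_nonneg (by linarith) (by positivity)
    have h2 : 0 ≤ gg x ^ 2 * rr x ^ 7 := by positivity
    linarith
  · have hee := ee_nonneg x
    have hz2 : zz x ^ 2 < 1 := by nlinarith [sq_nonneg (x ig), sq_nonneg (zz x)]
    have hs1 : ss x < 1 := by nlinarith [sq_nonneg (x ig), sq_nonneg (zz x)]
    have hz : |zz x| < 1 := by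
      apply abs_lt_of_sq_lt_sq _ (by norm_num)
      simpa using hz2
    obtain ⟨hz3, hz4⟩ := abs_lt.mp hz
    have hqs : qq x ≤ ss x := by nlinarith [sq_nonneg (zz x)]
    have hp : |pp x| ≤ ss x := by
      apply abs_le_of_sq_le_sq _ hx.le
      have := pp_sq_le x
      nlinarith
    obtain ⟨hp1, hp2⟩ := abs_le.mp hp
    have hY0 : 0 ≤ x ig := by nlinarith [sq_nonneg (x ig), sq_nonneg (zz x)]
    -- bound for ee
    have hee2 : ee x ≤ 381 * ss x := by
      rw [ee_eq]
      have b1 : (zz x / 2 - 18) ^ 2 ≤ (37 / 2) ^ 2 := by nlinarith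
      have b2 : (zz x / 2 - 18) ^ 2 * ss x ≤ (37 / 2) ^ 2 * ss x :=
        mul_le_mul_of_nonneg_right b1 hx.le
      have b3 : 2 * (zz x / 2 - 18) * pp x ≤ 37 * ss x := by
        have c1 : |2 * (zz x / 2 - 18) * pp x| ≤ 37 * ss x := by
          rw [abs_mul]
          apply mul_le_mul _ hp (abs_nonneg _) (by norm_num)
          rw [abs_le]; constructor <;> linarith
        exact (le_abs_self _).trans c1
      nlinarith
    have hYs : x ig ≤ ss x := by
      have : x ig ^ 2 ≤ x ig := by nlinarith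
      nlinarith
    -- the coordinate g
    have hg : gg x ≤ - ss x := by
      have h1 := ig_eq x
      have h2 : -(ss x) ≤ zz x * ss x := by nlinarith
      nlinarith
    have hg2 : ss x ^ 2 ≤ gg x ^ 2 := by nlinarith
    have key : (ss x - zz x ^ 2 - qq x) * rr x ^ 3 - gg x ^ 2 * rr x ^ 7 =
        rr x ^ 7 * ((ss x - zz x ^ 2 - qq x) * ss x - gg x ^ 2) := by
      linear_combination (-(ss x - zz x ^ 2 - qq x) * rr x ^ 3) * e
    rw [key]
    apply mul_nonpos_of_nonneg_of_nonpos (by positivity)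
    have h5 : 0 ≤ (zz x ^ 2 + qq x) * ss x := by positivity
    nlinarith

/-- The boundary inequality. -/
theorem ww_bdry {η : ℝ} (hη : 0 ≤ η) {x : Sp J} (hx : 0 < ss x)
    (hb : ss x + zz x ^ 2 + ee x + x ig ^ 2 = 400 * x ig) :
    ww η x ≤ 500000000 * x ig := by
  have hr := rr_pos hx
  have hcl : x ∈ closure Om := mem_cl.mpr hb.le
  obtain ⟨h1, h2, h3, h4⟩ := cl_bounds hcl
  have h5 : 0 ≤ η * rr x ^ 4 := by positivity
  unfold ww
  rcases le_or_gt (1 / 400) (x ig) with h | h
  · have := core_le hx (by linarith)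
    linarith
  · have := core_nonpos hx hb h
    linarith

/-- the level sets are compact -/
theorem level {η : ℝ} (hη : 0 < η) {ψ : Sp J → ℝ} (hψ : IsTest Om ψ) {δ : ℝ} (hδ : 0 < δ) :
    ∃ S, IsCompact S ∧ S ⊆ Om ∩ OO ∧
      ∀ x ∈ Om ∩ OO, δ ≤ ww η x - 500000000 * (x ig + ψ x) → x ∈ S := by
  have hcpt : IsCompact (closure Om) := Om_bdd.isCompact_closure
  have hcont : Continuous (fun x : Sp J => x ig + ψ x) :=
    (coord_smooth ig).continuous.add hψ.1.continuous
  obtain ⟨M0, hM0⟩ := hcpt.exists_bound_of_continuousOn hcont.continuousOn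
  set M : ℝ := max M0 0 with hM
  have hMn : 0 ≤ M := le_max_right _ _
  have hMb : ∀ x ∈ closure Om, |x ig + ψ x| ≤ M := fun x hx =>
    (hM0 x hx).trans (le_max_left _ _)
  set s0 : ℝ := η / (200000000000 + 500000000 * M) with hs0
  have hs0p : 0 < s0 := by positivity
  refine ⟨{x | x ∈ closure Om ∧ s0 ≤ ss x ∧ δ ≤ ww η x - 500000000 * (x ig + ψ x)}, ?_, ?_, ?_⟩
  · have hcl : IsClosed {x : Sp J | x ∈ closure Om ∧ s0 ≤ ss x ∧
        δ ≤ ww η x - 500000000 * (x ig + ψ x)} := by
      set T : Set (Sp J) := {x | x ∈ closure Om ∧ s0 ≤ ss x} with hT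
      have hTc : IsClosed T := isClosed_closure.inter
        (isClosed_le continuous_const ss_smooth.continuous)
      have hTO : T ⊆ OO := fun x hx => lt_of_lt_of_le hs0p hx.2
      have hc : ContinuousOn (fun x => ww η x - 500000000 * (x ig + ψ x)) T :=
        ((ww_smooth η).continuousOn.mono hTO).sub (continuous_const.mul hcont).continuousOn
      have := hc.preimage_isClosed_of_isClosed hTc (isClosed_Ici (a := δ))
      convert this using 1
      ext x
      simp only [hT, Set.mem_setOf_eq, Set.mem_inter_iff, Set.mem_preimage, Set.mem_Ici]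
      tauto
    exact hcpt.of_isClosed_subset hcl fun x hx => hx.1
  · rintro x ⟨h1, h2, h3⟩
    have hx0 : 0 < ss x := lt_of_lt_of_le hs0p h2
    refine ⟨?_, hx0⟩
    by_contra hcon
    have hb : ss x + zz x ^ 2 + ee x + x ig ^ 2 = 400 * x ig := by
      apply le_antisymm (mem_cl.mp h1)
      by_contra h
      exact hcon (mem_Om.mpr (not_le.mp h))
    have h4 := ww_bdry hη.le hx0 hb
    rw [hψ.eq_zero hcon] at h3
    linarith
  · rintro x ⟨h1, h2⟩ h3
    have hx0 : 0 < ss x := h2
    have hcx : x ∈ closure Om := subset_closure h1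
    refine ⟨hcx, ?_, h3⟩
    by_contra hcon
    push Not at hcon
    obtain ⟨b1, b2, b3, b4⟩ := cl_bounds hcx
    have hcore := core_le hx0 (by linarith)
    have e := ss_rr hx0
    have hr := rr_pos hx0
    have hMx := abs_le.mp (hMb x hcx)
    have hww : ww η x ≤ 20 + 160000000000 - η * rr x ^ 4 := by
      unfold ww
      nlinarith
    -- η r^4 is large
    have hbig : 200000000000 + 500000000 * M < η * rr x ^ 4 := by
      have h5 : ss x * (200000000000 + 500000000 * M) < η := by
        rw [hs0, lt_div_iff₀ (by positivity)] at hcon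
        exact hcon
      have h6 : rr x ^ 4 * (ss x * (200000000000 + 500000000 * M)) < rr x ^ 4 * η :=
        mul_lt_mul_of_pos_left h5 (by positivity)
      have h7 : rr x ^ 4 * (ss x * (200000000000 + 500000000 * M)) =
        (ss x * rr x ^ 4) * (200000000000 + 500000000 * M) := by ring
      rw [h7, e] at h6
      linarith
    linarith [hMx.1]

/-- level sets for the zero subsolution -/
theorem level0 {ψ : Sp J → ℝ} (hψ : IsTest Om ψ) {δ : ℝ} (hδ : 0 < δ) :
    ∃ S, IsCompact S ∧ S ⊆ Om ∩ Set.univ ∧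
      ∀ x ∈ Om ∩ Set.univ, δ ≤ (0 : ℝ) - 1 * (x ig + ψ x) → x ∈ S := by
  have hcpt : IsCompact (closure Om) := Om_bdd.isCompact_closure
  have hcont : Continuous (fun x : Sp J => (0 : ℝ) - 1 * (x ig + ψ x)) :=
    continuous_const.sub (continuous_const.mul
      ((coord_smooth ig).continuous.add hψ.1.continuous))
  refine ⟨closure Om ∩ {x | δ ≤ (0 : ℝ) - 1 * (x ig + ψ x)}, ?_, ?_, ?_⟩
  · exact hcpt.inter_right (isClosed_le continuous_const hcont)
  · rintro x ⟨h1, h2⟩
    refine ⟨?_, Set.mem_univ _⟩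
    by_contra hcon
    simp only [Set.mem_setOf_eq] at h2
    rw [hψ.eq_zero hcon] at h2
    have := (cl_bounds h1).1
    linarith
  · rintro x ⟨h1, -⟩ h2
    exact ⟨subset_closure h1, h2⟩

/-! ### boxes -/

def box (a : Sp J) (ρ : J → ℝ) : Set (Sp J) := {x | ∀ j, |x j - a j| ≤ ρ j}

theorem volume_box (a : Sp J) (ρ : J → ℝ) : volume (box a ρ) = ∏ j, ENNReal.ofReal (2 * ρ j) := by
  have h1 : box a ρ = (WithLp.ofLp : Sp J → (J → ℝ)) ⁻¹'
      (Set.Icc (fun j => a j - ρ j) (fun j => a j + ρ j)) := by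
    ext x
    simp only [box, Set.mem_setOf_eq, Set.mem_preimage, Set.mem_Icc, Pi.le_def, abs_le]
    constructor
    · intro h
      exact ⟨fun j => by linarith [(h j).1], fun j => by linarith [(h j).2]⟩
    · rintro ⟨h2, h3⟩ j
      exact ⟨by linarith [h2 j], by linarith [h3 j]⟩
  rw [h1, (PiLp.volume_preserving_ofLp J).measure_preimage measurableSet_Icc.nullMeasurableSet,
    Real.volume_Icc_pi]
  apply Finset.prod_congr rfl
  intro j _
  congr 1
  ring

theorem box_measurable (a : Sp J) (ρ : J → ℝ) : MeasurableSet (box a ρ) := by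
  have : box a ρ = ⋂ j, {x : Sp J | |x j - a j| ≤ ρ j} := by
    ext x; simp [box]
  rw [this]
  apply MeasurableSet.iInter
  intro j
  exact (isClosed_le (((coord_smooth j).continuous.sub continuous_const).abs)
    continuous_const).measurableSet

end Pool.Agent.Helper392.H1
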