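import Pool.Agent.Helper392.H1.Defs

set_option autoImplicit false
set_option linter.unusedSimpArgs false

open MeasureTheory Filter Topology
open scoped ContDiff

namespace Pool.Agent.Helper392.H1

/-- Index set of the coordinates of `R^14`: six coordinates `v`, one coordinate `z`, six
coordinates `f`, one coordinate `g`. -/
abbrev J := Fin 14
/-- Index set of the first layer. -/
abbrev K := Fin 6 ⊕ Unit

def iv (i : Fin 6) : J := ⟨i.1, by omega⟩
def iz : J := 6
def iF (i : Fin 6) : J := ⟨7 + i.1, by omega⟩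
def ig : J := 13

noncomputable def mkf (v : Fin 6 → ℝ) (z : ℝ) (f : Fin 6 → ℝ) (g : ℝ) (j : J) : ℝ :=
  if h : j.1 < 6 then v ⟨j.1, h⟩ else if j.1 = 6 then z
    else if h : j.1 < 13 then f ⟨j.1 - 7, by omega⟩ else g

noncomputable def mk (v : Fin 6 → ℝ) (z : ℝ) (f : Fin 6 → ℝ) (g : ℝ) : Sp J :=
  WithLp.toLp 2 (mkf v z f g)

@[simp] theorem mk_v (v : Fin 6 → ℝ) (z : ℝ) (f : Fin 6 → ℝ) (g : ℝ) (i : Fin 6) :
    mk v z f g (iv i) = v i := by
  have := i.2
  simp [mk, mkf, iv]
@[simp] theorem mk_z (v : Fin 6 → ℝ) (z : ℝ) (f : Fin 6 → ℝ) (g : ℝ) :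
    mk v z f g iz = z := by simp [mk, mkf, iz]
@[simp] theorem mk_f (v : Fin 6 → ℝ) (z : ℝ) (f : Fin 6 → ℝ) (g : ℝ) (i : Fin 6) :
    mk v z f g (iF i) = f i := by
  have h := i.2
  simp only [mk, mkf, iF]
  rw [dif_neg (by omega), if_neg (by omega), dif_pos (by omega)]
  congr 1
  apply Fin.ext
  simp
@[simp] theorem mk_g (v : Fin 6 → ℝ) (z : ℝ) (f : Fin 6 → ℝ) (g : ℝ) :
    mk v z f g ig = g := by simp [mk, mkf, ig]

theorem forall_J {P : J → Prop} :
    (∀ j, P j) ↔ (∀ i, P (iv i)) ∧ P iz ∧ (∀ i, P (iF i)) ∧ P ig := by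
  constructor
  · intro h; exact ⟨fun i => h _, h _, fun i => h _, h _⟩
  · rintro ⟨h1, h2, h3, h4⟩ j
    by_cases a : j.1 < 6
    · exact h1 ⟨j.1, a⟩
    · by_cases b : j.1 = 6
      · have : j = iz := Fin.ext b
        rw [this]; exact h2
      · by_cases c : j.1 < 13
        · have : j = iF ⟨j.1 - 7, by omega⟩ := by
            apply Fin.ext
            simp only [iF]
            omega
          rw [this]; exact h3 _
        · have : j = ig := by
            apply Fin.ext
            have := j.2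
            simp only [ig]
            omega
          rw [this]; exact h4

theorem ext' {x y : Sp J} (h1 : ∀ i, x (iv i) = y (iv i)) (h2 : x iz = y iz)
    (h3 : ∀ i, x (iF i) = y (iF i)) (h4 : x ig = y ig) : x = y := by
  ext j
  revert j
  rw [forall_J]
  exact ⟨h1, h2, h3, h4⟩

theorem sum_J (F : J → ℝ) : ∑ j, F j = (∑ i, F (iv i)) + F iz + (∑ i, F (iF i)) + F ig := by
  have h : (14 : ℕ) = 6 + 1 + 6 + 1 := rfl
  simp only [Fin.sum_univ_succ, Fin.sum_univ_zero, iv, iz, iF, ig]
  simp only [add_zero, ← add_assoc]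
  rfl

/-- The group law. -/
noncomputable def mul (x y : Sp J) : Sp J :=
  mk (fun i => x (iv i) + y (iv i)) (x iz + y iz)
    (fun i => x (iF i) + y (iF i) + (x (iv i) * y iz - x iz * y (iv i)) / 2)
    (x ig + y ig + (∑ i, (x (iv i) * y (iF i) - x (iF i) * y (iv i))) / 2
      + (∑ i, (x (iv i) - y (iv i)) * (x (iv i) * y iz - x iz * y (iv i))) / 12)

theorem mul_assoc' (x y z : Sp J) : mul (mul x y) z = mul x (mul y z) := by
  apply ext' <;> intros <;> simp only [mul, mk_v, mk_z, mk_f, mk_g]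
  · ring
  · ring
  · ring
  · simp only [Fin.sum_univ_succ, Fin.sum_univ_zero]
    ring

theorem mul_smooth : ContDiff ℝ ∞ (fun p : Sp J × Sp J => mul p.1 p.2) := by
  have c1 : ∀ j : J, ContDiff ℝ ∞ (fun p : Sp J × Sp J => p.1 j) := by
    intro j
    exact (EuclideanSpace.proj j : Sp J →L[ℝ] ℝ).contDiff.comp contDiff_fst
  have c2 : ∀ j : J, ContDiff ℝ ∞ (fun p : Sp J × Sp J => p.2 j) := by
    intro j
    exact (EuclideanSpace.proj j : Sp J →L[ℝ] ℝ).contDiff.comp contDiff_snd
  rw [contDiff_euclidean, forall_J]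
  simp only [mul, mk_v, mk_z, mk_f, mk_g]
  refine ⟨fun i => (c1 _).add (c2 _), (c1 _).add (c2 _), fun i => ?_, ?_⟩
  · exact ((c1 _).add (c2 _)).add ((((c1 _).mul (c2 _)).sub ((c1 _).mul (c2 _))).div_const _)
  · refine (((c1 _).add (c2 _)).add ((ContDiff.sum fun i _ => ?_).div_const _)).add
      ((ContDiff.sum fun i _ => ?_).div_const _)
    · exact ((c1 _).mul (c2 _)).sub ((c1 _).mul (c2 _))
    · exact ((c1 _).sub (c2 _)).mul (((c1 _).mul (c2 _)).sub ((c1 _).mul (c2 _)))

/-- The group law as an `ExpGroup`. -/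
noncomputable def G0 : ExpGroup J where
  mul := mul
  smooth := mul_smooth
  assoc := mul_assoc'
  zero_mul := by
    intro x
    apply ext' <;> intros <;> simp [mul]
  mul_zero := by
    intro x
    apply ext' <;> intros <;> simp [mul]
  line := by
    intro v s t
    apply ext' <;> intros <;> simp only [mul, mk_v, mk_z, mk_f, mk_g, PiLp.smul_apply, smul_eq_mul]
    · ring
    · ring
    · ring
    · simp only [Fin.sum_univ_succ, Fin.sum_univ_zero]
      ring

theorem poly_deriv (A B C : ℝ) : HasDerivAt (fun t : ℝ => A + B * t + C * t ^ 2) B 0 := by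
  have h1 : HasDerivAt (fun t : ℝ => A + B * t) B 0 := by
    simpa using ((hasDerivAt_id (0 : ℝ)).const_mul B).const_add A
  have h2 : HasDerivAt (fun t : ℝ => C * t ^ 2) 0 0 := by
    simpa using ((hasDerivAt_pow 2 (0 : ℝ)).const_mul C)
  have h3 := h1.add h2
  rw [add_zero] at h3
  exact h3

/-- Componentwise computation of a directional derivative at `0`. -/
theorem fderiv_zero_apply {F : Sp J → Sp J} (hF : DifferentiableAt ℝ F 0) (v : Sp J) (j : J)
    {A B C : ℝ} (h : ∀ t : ℝ, F (t • v) j = A + B * t + C * t ^ 2) :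
    (fderiv ℝ F 0 v) j = B := by
  have h1 : HasDerivAt (fun t : ℝ => t • v) v 0 := by
    simpa using (hasDerivAt_id (0 : ℝ)).smul_const v
  have h2 : HasFDerivAt F (fderiv ℝ F 0) ((0 : ℝ) • v) := by
    rw [zero_smul]; exact hF.hasFDerivAt
  have h3 := h2.comp_hasDerivAt (0 : ℝ) h1
  have h4 := (EuclideanSpace.proj j : Sp J →L[ℝ] ℝ).hasFDerivAt.comp_hasDerivAt
    (0 : ℝ) h3
  have h5 : HasDerivAt (fun t : ℝ => F (t • v) j) ((fderiv ℝ F 0 v) j) 0 := h4
  simp only [h] at h5
  exact h5.unique (poly_deriv A B C)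

theorem mul_left_smooth (x : Sp J) : ContDiff ℝ ∞ (fun y => mul x y) :=
  mul_smooth.comp (contDiff_const.prodMk contDiff_id)

/-- Explicit left invariant fields. -/
noncomputable def fld (v x : Sp J) : Sp J :=
  mk (fun i => v (iv i)) (v iz) (fun i => v (iF i) + (x (iv i) * v iz - x iz * v (iv i)) / 2)
    (v ig + (∑ i, (x (iv i) * v (iF i) - x (iF i) * v (iv i))) / 2
      + (∑ i, x (iv i) * (x (iv i) * v iz - x iz * v (iv i))) / 12)

theorem field_eq (v x : Sp J) : G0.field v x = fld v x := by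
  have hd : DifferentiableAt ℝ (fun y => mul x y) 0 :=
    ((mul_left_smooth x).differentiable (by simp)) 0
  change fderiv ℝ (fun y => mul x y) 0 v = _
  apply ext'
  · intro i
    apply fderiv_zero_apply hd (A := x (iv i)) (C := 0)
    intro t
    simp only [mul, fld, mk_v, mk_z, mk_f, mk_g, PiLp.smul_apply, smul_eq_mul]
    ring
  · apply fderiv_zero_apply hd (A := x iz) (C := 0)
    intro t
    simp only [mul, fld, mk_v, mk_z, mk_f, mk_g, PiLp.smul_apply, smul_eq_mul]
    ring
  · intro i
    apply fderiv_zero_apply hd (A := x (iF i)) (C := 0)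
    intro t
    simp only [mul, fld, mk_v, mk_z, mk_f, mk_g, PiLp.smul_apply, smul_eq_mul]
    ring
  · apply fderiv_zero_apply hd (A := x ig)
      (C := - (∑ i, v (iv i) * (x (iv i) * v iz - x iz * v (iv i))) / 12)
    intro t
    simp only [mul, fld, mk_v, mk_z, mk_f, mk_g, PiLp.smul_apply, smul_eq_mul,
      Fin.sum_univ_succ, Fin.sum_univ_zero]
    ring

theorem coord_smooth (j : J) : ContDiff ℝ ∞ (fun x : Sp J => x j) :=
  (EuclideanSpace.proj j : Sp J →L[ℝ] ℝ).contDiff

theorem fld_smooth (v : Sp J) : ContDiff ℝ ∞ (fld v) := by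
  rw [contDiff_euclidean, forall_J]
  simp only [fld, mk_v, mk_z, mk_f, mk_g]
  refine ⟨fun i => contDiff_const, contDiff_const, fun i => ?_, ?_⟩
  · exact contDiff_const.add ((((coord_smooth _).mul contDiff_const).sub
      ((coord_smooth _).mul contDiff_const)).div_const _)
  · refine (contDiff_const.add ((ContDiff.sum fun i _ => ?_).div_const _)).add
      ((ContDiff.sum fun i _ => ?_).div_const _)
    · exact ((coord_smooth _).mul contDiff_const).sub ((coord_smooth _).mul contDiff_const)
    · exact (coord_smooth _).mul (((coord_smooth _).mul contDiff_const).sub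
        ((coord_smooth _).mul contDiff_const))

theorem field_eq' (v : Sp J) : G0.field v = fld v := funext (field_eq v)

/-- Explicit bracket. -/
noncomputable def brk (v w : Sp J) : Sp J :=
  mk (fun _ => 0) 0 (fun i => v (iv i) * w iz - v iz * w (iv i))
    (∑ i, (v (iv i) * w (iF i) - v (iF i) * w (iv i)))

theorem br_eq (v w : Sp J) : G0.br v w = brk v w := by
  have hd : ∀ a : Sp J, DifferentiableAt ℝ (fld a) 0 := fun a =>
    ((fld_smooth a).differentiable (by simp)) 0
  have key : ∀ a b : Sp J, fderiv ℝ (fld a) 0 b =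
      mk (fun _ => 0) 0 (fun i => (b (iv i) * a iz - b iz * a (iv i)) / 2)
        ((∑ i, (b (iv i) * a (iF i) - b (iF i) * a (iv i))) / 2) := by
    intro a b
    apply ext'
    · intro i
      apply fderiv_zero_apply (hd a) (A := a (iv i)) (C := 0)
      intro t
      simp [fld]
    · apply fderiv_zero_apply (hd a) (A := a iz) (C := 0)
      intro t
      simp [fld]
    · intro i
      apply fderiv_zero_apply (hd a) (A := a (iF i)) (C := 0)
      intro t
      simp only [fld, mk_v, mk_z, mk_f, mk_g, PiLp.smul_apply, smul_eq_mul]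
      ring
    · apply fderiv_zero_apply (hd a) (A := a ig)
        (C := (∑ i, b (iv i) * (b (iv i) * a iz - b iz * a (iv i))) / 12)
      intro t
      simp only [fld, mk_v, mk_z, mk_f, mk_g, PiLp.smul_apply, smul_eq_mul,
        Fin.sum_univ_succ, Fin.sum_univ_zero]
      ring
  change fderiv ℝ (G0.field w) 0 v - fderiv ℝ (G0.field v) 0 w = _
  rw [field_eq', field_eq', key, key]
  apply ext' <;> intros <;>
    simp only [brk, PiLp.sub_apply, mk_v, mk_z, mk_f, mk_g, Fin.sum_univ_succ, Fin.sum_univ_zero] <;>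
    ring

/-- weights -/
def deg (j : J) : ℕ := if j.1 ≤ 6 then 1 else if j.1 < 13 then 2 else 3

@[simp] theorem deg_v (i : Fin 6) : deg (iv i) = 1 := by
  have h := i.2
  have h1 : (iv i).1 = i.1 := rfl
  rw [deg, if_pos (by omega)]
@[simp] theorem deg_z : deg iz = 1 := rfl
@[simp] theorem deg_f (i : Fin 6) : deg (iF i) = 2 := by
  have h := i.2
  have h1 : (iF i).1 = 7 + i.1 := rfl
  rw [deg, if_neg (by omega), if_pos (by omega)]
@[simp] theorem deg_g : deg ig = 3 := rfl

/-- layers -/
def lay (j : ℕ) : Submodule ℝ (Sp J) where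
  carrier := {x | ∀ k, deg k ≠ j → x k = 0}
  add_mem' := by
    intro a b ha hb k hk
    simp [ha k hk, hb k hk]
  zero_mem' := by intro k _; rfl
  smul_mem' := by
    intro c x hx k hk
    simp [hx k hk]

theorem mem_lay {j : ℕ} {x : Sp J} : x ∈ lay j ↔ ∀ k, deg k ≠ j → x k = 0 := Iff.rfl

theorem mem_lay1 {x : Sp J} : x ∈ lay 1 ↔ (∀ i, x (iF i) = 0) ∧ x ig = 0 := by
  rw [mem_lay, forall_J]; simp

theorem mem_lay2 {x : Sp J} : x ∈ lay 2 ↔ (∀ i, x (iv i) = 0) ∧ x iz = 0 ∧ x ig = 0 := by
  rw [mem_lay, forall_J]; simp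

theorem mem_lay3 {x : Sp J} : x ∈ lay 3 ↔ (∀ i, x (iv i) = 0) ∧ x iz = 0 ∧ ∀ i, x (iF i) = 0 := by
  rw [mem_lay, forall_J]; simp

/-- basis of the first layer -/
noncomputable def ex : K → Sp J := Sum.elim (fun i => mk (Pi.single i 1) 0 0 0) (fun _ => mk 0 1 0 0)

theorem ex_inl (i : Fin 6) : ex (Sum.inl i) = mk (Pi.single i 1) 0 0 0 := rfl
theorem ex_inr (i : Unit) : ex (Sum.inr i) = mk 0 1 0 0 := rfl

theorem sum_ex (c : K → ℝ) : ∑ k, c k • ex k =
    mk (fun i => c (Sum.inl i)) (c (Sum.inr ())) 0 0 := by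
  rw [Fintype.sum_sum_type]
  simp only [ex_inl, ex_inr, Finset.univ_unique, Finset.sum_singleton]
  apply ext'
  · intro i
    simp only [PiLp.add_apply, PiLp.smul_apply, mk_v, smul_eq_mul, WithLp.ofLp_sum, Finset.sum_apply,
      Pi.zero_apply, mul_zero, add_zero]
    rw [Finset.sum_eq_single i]
    · simp
    · intro b _ hb
      simp [Pi.single_apply, hb.symm]
    · simp
  · simp
  · intro i; simp
  · simp

theorem exists_gen2 (x : Sp J) (hx : x ∈ lay 2) : x = ∑ i, x (iF i) • brk (ex (Sum.inl i)) (ex (Sum.inr ())) := by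
  rw [mem_lay2] at hx
  obtain ⟨h1, h2, h3⟩ := hx
  apply ext'
  · intro i
    simp only [WithLp.ofLp_sum, Finset.sum_apply, PiLp.smul_apply, brk, mk_v, smul_eq_mul, mul_zero,
      Finset.sum_const_zero, h1 i]
  · simp only [WithLp.ofLp_sum, Finset.sum_apply, PiLp.smul_apply, brk, mk_z, smul_eq_mul, mul_zero,
      Finset.sum_const_zero, h2]
  · intro i
    simp only [WithLp.ofLp_sum, Finset.sum_apply, PiLp.smul_apply, brk, mk_f, smul_eq_mul, ex_inl,
      ex_inr, mk_v, mk_z]
    rw [Finset.sum_eq_single i]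
    · simp
    · intro b _ hb
      simp [Pi.single_apply, hb.symm]
    · simp
  · simp only [WithLp.ofLp_sum, Finset.sum_apply, PiLp.smul_apply, brk, mk_g, smul_eq_mul, ex_inl,
      ex_inr, mk_v, mk_f, h3]
    simp

theorem exists_gen3 (x : Sp J) (hx : x ∈ lay 3) :
    x = x ig • brk (ex (Sum.inl 0)) (mk 0 0 (Pi.single 0 1) 0) := by
  rw [mem_lay3] at hx
  obtain ⟨h1, h2, h3⟩ := hx
  apply ext'
  · intro i
    simp [brk, h1 i]
  · simp [brk, h2]
  · intro i
    simp [brk, h3 i, ex_inl]
  · simp [brk, ex_inl, Fin.sum_univ_succ]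

/-- The Carnot group. -/
noncomputable def G : Carnot J K where
  toExpGroup := G0
  step := 3
  V := lay
  decomp := by
    intro x
    refine ⟨fun j => WithLp.toLp 2 (fun k => if deg k = (j : ℕ) + 1 then x k else 0), ⟨?_, ?_⟩, ?_⟩
    · intro j k hk
      simp [hk]
    · ext k
      revert k
      rw [forall_J]
      simp [Fin.sum_univ_succ]
    · rintro y ⟨h1, h2⟩
      funext j
      ext k
      rw [← h2]
      simp only [WithLp.ofLp_sum, Finset.sum_apply]
      by_cases hk : deg k = (j : ℕ) + 1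
      · rw [if_pos hk, Finset.sum_eq_single j]
        · intro b _ hb
          apply h1 b k
          rw [hk]
          intro h
          apply hb
          ext
          omega
        · simp
      · rw [if_neg hk]
        exact h1 j k hk
  gen := by
    intro j h1 h3
    have hj : j = 1 ∨ j = 2 := by omega
    apply le_antisymm
    · intro x hx
      rcases hj with rfl | rfl
      · rw [exists_gen2 x hx]
        apply Submodule.sum_mem
        intro i _
        apply Submodule.smul_mem
        apply Submodule.subset_span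
        refine ⟨ex (Sum.inl i), ?_, ex (Sum.inr ()), ?_, ?_⟩
        · rw [mem_lay1]; simp [ex_inl]
        · rw [mem_lay1]; simp [ex_inr]
        · rw [br_eq]
      · rw [exists_gen3 x hx]
        apply Submodule.smul_mem
        apply Submodule.subset_span
        refine ⟨ex (Sum.inl 0), ?_, mk 0 0 (Pi.single 0 1) 0, ?_, ?_⟩
        · rw [mem_lay1]; simp [ex_inl]
        · rw [mem_lay2]; simp
        · rw [br_eq]
    · rw [Submodule.span_le]
      rintro c ⟨a, ha, b, hb, rfl⟩
      rw [br_eq]
      rw [mem_lay1] at ha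
      rcases hj with rfl | rfl
      · rw [mem_lay1] at hb
        change _ ∈ lay 2
        rw [mem_lay2]
        simp [brk, ha.1, hb.1]
      · rw [mem_lay2] at hb
        change _ ∈ lay 3
        rw [mem_lay3]
        simp [brk, hb.1, hb.2.1]
  top := by
    intro a ha b hb
    rw [br_eq]
    rw [mem_lay1] at ha
    rw [mem_lay3] at hb
    apply ext' <;> intros <;> simp [brk, hb.1, hb.2.1, hb.2.2]
  X := ex
  X_indep := by
    rw [Fintype.linearIndependent_iff]
    intro c hc
    rw [sum_ex] at hc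
    rintro (i | ⟨⟩)
    · have := congrArg (fun x : Sp J => x (iv i)) hc
      simpa using this
    · have := congrArg (fun x : Sp J => x iz) hc
      simpa using this
  X_span := by
    apply le_antisymm
    · rw [Submodule.span_le]
      rintro _ ⟨k, rfl⟩
      rcases k with i | ⟨⟩
      · change _ ∈ lay 1
        rw [mem_lay1]; simp [ex_inl]
      · change _ ∈ lay 1
        rw [mem_lay1]; simp [ex_inr]
    · intro x hx
      rw [mem_lay1] at hx
      have : x = ∑ k, (Sum.elim (fun i => x (iv i)) (fun _ => x iz) k : ℝ) • ex k := by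
        rw [sum_ex]
        apply ext' <;> intros <;> simp [hx.1, hx.2]
      rw [this]
      apply Submodule.sum_mem
      intro k _
      exact Submodule.smul_mem _ _ (Submodule.subset_span ⟨k, rfl⟩)

end Pool.Agent.Helper392.H1
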