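import Pool.Agent.Helper392.H1.Grp

set_option autoImplicit false
set_option linter.unusedSimpArgs false

open MeasureTheory Filter Topology
open scoped ContDiff

namespace Pool.Agent.Helper392.H1

theorem fderiv_decomp (F : Sp J → ℝ) (x a : Sp J) :
    fderiv ℝ F x a = ∑ j, a j * fderiv ℝ F x (EuclideanSpace.single j 1) := by
  have : a = ∑ j, a j • (EuclideanSpace.single j (1 : ℝ) : Sp J) := by
    ext k
    simp only [WithLp.ofLp_sum, Finset.sum_apply, PiLp.smul_apply, smul_eq_mul]
    rw [Finset.sum_eq_single k]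
    · simp
    · intro b _ hb
      simp [hb.symm]
    · simp
  conv_lhs => rw [this]
  rw [map_sum]
  simp only [map_smul, smul_eq_mul]

theorem int_field (a : Sp J → Sp J) (ha : ContDiff ℝ ∞ a)
    (hdiv : ∀ j x, fderiv ℝ (fun y => a y j) x (EuclideanSpace.single j 1) = 0)
    (F : Sp J → ℝ) (hF : ContDiff ℝ 1 F) (hc : HasCompactSupport F) :
    ∫ x, fderiv ℝ F x (a x) = 0 := by
  have haj : ∀ j, ContDiff ℝ ∞ (fun y => a y j) := fun j => (contDiff_euclidean.mp ha) j
  have hcont : ∀ v, Continuous (fun x => fderiv ℝ F x v) := fun v =>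
    (hF.continuous_fderiv (by simp)).clm_apply continuous_const
  have hcs : ∀ v, HasCompactSupport (fun x => fderiv ℝ F x v) := fun v => hc.fderiv_apply ℝ v
  simp only [fun x => fderiv_decomp F x (a x)]
  rw [integral_finsetSum]
  · apply Finset.sum_eq_zero
    intro j _
    rw [integral_mul_fderiv_eq_neg_fderiv_mul_of_integrable]
    · simp only [hdiv, zero_mul, integral_zero, neg_zero]
    · simp only [hdiv, zero_mul]
      exact integrable_zero _ _ _
    · exact ((haj j).continuous.mul (hcont _)).integrable_of_hasCompactSupport (hcs _).mul_left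
    · exact ((haj j).continuous.mul hF.continuous).integrable_of_hasCompactSupport hc.mul_left
    · intro x _
      exact ((haj j).differentiable (by simp)) x
    · intro x _
      exact (hF.differentiable (by simp)) x
  · intro j _
    exact ((haj j).continuous.mul (hcont _)).integrable_of_hasCompactSupport (hcs _).mul_left

theorem fderiv_dir {F : Sp J → ℝ} {x w : Sp J} (hF : DifferentiableAt ℝ F x) {B : ℝ}
    (h : ∀ t : ℝ, F (x + t • w) = F x + B * t) : fderiv ℝ F x w = B := by
  have h1 : HasDerivAt (fun t : ℝ => x + t • w) w 0 := by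
    simpa using ((hasDerivAt_id (0 : ℝ)).smul_const w).const_add x
  have h2 : HasFDerivAt F (fderiv ℝ F x) (x + (0 : ℝ) • w) := by
    rw [zero_smul, add_zero]; exact hF.hasFDerivAt
  have h3 := h2.comp_hasDerivAt (0 : ℝ) h1
  have h5 : HasDerivAt (fun t : ℝ => F (x + t • w)) (fderiv ℝ F x w) 0 := h3
  simp only [h] at h5
  have h6 : HasDerivAt (fun t : ℝ => F x + B * t) B 0 := by
    simpa using ((hasDerivAt_id (0 : ℝ)).const_mul B).const_add (F x)
  exact h5.unique h6

theorem sfv (i k : Fin 6) : (EuclideanSpace.single (iF i) (1 : ℝ) : Sp J) (iv k) = 0 := by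
  have h1 := i.2
  have h2 := k.2
  have : iv k ≠ iF i := by
    intro h
    have := congrArg (fun j : Fin 14 => j.1) h
    simp only [iv, iF] at this
    omega
  simp [this]
theorem sfz (i : Fin 6) : (EuclideanSpace.single (iF i) (1 : ℝ) : Sp J) iz = 0 := by
  have : iz ≠ iF i := by
    intro h
    have := congrArg (fun j : Fin 14 => j.1) h
    simp only [iz, iF] at this
    have e : ((6 : Fin 14) : ℕ) = 6 := rfl
    omega
  simp [this]
theorem sgv (k : Fin 6) : (EuclideanSpace.single ig (1 : ℝ) : Sp J) (iv k) = 0 := by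
  have h2 := k.2
  have : iv k ≠ ig := by
    intro h
    have := congrArg (fun j : Fin 14 => j.1) h
    simp only [iv, ig] at this
    have e : ((13 : Fin 14) : ℕ) = 13 := rfl
    omega
  simp [this]
theorem sgz : (EuclideanSpace.single ig (1 : ℝ) : Sp J) iz = 0 := by
  have : iz ≠ ig := by decide
  simp [this]
theorem sgf (k : Fin 6) : (EuclideanSpace.single ig (1 : ℝ) : Sp J) (iF k) = 0 := by
  have h2 := k.2
  have : iF k ≠ ig := by
    intro h
    have := congrArg (fun j : Fin 14 => j.1) h
    simp only [iF, ig] at this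
    have e : ((13 : Fin 14) : ℕ) = 13 := rfl
    omega
  simp [this]

theorem fld_div (v : Sp J) (j : J) (x : Sp J) :
    fderiv ℝ (fun y => fld v y j) x (EuclideanSpace.single j 1) = 0 := by
  have hd : ∀ j x, DifferentiableAt ℝ (fun y => fld v y j) x := fun j x =>
    (((contDiff_euclidean.mp (fld_smooth v)) j).differentiable (by simp)) x
  revert j
  rw [forall_J]
  refine ⟨fun i => ?_, ?_, fun i => ?_, ?_⟩
  · simp only [fld, mk_v]; simp
  · simp only [fld, mk_z]; simp
  · apply fderiv_dir (hd _ _)
    intro t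
    simp only [fld, mk_f, PiLp.add_apply, PiLp.smul_apply, smul_eq_mul, sfv, sfz, mul_zero,
      add_zero, zero_mul]
  · apply fderiv_dir (hd _ _)
    intro t
    simp only [fld, mk_g, PiLp.add_apply, PiLp.smul_apply, smul_eq_mul, sgv, sgz, sgf, mul_zero,
      add_zero, zero_mul]

/-- Integration by parts for the left invariant fields. -/
theorem int_X (v : Sp J) (F : Sp J → ℝ) (hF : ContDiff ℝ 1 F) (hc : HasCompactSupport F) :
    ∫ x, fderiv ℝ F x (fld v x) = 0 :=
  int_field (fld v) (fld_smooth v) (fld_div v) F hF hc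

end Pool.Agent.Helper392.H1
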