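import Pool.Agent.Helper392.H1.Geom
import Pool.Agent.Helper392.H1.Comp

set_option autoImplicit false
set_option linter.unusedSimpArgs false
set_option linter.unusedSectionVars false

open MeasureTheory Filter Topology
open scoped ContDiff RealInnerProductSpace

namespace Pool.Agent.Helper392.H1

/-! ### the tube -/

noncomputable def d0 (i : Fin 6) : ℝ := if i = 0 then 1 else 0

noncomputable def QQ (r : ℝ) (x : Sp J) : ℝ :=
  (∑ i, (yy i x - r * d0 i) ^ 2) / r ^ 2 + qq x / r ^ 2 + (gg x / r ^ 2 + 1 / 2) ^ 2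

noncomputable def bb (r : ℝ) (x : Sp J) : ℝ := expNegInvGlue (1 / 16 - QQ r x)

theorem QQ_smooth (r : ℝ) : ContDiff ℝ ∞ (QQ r) := by
  unfold QQ
  exact (((ContDiff.sum fun i _ => ((yy_smooth i).sub contDiff_const).pow 2).div_const _).add
    (qq_smooth.div_const _)).add (((gg_smooth.div_const _).add contDiff_const).pow 2)

theorem bb_smooth (r : ℝ) : ContDiff ℝ ∞ (bb r) :=
  (expNegInvGlue.contDiff (n := ⊤)).comp (contDiff_const.sub (QQ_smooth r))

theorem hz_QQ (r : ℝ) (x : Sp J) : HD (az x) (QQ r) 0 x := by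
  have h1 := HD.sum (a := az x) (x := x) Finset.univ
    (fun j _ => ((hz_y j x).sub (HD.const (az x) x (r * d0 j))).pow 2)
  have h2 := ((h1.cmul (1 / r ^ 2)).add ((hz_q x).cmul (1 / r ^ 2))).add
    ((((hz_g x).cmul (1 / r ^ 2)).add (HD.const (az x) x (1 / 2))).pow 2)
  refine (h2.congr_val (d' := 0) (by simp)).congr_fun (Eventually.of_forall fun y => ?_)
  simp only [QQ]
  ring

theorem hz_bb (r : ℝ) (x : Sp J) : HD (az x) (bb r) 0 x := by
  have h1 := ((HD.const (az x) x (1 / 16)).sub (hz_QQ r x)).comp (hasDerivAt_eng _)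
  exact h1.congr_val (by simp)

noncomputable def Xi (r : ℝ) (x : Sp J) : ℝ := zz x * bb r x

theorem Xi_smooth (r : ℝ) : ContDiff ℝ ∞ (Xi r) := zz_smooth.mul (bb_smooth r)

theorem grad_Xi (r : ℝ) (x : Sp J) : G.grad (Xi r) x (Sum.inr ()) = bb r x := by
  rw [grad_inr]
  have := ((hz_z x).mul (hz_bb r x)).fderiv
  unfold Xi
  rw [this]
  ring

theorem grad_zz (x : Sp J) : G.grad zz x (Sum.inr ()) = 1 := by
  rw [grad_inr, (hz_z x).fderiv]

noncomputable def phi (x : Sp J) : ℝ := x ig

theorem phi_smooth : ContDiff ℝ ∞ phi := coord_smooth ig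

theorem grad_phi (x : Sp J) : G.grad phi x (Sum.inr ()) = ss x / 12 := by
  rw [grad_inr]
  have := (HD.coord (az x) x ig).fderiv
  unfold phi
  rw [this, az_g]

/-- half widths of boxes -/
noncomputable def rho (K r : ℝ) (j : J) : ℝ := if deg j = 3 then K * r ^ 2 else K * r

theorem rho_v (K r : ℝ) (i : Fin 6) : rho K r (iv i) = K * r := by simp [rho]
theorem rho_z (K r : ℝ) : rho K r iz = K * r := by simp [rho]
theorem rho_f (K r : ℝ) (i : Fin 6) : rho K r (iF i) = K * r := by simp [rho]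
theorem rho_g (K r : ℝ) : rho K r ig = K * r ^ 2 := by simp [rho]

theorem rho_eq (K r : ℝ) (j : J) : rho K r j = K * rho 1 r j := by
  revert j
  rw [forall_J]
  simp [rho_v, rho_z, rho_f, rho_g]

noncomputable def V1 (r : ℝ) : ℝ := ∏ j, (2 * rho 1 r j)

theorem rho_pos {r : ℝ} (hr : 0 < r) (j : J) : 0 < rho 1 r j := by
  revert j
  rw [forall_J]
  simp [rho_v, rho_z, rho_f, rho_g, hr]

theorem V1_pos {r : ℝ} (hr : 0 < r) : 0 < V1 r :=
  Finset.prod_pos fun j _ => mul_pos two_pos (rho_pos hr j)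

theorem volume_box' (a : Sp J) {K r : ℝ} (hK : 0 < K) (hr : 0 < r) :
    volume (box a (rho K r)) = ENNReal.ofReal (K ^ 14 * V1 r) := by
  rw [volume_box, ← ENNReal.ofReal_prod_of_nonneg]
  · congr 1
    have : ∀ j, 2 * rho K r j = K * (2 * rho 1 r j) := fun j => by rw [rho_eq]; ring
    simp only [this, Finset.prod_mul_distrib, V1, Finset.prod_const, Finset.card_univ]
    rw [show Fintype.card J = 14 from rfl]
  · intro j _
    rw [rho_eq]
    have := rho_pos hr j
    positivity

/-- geometry of the tube -/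
theorem tube {r : ℝ} (hr : 0 < r) {x : Sp J} (hx : x ∈ Om) (hQ : QQ r x < 1 / 16) :
    |zz x| ≤ 112 * r ∧ x ig ≤ 31 * r ^ 2 ∧ x ∈ box (mk 0 36 0 0) (rho 112 r) := by
  have hr2 : 0 < r ^ 2 := by positivity
  obtain ⟨c1, c2, c3, c4⟩ := cl_bounds (subset_closure hx)
  have hx' := mem_Om.mp hx
  have hq := qq_nonneg x
  have hs := ss_nonneg x
  have hS : 0 ≤ ∑ i, (yy i x - r * d0 i) ^ 2 := Finset.sum_nonneg fun i _ => sq_nonneg _
  have t1 : 0 ≤ (∑ i, (yy i x - r * d0 i) ^ 2) / r ^ 2 := by positivity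
  have t2 : 0 ≤ qq x / r ^ 2 := by positivity
  have t3 : 0 ≤ (gg x / r ^ 2 + 1 / 2) ^ 2 := by positivity
  unfold QQ at hQ
  have b1 : ∑ i, (yy i x - r * d0 i) ^ 2 ≤ r ^ 2 / 16 := by
    have : (∑ i, (yy i x - r * d0 i) ^ 2) / r ^ 2 ≤ 1 / 16 := by linarith
    rw [div_le_iff₀ hr2] at this
    linarith
  have b2 : qq x ≤ r ^ 2 / 16 := by
    have : qq x / r ^ 2 ≤ 1 / 16 := by linarith
    rw [div_le_iff₀ hr2] at this
    linarith
  have b3 : |gg x / r ^ 2 + 1 / 2| ≤ 1 / 4 := by
    apply abs_le_of_sq_le_sq _ (by norm_num)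
    linarith
  have b4 : gg x ≤ - (r ^ 2 / 4) := by
    have := (abs_le.mp b3).2
    have h : gg x / r ^ 2 ≤ - (1 / 4) := by linarith
    rw [div_le_iff₀ hr2] at h
    linarith
  have b5 : ss x ≤ 25 / 16 * r ^ 2 := by
    have e1 : ss x = r ^ 2 + 2 * r * (yy 0 x - r) + ∑ i, (yy i x - r * d0 i) ^ 2 := by
      simp only [ss, Fin.sum_univ_succ, Fin.sum_univ_zero, d0]
      simp
      ring
    have e2 : |yy 0 x - r| ≤ r / 4 := by
      apply abs_le_of_sq_le_sq _ (by positivity)
      have : (yy 0 x - r * d0 0) ^ 2 ≤ ∑ i, (yy i x - r * d0 i) ^ 2 :=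
        Finset.single_le_sum (f := fun i => (yy i x - r * d0 i) ^ 2) (fun i _ => sq_nonneg _)
          (Finset.mem_univ 0)
      simp only [d0, if_true, mul_one] at this
      have h2 : (r / 4) ^ 2 = r ^ 2 / 16 := by ring
      rw [h2]
      exact this.trans b1
    have e3 := (abs_le.mp e2).2
    rw [e1]
    nlinarith
  have b6 : |pp x| ≤ 5 / 16 * r ^ 2 := by
    apply abs_le_of_sq_le_sq _ (by positivity)
    have h1 := pp_sq_le x
    have h2 : qq x * ss x ≤ r ^ 2 / 16 * (25 / 16 * r ^ 2) :=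
      mul_le_mul b2 b5 hs (by positivity)
    nlinarith
  have b7 : x ig ≤ 31 * r ^ 2 := by
    rw [ig_eq x]
    have h1 := (abs_le.mp b6).1
    have h2 := (abs_le.mp c4).2
    have h3 : zz x * ss x ≤ 200 * (25 / 16 * r ^ 2) :=
      (mul_le_mul_of_nonneg_right h2 hs).trans (mul_le_mul_of_nonneg_left b5 (by norm_num))
    linarith
  have hee := ee_nonneg x
  have b8 : |zz x| ≤ 112 * r := by
    apply abs_le_of_sq_le_sq _ (by positivity)
    nlinarith [sq_nonneg (x ig)]
  refine ⟨b8, b7, ?_⟩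
  change ∀ j, _
  rw [forall_J]
  simp only [mk_v, mk_z, mk_f, mk_g, Pi.zero_apply, sub_zero, rho_v, rho_z, rho_f, rho_g]
  refine ⟨fun i => ?_, b8, fun i => ?_, ?_⟩
  · apply abs_le_of_sq_le_sq _ (by positivity)
    have : (yy i x) ^ 2 ≤ ss x :=
      Finset.single_le_sum (f := fun i => yy i x ^ 2) (fun i _ => sq_nonneg _)
        (Finset.mem_univ i)
    change (yy i x) ^ 2 ≤ _
    nlinarith
  · apply abs_le_of_sq_le_sq _ (by positivity)
    have : (x (iF i)) ^ 2 ≤ ee x :=
      Finset.single_le_sum (f := fun i => x (iF i) ^ 2) (fun i _ => sq_nonneg _)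
        (Finset.mem_univ i)
    nlinarith [sq_nonneg (x ig), sq_nonneg (zz x)]
  · rw [abs_of_nonneg c1]
    nlinarith

noncomputable def x0 (r : ℝ) : Sp J :=
  mk (fun i => r * d0 i) 36 (fun i => - 18 * (r * d0 i)) (5 / 2 * r ^ 2)

/-- geometry of the good box -/
theorem portion {k : ℝ} (hk : 0 < k) (hk1 : k ≤ 1) {x : Sp J}
    (hx : x ∈ box (x0 (k ^ 2)) (rho (1 / 400) (k ^ 2))) :
    x ∈ Om ∧ 0 < ss x ∧ QQ (k ^ 2) x ≤ 1 / 32 ∧ k / 2 ≤ ww (k ^ 6 / 100) x := by
  set r : ℝ := k ^ 2 with hrdef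
  have hr : 0 < r := by positivity
  have hr1 : r ≤ 1 := pow_le_one₀ hk.le hk1
  have hr2 : 0 < r ^ 2 := by positivity
  have hr21 : r ^ 2 ≤ r := by nlinarith
  replace hx : ∀ j, |x j - x0 r j| ≤ rho (1 / 400) r j := hx
  rw [forall_J] at hx
  simp only [x0, mk_v, mk_z, mk_f, mk_g, rho_v, rho_z, rho_f, rho_g] at hx
  obtain ⟨hv, hz, hf, hg⟩ := hx
  have hz' : |zz x| ≤ 1 / 400 * r := hz
  have hy : ∀ i, |yy i x - r * d0 i| ≤ 1 / 400 * r := hv
  have hd0 : ∀ i, 0 ≤ d0 i ∧ d0 i ≤ 1 := by
    intro i; unfold d0; split_ifs <;> norm_num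
  have hyb : ∀ i, |yy i x| ≤ 401 / 400 * r := by
    intro i
    have h1 := abs_le.mp (hy i)
    have h2 := hd0 i
    rw [abs_le]
    constructor <;> nlinarith
  -- the f coordinates
  have hfb : ∀ i, |ff i x| ≤ 1 / 20 * r := by
    intro i
    have e1 : ff i x = (x (iF i) - - 18 * (r * d0 i)) + 18 * (yy i x - r * d0 i)
        - zz x * yy i x / 2 := by unfold ff; ring
    have h1 : |zz x * yy i x / 2| ≤ 1 / 400 * r := by
      rw [abs_div, abs_mul, abs_of_pos (two_pos : (0 : ℝ) < 2)]
      have : |zz x| * |yy i x| ≤ 1 / 400 * r * (401 / 400 * r) :=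
        mul_le_mul hz' (hyb i) (abs_nonneg _) (by positivity)
      rw [div_le_iff₀ two_pos]
      nlinarith
    have h2 := abs_le.mp h1
    have h3 := abs_le.mp (hf i)
    have h4 := abs_le.mp (hy i)
    rw [e1, abs_le]
    constructor <;> linarith
  have hfsq : ∀ i, ff i x ^ 2 ≤ 1 / 400 * r ^ 2 := by
    intro i
    have := pow_le_pow_left₀ (abs_nonneg _) (hfb i) 2
    rw [sq_abs] at this
    linarith
  have hysq : ∀ i, (yy i x - r * d0 i) ^ 2 ≤ 1 / 160000 * r ^ 2 := by
    intro i
    have := pow_le_pow_left₀ (abs_nonneg _) (hy i) 2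
    rw [sq_abs] at this
    linarith
  have hqb : qq x ≤ 6 / 400 * r ^ 2 := by
    have : qq x ≤ ∑ _i : Fin 6, 1 / 400 * r ^ 2 := Finset.sum_le_sum fun i _ => hfsq i
    simp at this
    linarith
  have hSb : ∑ i, (yy i x - r * d0 i) ^ 2 ≤ 6 / 160000 * r ^ 2 := by
    have : ∑ i, (yy i x - r * d0 i) ^ 2 ≤ ∑ _i : Fin 6, 1 / 160000 * r ^ 2 :=
      Finset.sum_le_sum fun i _ => hysq i
    simp at this
    linarith
  have hS0 : 0 ≤ ∑ i, (yy i x - r * d0 i) ^ 2 := Finset.sum_nonneg fun i _ => sq_nonneg _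
  have es : ss x = r ^ 2 + 2 * r * (yy 0 x - r * d0 0) + ∑ i, (yy i x - r * d0 i) ^ 2 := by
    simp only [ss, Fin.sum_univ_succ, Fin.sum_univ_zero, d0]
    simp
    ring
  have h00 := abs_le.mp (hy 0)
  have hs1 : 99 / 100 * r ^ 2 ≤ ss x := by rw [es]; nlinarith
  have hs2 : ss x ≤ 101 / 100 * r ^ 2 := by rw [es]; nlinarith
  have hs3 : |ss x - r ^ 2| ≤ 1 / 150 * r ^ 2 := by
    rw [es, abs_le]
    constructor <;> nlinarith
  have hs0 : 0 < ss x := by nlinarith
  have hzsq : zz x ^ 2 ≤ 1 / 160000 * r ^ 2 := by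
    have := pow_le_pow_left₀ (abs_nonneg _) hz' 2
    rw [sq_abs] at this
    linarith
  have hpb : |pp x| ≤ 13 / 100 * r ^ 2 := by
    apply abs_le_of_sq_le_sq _ (by positivity)
    have h1 := pp_sq_le x
    have h2 : qq x * ss x ≤ 6 / 400 * r ^ 2 * (101 / 100 * r ^ 2) :=
      mul_le_mul hqb hs2 hs0.le (by positivity)
    nlinarith
  have hzs : |zz x * ss x| ≤ 1 / 300 * r ^ 2 := by
    rw [abs_mul, abs_of_pos hs0]
    have : |zz x| * ss x ≤ 1 / 400 * r * (101 / 100 * r ^ 2) :=
      mul_le_mul hz' hs2 hs0.le (by positivity)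
    nlinarith
  have hgb : |gg x + r ^ 2 / 2| ≤ 1 / 10 * r ^ 2 := by
    have e1 : gg x + r ^ 2 / 2 = (x ig - 5 / 2 * r ^ 2) + pp x / 2 - zz x * ss x / 12
        - 3 * (ss x - r ^ 2) := by unfold gg; ring
    have h1 := abs_le.mp hg
    have h2 := abs_le.mp hpb
    have h3 := abs_le.mp hzs
    have h4 := abs_le.mp hs3
    rw [e1, abs_le]
    constructor <;> linarith
  have hgb' := abs_le.mp hgb
  have hgsq : gg x ^ 2 ≤ 9 / 25 * r ^ 4 := by
    have h1 : |gg x| ≤ 3 / 5 * r ^ 2 := by
      rw [abs_le]; constructor <;> linarith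
    have := pow_le_pow_left₀ (abs_nonneg _) h1 2
    rw [sq_abs] at this
    nlinarith
  refine ⟨?_, hs0, ?_, ?_⟩
  · rw [mem_Om]
    have hxig := abs_le.mp hg
    have hee : ee x ≤ 400 * r ^ 2 := by
      rw [ee_eq]
      have a1 : |zz x| ≤ 1 := hz'.trans (by linarith)
      have a2 := abs_le.mp a1
      have b1 : (zz x / 2 - 18) ^ 2 ≤ (37 / 2) ^ 2 := by nlinarith
      have b2 : (zz x / 2 - 18) ^ 2 * ss x ≤ (37 / 2) ^ 2 * (101 / 100 * r ^ 2) :=
        mul_le_mul b1 hs2 hs0.le (by norm_num)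
      have b3 : 2 * (zz x / 2 - 18) * pp x ≤ 37 * (13 / 100 * r ^ 2) := by
        have c1 : |2 * (zz x / 2 - 18) * pp x| ≤ 37 * (13 / 100 * r ^ 2) := by
          rw [abs_mul]
          apply mul_le_mul _ hpb (abs_nonneg _) (by norm_num)
          rw [abs_le]; constructor <;> linarith
        exact (le_abs_self _).trans c1
      nlinarith
    have hig1 : 2 * r ^ 2 ≤ x ig := by linarith
    have hig2 : x ig ≤ 3 * r ^ 2 := by linarith
    have hig3 : x ig ^ 2 ≤ 9 * r ^ 2 := by
      have h0 : 0 ≤ x ig := by linarith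
      have : x ig ^ 2 ≤ (3 * r ^ 2) ^ 2 := pow_le_pow_left₀ h0 hig2 2
      nlinarith
    nlinarith
  · unfold QQ
    have a1 : (∑ i, (yy i x - r * d0 i) ^ 2) / r ^ 2 ≤ 6 / 160000 := by
      rw [div_le_iff₀ hr2]; exact hSb
    have a2 : qq x / r ^ 2 ≤ 6 / 400 := by
      rw [div_le_iff₀ hr2]; exact hqb
    have a3 : (gg x / r ^ 2 + 1 / 2) ^ 2 ≤ 1 / 100 := by
      have h1 : gg x / r ^ 2 + 1 / 2 = (gg x + r ^ 2 / 2) / r ^ 2 := by
        field_simp
      rw [h1, div_pow, div_le_iff₀ (by positivity)]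
      have := pow_le_pow_left₀ (abs_nonneg _) hgb 2
      rw [sq_abs] at this
      nlinarith
    linarith
  · have hR := rr_pos hs0
    have e := ss_rr hs0
    set R := rr x with hRdef
    set s := ss x with hsdef
    -- T = s R^3 = s^{1/4}
    have hT : 9 / 10 * k ≤ s * R ^ 3 := by
      apply le_of_pow_le_pow_left₀ (n := 4) (by norm_num) (by positivity)
      have h1 : (s * R ^ 3) ^ 4 = s * (s * R ^ 4) ^ 3 := by ring
      rw [h1, e, one_pow, mul_one]
      have h2 : (9 / 10 * k) ^ 4 = 6561 / 10000 * r ^ 2 := by rw [hrdef]; ring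
      rw [h2]
      linarith
    have h1 : zz x ^ 2 + qq x ≤ 2 / 100 * s := by nlinarith
    have h2 : gg x ^ 2 ≤ 38 / 100 * s ^ 2 := by
      have : (99 / 100 * r ^ 2) ^ 2 ≤ s ^ 2 := pow_le_pow_left₀ (by positivity) hs1 2
      nlinarith
    have h3 : (zz x ^ 2 + qq x) * R ^ 3 ≤ 2 / 100 * s * R ^ 3 :=
      mul_le_mul_of_nonneg_right h1 (by positivity)
    have h4 : gg x ^ 2 * R ^ 7 ≤ 38 / 100 * (s * R ^ 3) := by
      have := mul_le_mul_of_nonneg_right h2 (by positivity : 0 ≤ R ^ 7)
      have e2 : 38 / 100 * s ^ 2 * R ^ 7 = 38 / 100 * (s * R ^ 3) * (s * R ^ 4) := by ring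
      rw [e2, e, mul_one] at this
      exact this
    have h5 : k ^ 6 / 100 * R ^ 4 ≤ 2 / 100 * k := by
      have h6 : R ^ 4 ≤ 2 / r ^ 2 := by
        rw [le_div_iff₀ hr2]
        have : r ^ 2 ≤ 2 * s := by linarith
        calc R ^ 4 * r ^ 2 ≤ R ^ 4 * (2 * s) := mul_le_mul_of_nonneg_left this (by positivity)
          _ = 2 * (s * R ^ 4) := by ring
          _ = 2 := by rw [e, mul_one]
      calc k ^ 6 / 100 * R ^ 4 ≤ k ^ 6 / 100 * (2 / r ^ 2) :=
            mul_le_mul_of_nonneg_left h6 (by positivity)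
        _ = 2 / 100 * k ^ 2 := by rw [hrdef]; field_simp
        _ ≤ 2 / 100 * k := by nlinarith
    unfold ww
    rw [← hRdef, ← hsdef]
    nlinarith

theorem bdd_memLp {E : Type} [NormedAddCommGroup E] (f : Sp J → E) (hf : Continuous f) :
    MemLp f 2 (volume.restrict Om) := by
  have hfin : volume Om < ⊤ := Om_bdd.measure_lt_top
  have : IsFiniteMeasure (volume.restrict Om) :=
    ⟨by rw [Measure.restrict_apply_univ]; exact hfin⟩
  obtain ⟨M, hM⟩ := Om_bdd.isCompact_closure.exists_bound_of_continuousOn hf.continuousOn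
  have hae : ∀ᵐ x ∂(volume.restrict Om), x ∈ closure Om := by
    rw [ae_restrict_iff' Om_open.measurableSet]
    exact Eventually.of_forall fun x hx => subset_closure hx
  exact MemLp.of_bound hf.aestronglyMeasurable M (hae.mono fun x hx => hM x hx)

/-- The solution with boundary values `x_g` has unbounded horizontal gradient. -/
theorem unbounded {u : Sp J → ℝ} {U : Sp J → Sp K}
    (hsol : IsSol G 2 (fun ξ => ‖ξ‖ ^ 2 / 2) Om phi u U) :
    ¬ ∃ M : ℝ, ∀ᵐ x ∂(volume.restrict Om), ‖U x‖ ≤ M := by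
  rintro ⟨M0, hM0⟩
  set M : ℝ := max M0 0 + 14000 with hMdef
  have hMpos : 0 < M := by positivity
  have hCz : ∀ x ∈ Om, |zz x| ≤ 200 := fun x hx => (cl_bounds (subset_closure hx)).2.2.2
  -- comparison
  have hcomp : ∀ η > 0, ∀ᵐ x ∂(volume.restrict Om), x ∈ OO → ww η x ≤ 500000000 * u x := by
    intro η hη
    refine comparison G_nice Om_open zz_smooth (Sum.inr ()) grad_zz hCz phi_smooth hsol OO_open
      (ww_smooth η) ?_ ?_
    · intro x hx
      exact lap_nonneg hη.le hx.2 (hCz x hx.1)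
    · intro ψ hψ δ hδ
      exact level hη hψ hδ
  have hpos : ∀ᵐ x ∂(volume.restrict Om), 0 ≤ u x := by
    have := comparison (O := Set.univ) (w := fun _ => 0) (A := 1) G_nice Om_open zz_smooth
      (Sum.inr ()) grad_zz hCz phi_smooth hsol isOpen_univ contDiffOn_const ?_ ?_
    · filter_upwards [this] with x hx
      have := hx (Set.mem_univ _)
      linarith
    · intro x _
      apply Finset.sum_nonneg
      intro k _
      have : (fun y => G.grad (fun _ => (0 : ℝ)) y k) = fun _ => 0 := by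
        ext y
        rw [grad_apply]
        simp
      rw [this]
      simp
    · intro ψ hψ δ hδ
      exact level0 hψ hδ
  -- the bound for the derivative of the difference
  have hD : ∀ᵐ x ∂(volume.restrict Om),
      |U x (Sum.inr ()) - G.grad phi x (Sum.inr ())| ≤ M := by
    have hmem : ∀ᵐ x ∂(volume.restrict Om), x ∈ Om := ae_restrict_mem Om_open.measurableSet
    filter_upwards [hM0, hmem] with x hx hxO
    have h1 : |U x (Sum.inr ())| ≤ M0 := (PiLp.norm_apply_le (U x) (Sum.inr ())).trans hx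
    obtain ⟨c1, c2, c3, c4⟩ := cl_bounds (subset_closure hxO)
    have hs := ss_nonneg x
    have h2 : |G.grad phi x (Sum.inr ())| ≤ 14000 := by
      rw [grad_phi, abs_of_nonneg (by positivity)]
      linarith
    have h3 := abs_sub (U x (Sum.inr ())) (G.grad phi x (Sum.inr ()))
    have h4 := le_max_left M0 0
    rw [hMdef]
    linarith
  obtain ⟨ψ, hψ, lim1, lim2⟩ := hsol.bdry.approx
  -- identity
  have hid : ∀ r : ℝ, ∫ x in Om, (u x - phi x) * bb r x =
      - ∫ x in Om, (U x - G.grad phi x) (Sum.inr ()) * Xi r x := by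
    intro r
    have m1 : MemLp (bb r) 2 (volume.restrict Om) := bdd_memLp _ (bb_smooth r).continuous
    have m2 : MemLp (Xi r) 2 (volume.restrict Om) := bdd_memLp _ (Xi_smooth r).continuous
    have l1 := tendsto_mul_of (fun n => (hψ n).memLp 2 (volume.restrict Om)) hsol.bdry.mem m1 lim1
    have l2 := tendsto_comp_of (Sum.inr ()) (fun n => (hψ n).memLp_grad G_nice 2
      (volume.restrict Om)) hsol.bdry.memD m2 lim2
    have e : ∀ n, ∫ x in Om, ψ n x * bb r x = - ∫ x in Om, G.grad (ψ n) x (Sum.inr ()) * Xi r x := by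
      intro n
      have := ibp_mul G_nice (hψ n) (Xi_smooth r) (Sum.inr ())
      simp only [grad_Xi] at this
      exact this
    simp only [e] at l1
    exact tendsto_nhds_unique l1 l2.neg
  -- main inequality
  set b0 : ℝ := expNegInvGlue (1 / 32) with hb0
  have hb0pos : 0 < b0 := expNegInvGlue.pos_of_pos (by norm_num)
  have main : ∀ k : ℝ, 0 < k → k ≤ 1 →
      (k / 1000000000 * b0) * ((1 / 400) ^ 14 * V1 (k ^ 2)) ≤
        (31 * (k ^ 2) ^ 2 + M * (112 * k ^ 2)) * (112 ^ 14 * V1 (k ^ 2)) := by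
    intro k hk hk1
    set r : ℝ := k ^ 2 with hrdef
    have hr : 0 < r := by positivity
    have hr1 : r ≤ 1 := pow_le_one₀ hk.le hk1
    have hη : 0 < k ^ 6 / 100 := by positivity
    set P : Set (Sp J) := box (x0 r) (rho (1 / 400) r) with hP
    set B : Set (Sp J) := box (mk 0 36 0 0) (rho 112 r) with hB
    have hPm : MeasurableSet P := box_measurable _ _
    have hBm : MeasurableSet B := box_measurable _ _
    have hPO : P ⊆ Om := fun x hx => (portion hk hk1 hx).1
    have hVP : (volume P).toReal = (1 / 400) ^ 14 * V1 r := by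
      rw [hP, volume_box' _ (by norm_num) hr, ENNReal.toReal_ofReal]
      exact mul_nonneg (by positivity) (V1_pos hr).le
    have hVB : (volume B).toReal = 112 ^ 14 * V1 r := by
      rw [hB, volume_box' _ (by norm_num) hr, ENNReal.toReal_ofReal]
      exact mul_nonneg (by positivity) (V1_pos hr).le
    have hBfin : volume B ≠ ⊤ := by
      rw [hB, volume_box' _ (by norm_num) hr]; exact ENNReal.ofReal_ne_top
    have hPfin : volume P ≠ ⊤ := by
      rw [hP, volume_box' _ (by norm_num) hr]; exact ENNReal.ofReal_ne_top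
    have m1 : MemLp (bb r) 2 (volume.restrict Om) := bdd_memLp _ (bb_smooth r).continuous
    have m2 : MemLp (Xi r) 2 (volume.restrict Om) := bdd_memLp _ (Xi_smooth r).continuous
    have mphi : MemLp phi 2 (volume.restrict Om) := bdd_memLp _ phi_smooth.continuous
    have mD : MemLp (fun x => (U x - G.grad phi x) (Sum.inr ())) 2 (volume.restrict Om) := by
      refine MemLp.of_le hsol.bdry.memD ?_ ?_
      · exact ((EuclideanSpace.proj (Sum.inr ()) : Sp K →L[ℝ] ℝ).continuous).comp_aestronglyMeasurable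
          hsol.bdry.memD.aestronglyMeasurable
      · exact Eventually.of_forall fun x => PiLp.norm_apply_le _ _
    have i1 : Integrable (fun x => u x * bb r x) (volume.restrict Om) :=
      hsol.hw.mem.integrable_mul m1
    have i2 : Integrable (fun x => phi x * bb r x) (volume.restrict Om) :=
      mphi.integrable_mul m1
    have i3 : Integrable (fun x => (U x - G.grad phi x) (Sum.inr ()) * Xi r x)
        (volume.restrict Om) := mD.integrable_mul m2
    have hbb : ∀ x, 0 ≤ bb r x ∧ bb r x ≤ 1 := fun x =>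
      ⟨expNegInvGlue.nonneg _, eng_le_one _⟩
    have eq1 : ∫ x in Om, u x * bb r x =
        ∫ x in Om, (phi x * bb r x - (U x - G.grad phi x) (Sum.inr ()) * Xi r x) := by
      rw [integral_sub i2 i3]
      have := hid r
      simp only [sub_mul] at this
      rw [integral_sub i1 i2] at this
      simp only [PiLp.sub_apply] at this ⊢
      linarith
    -- upper bound
    have up : ∫ x in Om, (phi x * bb r x - (U x - G.grad phi x) (Sum.inr ()) * Xi r x) ≤
        (31 * r ^ 2 + M * (112 * r)) * (112 ^ 14 * V1 r) := by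
      have ib : Integrable (B.indicator (fun _ => 31 * r ^ 2 + M * (112 * r)))
          (volume : Measure (Sp J)) := (integrable_indicator_iff hBm).mpr
            (integrableOn_const hBfin)
      calc ∫ x in Om, (phi x * bb r x - (U x - G.grad phi x) (Sum.inr ()) * Xi r x)
          ≤ ∫ x in Om, B.indicator (fun _ => 31 * r ^ 2 + M * (112 * r)) x := by
            apply integral_mono_ae (i2.sub i3) ib.integrableOn
            have hmem : ∀ᵐ x ∂(volume.restrict Om), x ∈ Om :=
              ae_restrict_mem Om_open.measurableSet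
            filter_upwards [hD, hmem] with x hDx hxO
            by_cases hQ : QQ r x < 1 / 16
            · obtain ⟨t1, t2, t3⟩ := tube hr hxO hQ
              rw [Set.indicator_of_mem t3]
              obtain ⟨c1, c2, c3, c4⟩ := cl_bounds (subset_closure hxO)
              obtain ⟨q1, q2⟩ := hbb x
              have a1 : phi x * bb r x ≤ 31 * r ^ 2 := by
                calc phi x * bb r x ≤ phi x * 1 := mul_le_mul_of_nonneg_left q2 c1
                  _ ≤ 31 * r ^ 2 := by rw [mul_one]; exact t2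
              have a2 : |(U x - G.grad phi x) (Sum.inr ()) * Xi r x| ≤ M * (112 * r) := by
                rw [abs_mul]
                apply mul_le_mul hDx _ (abs_nonneg _) hMpos.le
                unfold Xi
                rw [abs_mul, abs_of_nonneg q1]
                calc |zz x| * bb r x ≤ |zz x| * 1 := mul_le_mul_of_nonneg_left q2 (abs_nonneg _)
                  _ ≤ 112 * r := by rw [mul_one]; exact t1
              have a3 := (abs_le.mp a2).1
              change phi x * bb r x - (U x - G.grad phi x) (Sum.inr ()) * Xi r x ≤ _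
              linarith
            · have hb : bb r x = 0 := expNegInvGlue.zero_of_nonpos (by linarith)
              have hX : Xi r x = 0 := by unfold Xi; rw [hb, mul_zero]
              change phi x * bb r x - (U x - G.grad phi x) (Sum.inr ()) * Xi r x ≤ _
              rw [hb, hX]
              simp only [mul_zero, sub_zero]
              apply Set.indicator_nonneg
              intro y _
              positivity
        _ ≤ ∫ x, B.indicator (fun _ => 31 * r ^ 2 + M * (112 * r)) x := by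
            apply setIntegral_le_integral ib
            exact Eventually.of_forall fun x => Set.indicator_nonneg (fun y _ => by positivity) x
        _ = (31 * r ^ 2 + M * (112 * r)) * (112 ^ 14 * V1 r) := by
            rw [integral_indicator hBm, setIntegral_const, smul_eq_mul, Measure.real, hVB, mul_comm]
    -- lower bound
    have low : (k / 1000000000 * b0) * ((1 / 400) ^ 14 * V1 r) ≤ ∫ x in Om, u x * bb r x := by
      have ip : Integrable (P.indicator (fun _ => k / 1000000000 * b0))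
          (volume : Measure (Sp J)) := (integrable_indicator_iff hPm).mpr
            (integrableOn_const hPfin)
      calc (k / 1000000000 * b0) * ((1 / 400) ^ 14 * V1 r)
          = ∫ x, P.indicator (fun _ => k / 1000000000 * b0) x := by
            rw [integral_indicator hPm, setIntegral_const, smul_eq_mul, Measure.real, hVP, mul_comm]
        _ = ∫ x in Om, P.indicator (fun _ => k / 1000000000 * b0) x := by
            symm
            apply setIntegral_eq_integral_of_forall_compl_eq_zero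
            intro x hx
            exact Set.indicator_of_notMem (fun h => hx (hPO h)) _
        _ ≤ ∫ x in Om, u x * bb r x := by
            apply integral_mono_ae ip.integrableOn i1
            filter_upwards [hpos, hcomp _ hη] with x h1 h2
            obtain ⟨q1, q2⟩ := hbb x
            by_cases hxP : x ∈ P
            · rw [Set.indicator_of_mem hxP]
              obtain ⟨p1, p2, p3, p4⟩ := portion hk hk1 hxP
              have h3 := h2 p2
              have h4 : k / 1000000000 ≤ u x := by linarith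
              have h5 : b0 ≤ bb r x := expNegInvGlue.monotone (by linarith)
              exact mul_le_mul h4 h5 hb0pos.le h1
            · rw [Set.indicator_of_notMem hxP]
              exact mul_nonneg h1 q1
    rw [eq1] at low
    exact low.trans up
  -- conclusion
  have fin : ∀ k : ℝ, 0 < k → k ≤ 1 →
      b0 / 1000000000 * (1 / 400) ^ 14 ≤ k * ((31 + M * 112) * 112 ^ 14) := by
    intro k hk hk1
    have h1 := main k hk hk1
    have hV := V1_pos (by positivity : 0 < k ^ 2)
    have h2 : (b0 / 1000000000 * (1 / 400) ^ 14) * (k * V1 (k ^ 2)) ≤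
        (k * ((31 * k ^ 2 + M * 112) * 112 ^ 14)) * (k * V1 (k ^ 2)) := by
      calc _ = (k / 1000000000 * b0) * ((1 / 400) ^ 14 * V1 (k ^ 2)) := by ring
        _ ≤ _ := h1
        _ = _ := by ring
    have h3 := le_of_mul_le_mul_right h2 (by positivity)
    have h4 : k ^ 2 ≤ 1 := pow_le_one₀ hk.le hk1
    have h5 : (31 * k ^ 2 + M * 112) * 112 ^ 14 ≤ (31 + M * 112) * 112 ^ 14 := by
      apply mul_le_mul_of_nonneg_right _ (by positivity)
      linarith
    exact h3.trans (mul_le_mul_of_nonneg_left h5 hk.le)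
  set c1 : ℝ := b0 / 1000000000 * (1 / 400) ^ 14 with hc1
  set c2 : ℝ := (31 + M * 112) * 112 ^ 14 with hc2
  have hc1p : 0 < c1 := by positivity
  have hc2p : 0 < c2 := by positivity
  have hk0 : 0 < min 1 (c1 / (2 * c2)) := by positivity
  have := fin (min 1 (c1 / (2 * c2))) hk0 (min_le_left _ _)
  have h2 : min 1 (c1 / (2 * c2)) * c2 ≤ c1 / (2 * c2) * c2 :=
    mul_le_mul_of_nonneg_right (min_le_right _ _) hc2p.le
  have h3 : c1 / (2 * c2) * c2 = c1 / 2 := by field_simp
  linarith

theorem ell_half : Ell (κ := K) 2 0 1 1 (fun ξ => ‖ξ‖ ^ 2 / 2) := by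
  have hf : fderiv ℝ (fun ξ : Sp K => ‖ξ‖ ^ 2 / 2) = fun ξ => innerSL ℝ ξ := by
    funext ξ
    ext η
    rw [fderiv_half_sq]
    rfl
  have hff : ∀ ξ η : Sp K, fderiv ℝ (fderiv ℝ (fun ξ : Sp K => ‖ξ‖ ^ 2 / 2)) ξ η η = ‖η‖ ^ 2 := by
    intro ξ η
    rw [hf]
    have h1 : fderiv ℝ (fun ξ : Sp K => innerSL ℝ ξ) ξ = innerSL ℝ :=
      ContinuousLinearMap.fderiv (innerSL ℝ)
    rw [h1]
    exact real_inner_self_eq_norm_sq η
  refine ⟨le_rfl, one_pos, le_rfl, ?_, ?_, ?_, ?_⟩
  · exact (contDiff_norm_sq ℝ).div_const 2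
  · intro ξ η
    rw [hff]
    norm_num
  · intro ξ η
    rw [hff]
    norm_num
  · intro ξ
    rw [hf]
    simp only [innerSL_apply_norm, zero_add, one_mul]
    rw [show ((2 : ℝ) - 1) / 2 = 1 / 2 by norm_num, ← Real.sqrt_eq_rpow, Real.sqrt_sq (norm_nonneg _)]

theorem main :
    ∃ (ι κ : Type) (_ : Fintype ι) (_ : Fintype κ) (G : Carnot ι κ) (δ lam Lam : ℝ)
      (f : Sp κ → ℝ) (c : Sp ι) (r : ℝ) (φ : Sp ι →L[ℝ] ℝ),
      Fintype.card ι = 14 ∧ Fintype.card κ = 7 ∧ G.step = 3 ∧ Ell 2 δ lam Lam f ∧ 0 < r ∧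
      (∃ u U, IsSol G 2 f (Metric.ball c r) φ u U) ∧
      ∀ u U, IsSol G 2 f (Metric.ball c r) φ u U →
        ¬ ∃ M : ℝ, ∀ᵐ x ∂(volume.restrict (Metric.ball c r)), ‖U x‖ ≤ M := by
  obtain ⟨u, U, h⟩ := exists_sol G_nice Om_bdd zz_smooth (Sum.inr ()) grad_zz
    (C := 200) (by norm_num) (fun x hx => (cl_bounds (subset_closure hx)).2.2.2) phi_smooth
  exact ⟨J, K, inferInstance, inferInstance, G, 0, 1, 1, _, cc, 200, EuclideanSpace.proj ig, rfl,
    rfl, rfl, ell_half, by norm_num, ⟨u, U, h⟩, fun u U h => unbounded h⟩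

end Pool.Agent.Helper392.H1
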